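import Pool.Agent.Work.MP_46fa68_95.Mark
import Pool.Agent.Work.MP_46fa68_95.Block

/-! # The relations between the adjacent transposition and the idempotents of two levels

`K ∈ Lv M k`, `A ∈ Lv M (k+1)`, `L ∈ Lv M (k+2)`, `s = (k, k+1)`. -/

set_option autoImplicit false

open Finset Equiv

namespace Pool.JM

variable {N M : ℕ}

/-! ## combinatorics of one box -/

/-- `B` is `C` with one more box -/
def Ab (C B : Finset ℕ) : Prop := ∃ x ∈ ad C, mv C x = B

theorem mv_inj82 {C : Finset ℕ} {x y : ℕ} (hx : x ∈ ad C) (h : mv C x = mv C y) : x = y := by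
  by_contra hne
  have h1 : x ∉ mv C x := by simp [mv]
  apply h1
  rw [h]
  simp only [mv, mem_insert, mem_erase]
  exact Or.inr ⟨hne, (mem_ad.1 hx).1⟩

/-- the bead of `B` which was moved -/
theorem mv_not_mem {C : Finset ℕ} {x : ℕ} : x ∉ mv C x := by simp [mv]

theorem mv_mem_succ {C : Finset ℕ} {x : ℕ} : x + 1 ∈ mv C x := by simp [mv]

/-- two different shapes have at most one common cover -/
theorem cover_unique {A B : Finset ℕ} (hAB : A ≠ B) {y x y' x' : ℕ} (hy : y ∈ ad A)
    (hx : x ∈ ad B) (h : mv A y = mv B x) (hy' : y' ∈ ad A) (hx' : x' ∈ ad B)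
    (h' : mv A y' = mv B x') : y = y' := by
  obtain ⟨y1, y2⟩ := mem_ad.1 hy
  obtain ⟨x1, x2⟩ := mem_ad.1 hx
  obtain ⟨y1', y2'⟩ := mem_ad.1 hy'
  obtain ⟨x1', x2'⟩ := mem_ad.1 hx'
  by_contra hne
  -- `y ≠ x`
  have hyx : y ≠ x := by
    rintro rfl
    apply hAB
    ext z
    have h1 : z ∈ mv A y ↔ z ∈ mv B y := by rw [h]
    simp only [mv, mem_insert, mem_erase] at h1
    by_cases hz : z = y
    · subst hz
      exact ⟨fun _ => x1, fun _ => y1⟩
    · by_cases hz1 : z = y + 1
      · subst hz1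
        exact ⟨fun h => absurd h y2, fun h => absurd h x2⟩
      · constructor
        · intro hzA
          rcases h1.1 (Or.inr ⟨hz, hzA⟩) with h2 | h2
          · exact absurd h2 hz1
          · exact h2.2
        · intro hzB
          rcases h1.2 (Or.inr ⟨hz, hzB⟩) with h2 | h2
          · exact absurd h2 hz1
          · exact h2.2
  have a1 : y + 1 ∈ mv B x := by rw [← h]; exact mv_mem_succ
  have a2 : y + 1 ∈ B := by
    simp only [mv, mem_insert, mem_erase] at a1
    rcases a1 with a | a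
    · omega
    · exact a.2
  have a3 : y + 1 ∉ mv B x' := by
    rw [← h']
    simp only [mv, mem_insert, mem_erase, not_or, not_and]
    exact ⟨by omega, fun _ => y2⟩
  have a4 : y + 1 = x' := by
    by_contra hne'
    apply a3
    simp only [mv, mem_insert, mem_erase]
    exact Or.inr ⟨hne', a2⟩
  have b1 : y ∈ mv B x' := by
    rw [← h']
    simp only [mv, mem_insert, mem_erase]
    exact Or.inr ⟨hne, y1⟩
  have b2 : y ∉ mv B x := by rw [← h]; exact mv_not_mem
  have b3 : y ∉ B := by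
    intro hyB
    apply b2
    simp only [mv, mem_insert, mem_erase]
    exact Or.inr ⟨hyx, hyB⟩
  simp only [mv, mem_insert, mem_erase] at b1
  rcases b1 with b | b
  · omega
  · exact b3 b.2

/-! ## products of idempotents of neighbouring levels -/

theorem P_mul_Pc {k : ℕ} (hM : N < M) (hk : k < N) (C : Finset ℕ) (x : ℕ) :
    P N M k C * Pc N M k C x = Pc N M k C x := by
  have hg := good (N := N) hM k hk.le
  unfold Pc
  rw [← mul_assoc, hg.idem]

theorem Pc_mul_P {k : ℕ} (hM : N < M) (hk : k < N) (C : Finset ℕ) (x : ℕ) :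
    Pc N M k C x * P N M k C = Pc N M k C x := by
  have hg := good (N := N) hM k hk.le
  unfold Pc
  rw [mul_assoc, ← hg.comm hk, ← mul_assoc, hg.idem]

theorem P_mul_Pc_ne {k : ℕ} (hM : N < M) (hk : k < N) {C C' : Finset ℕ} (h : C ≠ C') (x : ℕ) :
    P N M k C * Pc N M k C' x = 0 := by
  have hg := good (N := N) hM k hk.le
  unfold Pc
  rw [← mul_assoc, hg.orth _ _ h, zero_mul]

theorem P_P {k : ℕ} (hM : N < M) (hk : k < N) {C : Finset ℕ} (hC : C ∈ Lv M k) {x : ℕ}
    (hx : x ∈ ad C) : P N M k C * P N M (k + 1) (mv C x) = Pc N M k C x := by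
  rw [P_succ, Finset.mul_sum, Finset.sum_eq_single ⟨C, x⟩]
  · simp only
    rw [if_pos trivial, P_mul_Pc hM hk]
  · rintro ⟨D, y⟩ hq hne
    obtain ⟨hq1, hq2⟩ := mem_sigma.1 hq
    simp only
    split_ifs with h
    · by_cases hD : C = D
      · subst hD
        have e : y = x := mv_inj82 hq2 h
        subst e
        exact absurd rfl hne
      · exact P_mul_Pc_ne hM hk hD y
    · exact mul_zero _
  · intro h'
    exact absurd (mem_sigma.2 ⟨hC, hx⟩) h'

theorem P_P_not {k : ℕ} (hM : N < M) (hk : k < N) {C B : Finset ℕ} (h : ¬ Ab C B) :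
    P N M k C * P N M (k + 1) B = 0 := by
  rw [P_succ, Finset.mul_sum]
  refine Finset.sum_eq_zero ?_
  rintro ⟨D, y⟩ hq
  obtain ⟨hq1, hq2⟩ := mem_sigma.1 hq
  simp only
  split_ifs with h'
  · by_cases hD : C = D
    · subst hD
      exact absurd ⟨y, hq2, h'⟩ h
    · exact P_mul_Pc_ne hM hk hD y
  · exact mul_zero _

/-- idempotents of different levels commute -/
theorem P_comm {j l : ℕ} (hM : N < M) (hjl : j ≤ l) (hl : l ≤ N) (C : Finset ℕ) {B : Finset ℕ}
    (hB : B ∈ Lv M l) : P N M j C * P N M l B = P N M l B * P N M j C :=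
  (((good (N := N) hM j (hjl.trans hl)).al C).mono hjl).comm fun σ hσ =>
    P_cent_k hM hl hB σ hσ

/-- idempotents of level `l` are central in level `l` -/
theorem P_comm_Al {l : ℕ} (hM : N < M) (hl : l ≤ N) {B : Finset ℕ} (hB : B ∈ Lv M l) {T : Mat N}
    (hT : Al l T) : T * P N M l B = P N M l B * T :=
  hT.comm fun σ hσ => P_cent_k hM hl hB σ hσ

/-! ## paths -/

section path

variable {k : ℕ}

theorem path_ne {C : Finset ℕ} {u y : ℕ} (hy : y ∈ ad (mv C u)) : y ≠ u := by
  rintro rfl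
  exact mv_not_mem (mem_ad.1 hy).1

theorem path_r {C : Finset ℕ} {u y : ℕ} (hy : y ∈ ad (mv C u)) : (y : ℝ) - u ≠ 0 := by
  rw [sub_ne_zero]
  exact_mod_cast path_ne hy

variable (hM : N < M) (hn : k + 1 < N) {C : Finset ℕ} (hC : C ∈ Lv M k) {u : ℕ} (hu : u ∈ ad C)
  {y : ℕ} (hy : y ∈ ad (mv C u))

include hM hn hC hu hy

theorem path_eig1 : X ((M : ℝ) - 1) (k + 1) * (Pc N M (k + 1) (mv C u) y * Pc N M k C u) =
    (y : ℝ) • (Pc N M (k + 1) (mv C u) y * Pc N M k C u) := by
  have hg1 := good (N := N) hM (k + 1) hn.le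
  rw [← mul_assoc, hg1.eig hn (mv_mem hC hu) hy, Matrix.smul_mul]

theorem path_comm : Pc N M (k + 1) (mv C u) y * Pc N M k C u =
    Pc N M k C u * Pc N M (k + 1) (mv C u) y :=
  (pc_comm hM hn (mv_mem hC hu) y ((good (N := N) hM k (by omega)).pc_al C u)).symm

theorem path_eig0 : X ((M : ℝ) - 1) k * (Pc N M (k + 1) (mv C u) y * Pc N M k C u) =
    (u : ℝ) • (Pc N M (k + 1) (mv C u) y * Pc N M k C u) := by
  have hg0 := good (N := N) hM k (by omega)
  rw [path_comm hM hn hC hu hy, ← mul_assoc, hg0.eig (by omega) hC hu, Matrix.smul_mul]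

/-- the component of the swapped path -/
theorem V_cases :
    let R : Mat N := Pc N M (k + 1) (mv C u) y * Pc N M k C u
    let V : Mat N := U (s k hn) * R - ((y : ℝ) - u)⁻¹ • R
    (y ∈ ad C ∧ P N M (k + 1) (mv C y) * V = V ∧ P N M k C * V = V) ∨ (y ∉ ad C ∧ V = 0) := by
  intro R V
  have hk : k < N := by omega
  have hg0 := good (N := N) hM k hk.le
  have hg1 := good (N := N) hM (k + 1) hn.le
  have hr := path_r hy
  set r : ℝ := (y : ℝ) - u with hrdef
  set s' : Mat N := U (s k hn) with hs'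
  have f1 := path_eig1 hM hn hC hu hy
  have f2 := path_eig0 hM hn hC hu hy
  have f4 : X ((M : ℝ) - 1) k * V = (y : ℝ) • V := by
    have e1 : X ((M : ℝ) - 1) k * (s' * R) = (y : ℝ) • (s' * R) - R := by
      have e0 := s_X (N := N) ((M : ℝ) - 1) hn
      rw [← hs'] at e0
      have e3 : X ((M : ℝ) - 1) k * s' = s' * X ((M : ℝ) - 1) (k + 1) - 1 := by
        rw [e0]; abel
      rw [← mul_assoc, e3, sub_mul, one_mul, mul_assoc, f1, Matrix.mul_smul]
    have e4 : V = s' * R - r⁻¹ • R := rfl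
    rw [e4, mul_sub, e1, Matrix.mul_smul, f2, smul_sub, smul_smul, smul_smul]
    have e2 : r⁻¹ * (u : ℝ) = (y : ℝ) * r⁻¹ - 1 := by
      have hyr : (y : ℝ) = r + u := by rw [hrdef]; ring
      rw [hyr, add_mul, mul_inv_cancel₀ hr]
      ring
    rw [e2, sub_smul, one_smul]
    abel
  have f5 : P N M k C * V = V := by
    have e2 : P N M k C * R = R := by
      change P N M k C * (Pc N M (k + 1) (mv C u) y * Pc N M k C u) =
        Pc N M (k + 1) (mv C u) y * Pc N M k C u
      rw [path_comm hM hn hC hu hy, ← mul_assoc, P_mul_Pc hM hk]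
    have e3 : P N M k C * s' = s' * P N M k C := s_commA hn (hg0.al C)
    have e4 : V = s' * R - r⁻¹ • R := rfl
    rw [e4, mul_sub, Matrix.mul_smul, e2, ← mul_assoc, e3, mul_assoc, e2]
  rcases pc_fix hM hk hC f4 f5 with ⟨hyC, h1⟩ | ⟨hyC, h0⟩
  · left
    refine ⟨hyC, ?_, f5⟩
    rw [← h1, ← mul_assoc, P_Pc hM hk hC hyC]
  · right
    exact ⟨hyC, h0⟩

theorem s_V :
    let R : Mat N := Pc N M (k + 1) (mv C u) y * Pc N M k C u
    let V : Mat N := U (s k hn) * R - ((y : ℝ) - u)⁻¹ • R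
    U (s k hn) * V = (1 - (((y : ℝ) - u)⁻¹) ^ 2) • R - ((y : ℝ) - u)⁻¹ • V := by
  intro R V
  set r : ℝ := ((y : ℝ) - u)⁻¹ with hrdef
  have hss : U (s k hn) * U (s k hn) = (1 : Mat N) := U_s_sq k hn
  have e4 : V = U (s k hn) * R - r • R := rfl
  have e5 : U (s k hn) * R = r • R + V := by rw [e4]; abel
  have e1 : U (s k hn) * V = R - r • (U (s k hn) * R) := by
    rw [e4, mul_sub, Matrix.mul_smul, ← mul_assoc, hss, one_mul]
  rw [e1, e5, smul_add, smul_smul, sub_smul, one_smul, sq]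
  abel

end path

/-! ## counting beads -/

theorem count_mv {C : Finset ℕ} {x : ℕ} (hx : x ∈ ad C) (j : ℕ) :
    ((mv C x).filter fun b => j ≤ b).card =
      (C.filter fun b => j ≤ b).card + if j = x + 1 then 1 else 0 := by
  obtain ⟨h1, h2⟩ := mem_ad.1 hx
  have n1 : x + 1 ∉ C.erase x := fun h => h2 (mem_of_mem_erase h)
  have n2 : x ∉ C.erase x := by simp
  have e1 : C = insert x (C.erase x) := (insert_erase h1).symm
  have e2 : ∀ D : Finset ℕ, ∀ z, z ∉ D → ((insert z D).filter fun b => j ≤ b).card =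
      (D.filter fun b => j ≤ b).card + if j ≤ z then 1 else 0 := by
    intro D z hz
    rw [filter_insert]
    split_ifs with h
    · rw [card_insert_of_notMem fun h' => hz (mem_filter.1 h').1]
    · rw [add_zero]
  have e3 : ((mv C x).filter fun b => j ≤ b).card =
      ((C.erase x).filter fun b => j ≤ b).card + if j ≤ x + 1 then 1 else 0 := by
    unfold mv
    exact e2 _ _ n1
  have e4 : (C.filter fun b => j ≤ b).card =
      ((C.erase x).filter fun b => j ≤ b).card + if j ≤ x then 1 else 0 := by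
    have := e2 _ _ n2
    rwa [← e1] at this
  rw [e3, e4]
  by_cases a : j ≤ x
  · rw [if_pos a, if_pos (by omega), if_neg (by omega)]
  · rw [if_neg a]
    by_cases b : j = x + 1
    · rw [if_pos b, if_pos (by omega)]
    · rw [if_neg b, if_neg (by omega)]

/-- two different paths of length two between the same shapes -/
theorem two_paths {C : Finset ℕ} {u y v z : ℕ} (hu : u ∈ ad C) (hy : y ∈ ad (mv C u))
    (hv : v ∈ ad C) (hz : z ∈ ad (mv C v)) (h : mv (mv C u) y = mv (mv C v) z) (hne : u ≠ v) :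
    v = y ∧ z = u := by
  have e : ∀ j, (if j = u + 1 then 1 else 0) + (if j = y + 1 then 1 else 0) =
      (if j = v + 1 then 1 else 0) + if j = z + 1 then 1 else 0 := by
    intro j
    have e1 := count_mv hy j
    rw [count_mv hu j, h, count_mv hz j, count_mv hv j] at e1
    omega
  have e1 := e (v + 1)
  have e2 := e (u + 1)
  rw [if_neg (by omega), if_pos rfl] at e1
  rw [if_pos rfl, if_neg (show ¬ u + 1 = v + 1 by omega)] at e2
  constructor
  · by_contra hvy
    rw [if_neg (by omega)] at e1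
    omega
  · by_contra hzu
    rw [if_neg (show ¬ u + 1 = z + 1 by omega)] at e2
    omega

theorem ad_swap {C : Finset ℕ} {u y : ℕ} (hu : u ∈ ad C) (hy : y ∈ ad C) (hne : u ≠ y) :
    u ∈ ad (mv C y) := by
  obtain ⟨u1, u2⟩ := mem_ad.1 hu
  obtain ⟨y1, y2⟩ := mem_ad.1 hy
  rw [mem_ad]
  simp only [mv, mem_insert, mem_erase]
  refine ⟨Or.inr ⟨hne, u1⟩, ?_⟩
  rintro (h | ⟨-, h⟩)
  · omega
  · exact u2 h

/-! ## coefficients -/

/-- inverse axial distance of the chain `K < A < L` (zero if it is not a chain) -/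
noncomputable def ri (K A L : Finset ℕ) : ℝ :=
  ∑ u ∈ ad K, ∑ y ∈ ad A, if mv K u = A ∧ mv A y = L then ((y : ℝ) - u)⁻¹ else 0

theorem ri_chain {C : Finset ℕ} {u y : ℕ} (hu : u ∈ ad C) (hy : y ∈ ad (mv C u)) :
    ri C (mv C u) (mv (mv C u) y) = ((y : ℝ) - u)⁻¹ := by
  unfold ri
  rw [Finset.sum_eq_single u, Finset.sum_eq_single y]
  · rw [if_pos ⟨rfl, rfl⟩]
  · intro z hz hne
    rw [if_neg]
    rintro ⟨-, h⟩
    exact hne (mv_inj82 hz h)
  · intro h
    exact absurd hy h
  · intro z hz hne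
    refine Finset.sum_eq_zero fun z' _ => ?_
    rw [if_neg]
    rintro ⟨h, -⟩
    exact hne (mv_inj82 hz h)
  · intro h
    exact absurd hu h

theorem ri_not {K A L : Finset ℕ} (h : ¬ (Ab K A ∧ Ab A L)) : ri K A L = 0 := by
  unfold ri
  refine Finset.sum_eq_zero fun u hu => Finset.sum_eq_zero fun y hy => ?_
  rw [if_neg]
  rintro ⟨h1, h2⟩
  exact h ⟨⟨u, hu, h1⟩, ⟨y, hy, h2⟩⟩

/-- `w` in terms of the two shapes -/
noncomputable def wt (C B : Finset ℕ) : ℝ := ∑ x ∈ ad C, if mv C x = B then w C x else 0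

theorem wt_mv {C : Finset ℕ} {x : ℕ} (hx : x ∈ ad C) : wt C (mv C x) = w C x := by
  unfold wt
  rw [Finset.sum_eq_single x]
  · rw [if_pos rfl]
  · intro z hz hne
    rw [if_neg fun h => hne (mv_inj82 hz h)]
  · intro h
    exact absurd hx h

theorem wt_not {C B : Finset ℕ} (h : ¬ Ab C B) : wt C B = 0 := by
  unfold wt
  refine Finset.sum_eq_zero fun x hx => ?_
  rw [if_neg fun h' => h ⟨x, hx, h'⟩]

open Classical in
/-- coefficient of `P_A s P_A' s P_A` on the chain `K < A < L` -/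
noncomputable def Oc (K A L A' : Finset ℕ) : ℝ :=
  if A' = A then (ri K A L) ^ 2 else if Ab K A' ∧ Ab A' L then 1 - (ri K A L) ^ 2 else 0

/-- inverse distance of the two boxes of `L` outside `A`, `B` -/
noncomputable def rr (A B L : Finset ℕ) : ℝ :=
  ∑ v ∈ ad B, ∑ x ∈ ad A, if mv B v = L ∧ mv A x = L then ((v : ℝ) - x)⁻¹ else 0

theorem rr_eq {A B : Finset ℕ} {v x : ℕ} (hv : v ∈ ad B) (hx : x ∈ ad A) (h : mv A x = mv B v) :
    rr A B (mv B v) = ((v : ℝ) - x)⁻¹ := by
  unfold rr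
  rw [Finset.sum_eq_single v, Finset.sum_eq_single x]
  · rw [if_pos ⟨rfl, h⟩]
  · intro z hz hne
    rw [if_neg]
    rintro ⟨-, h'⟩
    exact hne (mv_inj82 hz (h'.trans h.symm))
  · intro h
    exact absurd hx h
  · intro z hz hne
    refine Finset.sum_eq_zero fun z' _ => ?_
    rw [if_neg]
    rintro ⟨h, -⟩
    exact hne (mv_inj82 hz h)
  · intro h
    exact absurd hv h

theorem rr_not {A B L : Finset ℕ} (h : ¬ (Ab A L ∧ Ab B L)) : rr A B L = 0 := by
  unfold rr
  refine Finset.sum_eq_zero fun v hv => Finset.sum_eq_zero fun x hx => ?_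
  rw [if_neg]
  rintro ⟨h1, h2⟩
  exact h ⟨⟨x, hx, h2⟩, ⟨v, hv, h1⟩⟩

/-- coefficient of `P_A s P_C s P_B`, `A ≠ B`, in `L` -/
noncomputable def ec (A B L C : Finset ℕ) : ℝ :=
  rr A B L * ((if C = B then 1 else 0) - if C = A then 1 else 0)

/-! ## the relations -/

section rel

variable {k : ℕ}

/-- the projection of a chain -/
noncomputable def Ch (N M k : ℕ) (K A L : Finset ℕ) : Mat N :=
  P N M (k + 2) L * P N M (k + 1) A * P N M k K

theorem Ch_path (hM : N < M) (hn : k + 1 < N) {C : Finset ℕ} (hC : C ∈ Lv M k) {u : ℕ}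
    (hu : u ∈ ad C) {y : ℕ} (hy : y ∈ ad (mv C u)) :
    Ch N M k C (mv C u) (mv (mv C u) y) = Pc N M (k + 1) (mv C u) y * Pc N M k C u := by
  have hA := mv_mem hC hu
  have hL : mv (mv C u) y ∈ Lv M (k + 2) := mv_mem hA hy
  unfold Ch
  calc P N M (k + 2) (mv (mv C u) y) * P N M (k + 1) (mv C u) * P N M k C =
      Pc N M (k + 1) (mv C u) y * P N M k C := by
        rw [← P_comm hM (by omega) (by omega) _ hL, P_P hM hn hA hy]
    _ = Pc N M (k + 1) (mv C u) y * P N M (k + 1) (mv C u) * P N M k C := by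
        rw [Pc_mul_P hM hn]
    _ = Pc N M (k + 1) (mv C u) y * P N M (k + 1) (mv C u) * Pc N M k C u := by
        rw [mul_assoc, ← P_comm hM (by omega) (by omega) _ hA, P_P hM (by omega) hC hu,
          mul_assoc, ← P_P hM (by omega) hC hu, P_comm hM (by omega) (by omega) _ hA,
          ← mul_assoc (P N M (k + 1) (mv C u)), (good (N := N) hM (k + 1) hn.le).idem]
    _ = _ := by rw [Pc_mul_P hM hn]

theorem Ch_not (hM : N < M) (hn : k + 1 < N) {K A L : Finset ℕ} (hA : A ∈ Lv M (k + 1))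
    (hL : L ∈ Lv M (k + 2)) (h : ¬ (Ab K A ∧ Ab A L)) : Ch N M k K A L = 0 := by
  unfold Ch
  by_cases h1 : Ab A L
  · have h2 : ¬ Ab K A := fun h' => h ⟨h', h1⟩
    rw [mul_assoc, ← P_comm hM (by omega) (by omega) _ hA, P_P_not hM (by omega) h2, mul_zero]
  · rw [← P_comm hM (by omega) (by omega) _ hL, P_P_not hM hn h1, zero_mul]

/-- `P_A s` on a chain through `A` -/
theorem PsCh_same (hM : N < M) (hn : k + 1 < N) {K A L : Finset ℕ} (hK : K ∈ Lv M k)
    (hA : A ∈ Lv M (k + 1)) (hL : L ∈ Lv M (k + 2)) :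
    P N M (k + 1) A * (U (s k hn) * Ch N M k K A L) = ri K A L • Ch N M k K A L := by
  have hg1 := good (N := N) hM (k + 1) hn.le
  by_cases h : Ab K A ∧ Ab A L
  · obtain ⟨⟨u, hu, rfl⟩, ⟨y, hy, rfl⟩⟩ := h
    rw [Ch_path hM hn hK hu hy, ri_chain hu hy]
    have h1 := V_cases hM hn hK hu hy
    simp only at h1
    set R : Mat N := Pc N M (k + 1) (mv K u) y * Pc N M k K u with hR
    set V : Mat N := U (s k hn) * R - ((y : ℝ) - u)⁻¹ • R with hV
    have e1 : U (s k hn) * R = ((y : ℝ) - u)⁻¹ • R + V := by rw [hV]; abel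
    have e2 : P N M (k + 1) (mv K u) * V = 0 := by
      rcases h1 with ⟨hyK, h1, -⟩ | ⟨-, h0⟩
      · rw [← h1, ← mul_assoc, hg1.orth, zero_mul]
        intro h'
        exact path_ne hy (mv_inj82 hu h').symm
      · rw [h0, mul_zero]
    rw [e1, mul_add, e2, add_zero, Matrix.mul_smul, hR, ← mul_assoc, P_mul_Pc hM hn]
  · rw [Ch_not hM hn hA hL h, mul_zero, mul_zero, smul_zero]

/-- `P_A s P_A' s P_A` on a chain through `A` -/
theorem PsPsCh_same (hM : N < M) (hn : k + 1 < N) {K A L A' : Finset ℕ} (hK : K ∈ Lv M k)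
    (hA : A ∈ Lv M (k + 1)) (hL : L ∈ Lv M (k + 2)) :
    P N M (k + 1) A * (U (s k hn) * (P N M (k + 1) A' * (U (s k hn) * Ch N M k K A L))) =
      Oc K A L A' • Ch N M k K A L := by
  have hg1 := good (N := N) hM (k + 1) hn.le
  unfold Oc
  by_cases hAA : A' = A
  · subst hAA
    rw [if_pos rfl, PsCh_same hM hn hK hA hL, Matrix.mul_smul, Matrix.mul_smul,
      PsCh_same hM hn hK hA hL, smul_smul, sq]
  rw [if_neg hAA]
  by_cases h : Ab K A ∧ Ab A L
  · obtain ⟨⟨u, hu, rfl⟩, ⟨y, hy, rfl⟩⟩ := h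
    rw [Ch_path hM hn hK hu hy, ri_chain hu hy]
    have h1 := V_cases hM hn hK hu hy
    have h2 := s_V hM hn hK hu hy
    simp only at h1 h2
    set R : Mat N := Pc N M (k + 1) (mv K u) y * Pc N M k K u with hR
    set V : Mat N := U (s k hn) * R - ((y : ℝ) - u)⁻¹ • R with hV
    have e1 : U (s k hn) * R = ((y : ℝ) - u)⁻¹ • R + V := by rw [hV]; abel
    have e2 : P N M (k + 1) (mv K u) * V = 0 := by
      rcases h1 with ⟨hyK, h1, -⟩ | ⟨-, h0⟩
      · rw [← h1, ← mul_assoc, hg1.orth, zero_mul]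
        intro h'
        exact path_ne hy (mv_inj82 hu h').symm
      · rw [h0, mul_zero]
    have e3 : P N M (k + 1) (mv K u) * R = R := by
      rw [hR, ← mul_assoc, P_mul_Pc hM hn]
    have e4 : P N M (k + 1) A' * R = 0 := by
      rw [hR, ← mul_assoc, P_mul_Pc_ne hM hn hAA, zero_mul]
    rw [e1, mul_add, Matrix.mul_smul, e4, smul_zero, zero_add]
    by_cases hc : Ab K A' ∧ Ab A' (mv (mv K u) y)
    · rw [if_pos hc]
      obtain ⟨⟨v, hv, rfl⟩, ⟨z, hz, hz'⟩⟩ := hc
      have hne : u ≠ v := by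
        rintro rfl
        exact hAA rfl
      obtain ⟨rfl, rfl⟩ := two_paths hu hy hv hz hz'.symm hne
      rcases h1 with ⟨-, h1, -⟩ | ⟨h0, -⟩
      · rw [h1, h2, mul_sub, Matrix.mul_smul, Matrix.mul_smul, e2, e3, smul_zero, sub_zero]
      · exact absurd hv h0
    · rw [if_neg hc, zero_smul]
      rcases h1 with ⟨hyK, h1, -⟩ | ⟨-, h0⟩
      · have : A' ≠ mv K y := by
          rintro rfl
          refine hc ⟨⟨y, hyK, rfl⟩, u, ad_swap hu hyK (Ne.symm (path_ne hy)), ?_⟩
          exact (mv_swap hu hyK).symm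
        have h3 : P N M (k + 1) A' * V = 0 := by
          rw [← h1, ← mul_assoc, hg1.orth _ _ this, zero_mul]
        rw [h3, mul_zero, mul_zero]
      · rw [h0, mul_zero, mul_zero, mul_zero]
  · rw [Ch_not hM hn hA hL h]
    simp only [mul_zero, smul_zero]

/-- `P_A s P_C s` on a chain through `B ≠ A` -/
theorem PsPsCh_ne (hM : N < M) (hn : k + 1 < N) {K A B L C : Finset ℕ} (hAB : A ≠ B)
    (hK : K ∈ Lv M k) (hB : B ∈ Lv M (k + 1)) (hL : L ∈ Lv M (k + 2)) :
    P N M (k + 1) A * (U (s k hn) * (P N M (k + 1) C * (U (s k hn) * Ch N M k K B L))) =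
      ec A B L C • (P N M (k + 1) A * (U (s k hn) * Ch N M k K B L)) := by
  have hg1 := good (N := N) hM (k + 1) hn.le
  unfold ec
  by_cases h : Ab K B ∧ Ab B L
  · obtain ⟨⟨u, hu, rfl⟩, ⟨y, hy, rfl⟩⟩ := h
    rw [Ch_path hM hn hK hu hy]
    have h1 := V_cases hM hn hK hu hy
    have h2 := s_V hM hn hK hu hy
    simp only at h1 h2
    set R : Mat N := Pc N M (k + 1) (mv K u) y * Pc N M k K u with hR
    set V : Mat N := U (s k hn) * R - ((y : ℝ) - u)⁻¹ • R with hV
    have e1 : U (s k hn) * R = ((y : ℝ) - u)⁻¹ • R + V := by rw [hV]; abel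
    have e2 : P N M (k + 1) (mv K u) * V = 0 := by
      rcases h1 with ⟨hyK, h1, -⟩ | ⟨-, h0⟩
      · rw [← h1, ← mul_assoc, hg1.orth, zero_mul]
        intro h'
        exact path_ne hy (mv_inj82 hu h').symm
      · rw [h0, mul_zero]
    have e3 : P N M (k + 1) (mv K u) * R = R := by
      rw [hR, ← mul_assoc, P_mul_Pc hM hn]
    have e4 : P N M (k + 1) A * R = 0 := by
      rw [hR, ← mul_assoc, P_mul_Pc_ne hM hn hAB, zero_mul]
    have e5 : P N M (k + 1) A * (U (s k hn) * R) = P N M (k + 1) A * V := by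
      rw [e1, mul_add, Matrix.mul_smul, e4, smul_zero, zero_add]
    have e6 : P N M (k + 1) A * (U (s k hn) * V) =
        -(((y : ℝ) - u)⁻¹ • (P N M (k + 1) A * V)) := by
      rw [h2, mul_sub, Matrix.mul_smul, Matrix.mul_smul, e4, smul_zero, zero_sub]
    rw [e5]
    -- the swapped path
    by_cases hA : y ∈ ad K ∧ A = mv K y
    · obtain ⟨hyK, rfl⟩ := hA
      have hV1 : P N M (k + 1) (mv K y) * V = V := by
        rcases h1 with ⟨-, h1, -⟩ | ⟨h0, -⟩
        · exact h1
        · exact absurd hyK h0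
      have hrr : rr (mv K y) (mv K u) (mv (mv K u) y) = ((y : ℝ) - u)⁻¹ :=
        rr_eq hy (ad_swap hu hyK (Ne.symm (path_ne hy))) (mv_swap hu hyK).symm
      rw [hrr]
      by_cases hCB : C = mv K u
      · subst hCB
        rw [if_pos rfl, if_neg (Ne.symm hAB), e1, mul_add, e2, Matrix.mul_smul, e3, add_zero,
          Matrix.mul_smul, Matrix.mul_smul, e5]
        congr 1
        ring
      · rw [if_neg hCB]
        have e7 : P N M (k + 1) C * (U (s k hn) * R) = P N M (k + 1) C * V := by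
          rw [e1, mul_add, Matrix.mul_smul, hR, ← mul_assoc, P_mul_Pc_ne hM hn hCB, zero_mul,
            smul_zero, zero_add]
        rw [e7]
        by_cases hCA : C = mv K y
        · subst hCA
          rw [if_pos rfl, hV1, e6, hV1]
          rw [← neg_smul]
          congr 1
          ring
        · rw [if_neg hCA]
          have : P N M (k + 1) C * V = 0 := by
            rw [← hV1, ← mul_assoc, hg1.orth _ _ hCA, zero_mul]
          rw [this, mul_zero, mul_zero, sub_self, mul_zero, zero_smul]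
    · have hV1 : P N M (k + 1) A * V = 0 := by
        rcases h1 with ⟨hyK, h1, -⟩ | ⟨-, h0⟩
        · rw [← h1, ← mul_assoc, hg1.orth, zero_mul]
          intro h'
          exact hA ⟨hyK, h'⟩
        · rw [h0, mul_zero]
      rw [hV1, smul_zero]
      by_cases hCB : C = mv K u
      · subst hCB
        rw [e1, mul_add, e2, Matrix.mul_smul, e3, add_zero, Matrix.mul_smul, Matrix.mul_smul, e5,
          hV1, smul_zero]
      · have e7 : P N M (k + 1) C * (U (s k hn) * R) = P N M (k + 1) C * V := by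
          rw [e1, mul_add, Matrix.mul_smul, hR, ← mul_assoc, P_mul_Pc_ne hM hn hCB, zero_mul,
            smul_zero, zero_add]
        rw [e7]
        rcases h1 with ⟨hyK, h1, -⟩ | ⟨-, h0⟩
        · by_cases hCy : C = mv K y
          · subst hCy
            rw [h1, e6, hV1, smul_zero, neg_zero]
          · have : P N M (k + 1) C * V = 0 := by
              rw [← h1, ← mul_assoc, hg1.orth _ _ hCy, zero_mul]
            rw [this, mul_zero, mul_zero]
        · rw [h0, mul_zero, mul_zero, mul_zero]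
  · rw [Ch_not hM hn hB hL h]
    simp only [mul_zero, smul_zero]

open Classical in
/-- `P_A s P_B P_L` does not depend on the common cover `L` -/
theorem PsPP (hM : N < M) (hn : k + 1 < N) {A B L : Finset ℕ} (hAB : A ≠ B)
    (hL : L ∈ Lv M (k + 2)) :
    P N M (k + 1) A * (U (s k hn) * (P N M (k + 2) L * P N M (k + 1) B)) =
      if Ab A L ∧ Ab B L then P N M (k + 1) A * (U (s k hn) * P N M (k + 1) B) else 0 := by
  have hg2 := good (N := N) hM (k + 2) (by omega)
  have hz : ∀ L' ∈ Lv M (k + 2), ¬ (Ab A L' ∧ Ab B L') →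
      P N M (k + 1) A * (U (s k hn) * (P N M (k + 2) L' * P N M (k + 1) B)) = 0 := by
    intro L' hL' h
    by_cases h1 : Ab B L'
    · have h2 : ¬ Ab A L' := fun h' => h ⟨h', h1⟩
      have e : U (s k hn) * P N M (k + 2) L' = P N M (k + 2) L' * U (s k hn) :=
        P_cent_k hM (by omega) hL' _ (s_Sn k hn)
      rw [← mul_assoc (U (s k hn)), e, mul_assoc (P N M (k + 2) L'), ← mul_assoc,
        P_P_not hM hn h2, zero_mul]
    · rw [← P_comm hM (by omega) (by omega) _ hL', P_P_not hM hn h1, mul_zero, mul_zero]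
  by_cases h : Ab A L ∧ Ab B L
  · rw [if_pos h]
    have e1 : P N M (k + 1) A * (U (s k hn) * P N M (k + 1) B) =
        ∑ L' ∈ Lv M (k + 2),
          P N M (k + 1) A * (U (s k hn) * (P N M (k + 2) L' * P N M (k + 1) B)) := by
      rw [← Finset.mul_sum, ← Finset.mul_sum, ← Finset.sum_mul, hg2.tot, one_mul]
    rw [e1, Finset.sum_eq_single L]
    · intro L' hL' hne
      refine hz L' hL' ?_
      rintro ⟨⟨y', hy', h1⟩, ⟨x', hx', h2⟩⟩
      obtain ⟨⟨y, hy, h3⟩, ⟨x, hx, h4⟩⟩ := h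
      have := cover_unique hAB hy hx (h3.trans h4.symm) hy' hx' (h1.trans h2.symm)
      subst this
      exact hne (h1.symm.trans h3)
    · intro h'
      exact absurd hL h'
  · rw [if_neg h]
    exact hz L hL h

end rel

end Pool.JM
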