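import Pool.Agent.Work.MP_46fa68_62.Mark0

/-! # The full marked kernel in bead form, and its restriction maps (definitions) -/

set_option autoImplicit false

open Finset Equiv

namespace Pool.JM

/-- full marked kernel on `S_(k+1)`, marked point `k` -/
noncomputable def KK (N M k : ℕ) (b : Finset ℕ → ℕ → ℕ → ℝ) (d : Finset ℕ → Finset ℕ → ℝ) :
    Mat N :=
  (∑ C ∈ Lv M k, ∑ x ∈ ad C, ∑ y ∈ ad C, b C x y • (Pc N M k C x * Dg N k * Pc N M k C y)) +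
  (∑ C ∈ Lv M k, ∑ C' ∈ (Lv M k).erase C, d C C' • (P N M k C * rv (P N M k C'))) *
    Dg N (k + 1)

/-- restricted rank one coefficients (common cell off the row and the column of the mark) -/
noncomputable def rB (b : Finset ℕ → ℕ → ℕ → ℝ) (d : Finset ℕ → Finset ℕ → ℝ)
    (C : Finset ℕ) (x y : ℕ) : ℝ :=
  if x = y then
    (∑ v ∈ (ad C).erase x, w C v * b (mv C v) x x) +
    (w C x)⁻¹ * ((∑ z ∈ ad (mv C x), ∑ z' ∈ ad (mv C x), w (mv C x) z * w (mv C x) z' *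
        ((((z : ℝ) - x)⁻¹) ^ 2 * (((z' : ℝ) - x)⁻¹) ^ 2) * b (mv C x) z z') +
      ∑ z ∈ (ad C).erase x, w (mv C x) z *
        ((((z : ℝ) - x)⁻¹) ^ 2 * (1 - (((z : ℝ) - x)⁻¹) ^ 2)) *
          (d (mv C x) (mv C z) + d (mv C z) (mv C x)))
  else
    (∑ v ∈ ((ad C).erase x).erase y, w C v * b (mv C v) x y) +
    (∑ z ∈ ad (mv C x), w (mv C x) z * (((z : ℝ) - x)⁻¹) ^ 2 * b (mv C x) z y) +
    (∑ z ∈ ad (mv C y), w (mv C y) z * (((z : ℝ) - y)⁻¹) ^ 2 * b (mv C y) x z) -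
    (((x : ℝ) - y)⁻¹) ^ 2 * (d (mv C x) (mv C y) + d (mv C y) (mv C x))

/-- the value of the restricted block coefficient on the cover `A = mv K u = mv K' v` -/
noncomputable def rDA (b : Finset ℕ → ℕ → ℕ → ℝ) (d : Finset ℕ → Finset ℕ → ℝ)
    (A K K' : Finset ℕ) (u v : ℕ) : ℝ :=
  (∑ x ∈ ad A, ∑ y ∈ ad A, w A x * w A y *
    (((x : ℝ) - u)⁻¹ * ((x : ℝ) - v)⁻¹ * (((y : ℝ) - u)⁻¹ * ((y : ℝ) - v)⁻¹)) * b A x y) +
  ∑ x ∈ ad A, w A x *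
    ((((x : ℝ) - u)⁻¹) ^ 2 * (1 - (((x : ℝ) - v)⁻¹) ^ 2) * d A (mv K' x) +
      (1 - (((x : ℝ) - u)⁻¹) ^ 2) * (((x : ℝ) - v)⁻¹) ^ 2 * d (mv K x) A +
      (1 - (((x : ℝ) - u)⁻¹) ^ 2) * (1 - (((x : ℝ) - v)⁻¹) ^ 2) * d (mv K x) (mv K' x))

/-- restricted block coefficients -/
noncomputable def rD (b : Finset ℕ → ℕ → ℕ → ℝ) (d : Finset ℕ → Finset ℕ → ℝ)
    (K K' : Finset ℕ) : ℝ :=
  ∑ u ∈ ad K, ∑ v ∈ ad K', if mv K u = mv K' v then rDA b d (mv K u) K K' u v else 0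

/-- one-mark function of the pairs with a common value in the row of the mark:
`B = mv C u`; `rowF b d B C` -/
noncomputable def rowF (b : Finset ℕ → ℕ → ℕ → ℝ) (d : Finset ℕ → Finset ℕ → ℝ)
    (B C : Finset ℕ) : ℝ :=
  ∑ u ∈ ad C, if mv C u = B then
    (∑ x ∈ ad B, ∑ y ∈ ad B, w B x * w B y * (((x : ℝ) - u)⁻¹ * ((y : ℝ) - u)⁻¹) * b B x y) +
    ∑ y ∈ (ad C).erase u, w B y * (1 - (((y : ℝ) - u)⁻¹) ^ 2) * d (mv C y) B
  else 0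

/-- class function of the pairs through the marked cell -/
noncomputable def cellF (b : Finset ℕ → ℕ → ℕ → ℝ) (C : Finset ℕ) : ℝ :=
  ∑ x ∈ ad C, ∑ y ∈ ad C, w C x * w C y * b C x y

end Pool.JM
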