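import Pool.Agent.Work.MP_46fa68_82.GK
import Pool.Agent.Work.MP_46fa68_82.KKdef

/-! # The coefficients of the restricted kernel in bead form -/

set_option autoImplicit false

open Finset Equiv

namespace Pool.JM

variable {N M k : ℕ}

/-- sums over the covers of a shape -/
theorem sum_Ab {V : Type*} [AddCommMonoid V] {C : Finset ℕ} (hC : C ∈ Lv M k) (F : Finset ℕ → V)
    (h : ∀ B ∈ Lv M (k + 1), ¬ Ab C B → F B = 0) :
    ∑ B ∈ Lv M (k + 1), F B = ∑ x ∈ ad C, F (mv C x) := by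
  have h1 : ∑ x ∈ ad C, F (mv C x) = ∑ B ∈ (ad C).image (mv C), F B := by
    rw [Finset.sum_image]
    intro x hx y _ hxy
    exact mv_inj82 hx hxy
  rw [h1]
  symm
  refine Finset.sum_subset ?_ ?_
  · intro B hB
    obtain ⟨x, hx, rfl⟩ := Finset.mem_image.1 hB
    exact mv_mem hC hx
  · intro B hB hB'
    refine h B hB ?_
    rintro ⟨x, hx, rfl⟩
    exact hB' (Finset.mem_image_of_mem _ hx)

theorem sum_wt {C : Finset ℕ} (hC : C ∈ Lv M k) (f : Finset ℕ → ℝ) :
    ∑ L ∈ Lv M (k + 1), wt C L * f L = ∑ x ∈ ad C, w C x * f (mv C x) := by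
  rw [sum_Ab hC]
  · exact Finset.sum_congr rfl fun x hx => by rw [wt_mv hx]
  · intro B _ h
    rw [wt_not h, zero_mul]

/-- coefficients of the rank one pieces as a function of shapes -/
noncomputable def bb (b : Finset ℕ → ℕ → ℕ → ℝ) (C L L' : Finset ℕ) : ℝ :=
  ∑ x ∈ ad C, ∑ y ∈ ad C, if mv C x = L ∧ mv C y = L' then b C x y else 0

/-- coefficients of the block pieces -/
noncomputable def gd82 (d : Finset ℕ → Finset ℕ → ℝ) (_ C C' : Finset ℕ) : ℝ :=
  if C ≠ C' then d C C' else 0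

theorem bb_mv (b : Finset ℕ → ℕ → ℕ → ℝ) {C : Finset ℕ} {x y : ℕ} (hx : x ∈ ad C)
    (hy : y ∈ ad C) : bb b C (mv C x) (mv C y) = b C x y := by
  unfold bb
  rw [Finset.sum_eq_single x, Finset.sum_eq_single y]
  · rw [if_pos ⟨rfl, rfl⟩]
  · intro z hz hne
    rw [if_neg]
    rintro ⟨-, h⟩
    exact hne (mv_inj82 hz h)
  · intro h
    exact absurd hy h
  · intro z hz hne
    refine Finset.sum_eq_zero fun z' _ => ?_
    rw [if_neg]
    rintro ⟨h, -⟩
    exact hne (mv_inj82 hz h)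
  · intro h
    exact absurd hx h

theorem bb_not (b : Finset ℕ → ℕ → ℕ → ℝ) {C L L' : Finset ℕ} (h : ¬ (Ab C L ∧ Ab C L')) :
    bb b C L L' = 0 := by
  unfold bb
  refine Finset.sum_eq_zero fun x hx => Finset.sum_eq_zero fun y hy => ?_
  rw [if_neg]
  rintro ⟨h1, h2⟩
  exact h ⟨⟨x, hx, h1⟩, ⟨y, hy, h2⟩⟩

theorem sum_bb {V : Type*} [AddCommGroup V] [Module ℝ V] {C : Finset ℕ} (hC : C ∈ Lv M k)
    (b : Finset ℕ → ℕ → ℕ → ℝ) (F : Finset ℕ → Finset ℕ → V) :
    ∑ L ∈ Lv M (k + 1), ∑ L' ∈ Lv M (k + 1), bb b C L L' • F L L' =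
      ∑ x ∈ ad C, ∑ y ∈ ad C, b C x y • F (mv C x) (mv C y) := by
  rw [sum_Ab hC]
  · refine Finset.sum_congr rfl fun x hx => ?_
    rw [sum_Ab hC]
    · refine Finset.sum_congr rfl fun y hy => ?_
      rw [bb_mv b hx hy]
    · intro B _ h
      rw [bb_not b fun h' => h h'.2, zero_smul]
  · intro B _ h
    refine Finset.sum_eq_zero fun L' _ => ?_
    rw [bb_not b fun h' => h h'.1, zero_smul]

theorem sum_bb' {C : Finset ℕ} (hC : C ∈ Lv M k)
    (b : Finset ℕ → ℕ → ℕ → ℝ) (F : Finset ℕ → Finset ℕ → ℝ) :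
    ∑ L ∈ Lv M (k + 1), ∑ L' ∈ Lv M (k + 1), bb b C L L' * F L L' =
      ∑ x ∈ ad C, ∑ y ∈ ad C, b C x y * F (mv C x) (mv C y) := by
  have := sum_bb hC b F
  simpa only [smul_eq_mul] using this

/-- an addable bead different from the moved one stays addable -/
theorem ad_sub {K : Finset ℕ} {u z : ℕ} (hu : u ∈ ad K) (hz : z ∈ ad K) (hne : z ≠ u) :
    z ∈ ad (mv K u) := ad_swap hz hu hne

/-- a bead which is addable only after the move is adjacent to the moved one -/
theorem ad_new {K : Finset ℕ} {u z : ℕ} (hz : z ∈ ad (mv K u)) (hz' : z ∉ ad K) :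
    (((z : ℝ) - u)⁻¹) ^ 2 = 1 := by
  obtain ⟨z1, z2⟩ := mem_ad.1 hz
  simp only [mv, mem_insert, mem_erase] at z1 z2
  have h : z = u + 1 ∨ z + 1 = u := by
    rcases z1 with h | ⟨h1, h2⟩
    · exact Or.inl h
    · right
      by_contra hne
      apply hz'
      refine mem_ad.2 ⟨h2, fun h3 => z2 (Or.inr ⟨?_, h3⟩)⟩
      exact hne
  rcases h with h | h
  · have : (z : ℝ) - u = 1 := by rw [h]; push_cast; ring
    rw [this]; norm_num
  · have : (z : ℝ) - u = -1 := by
      have : (u : ℝ) = z + 1 := by rw [← h]; push_cast; ring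
      rw [this]; ring
    rw [this]; norm_num

/-- sums with the two step coefficient -/
theorem sum_Oc {K : Finset ℕ} (hK : K ∈ Lv M k) {u z : ℕ} (hu : u ∈ ad K)
    (hz : z ∈ ad (mv K u)) (F : Finset ℕ → ℝ) :
    ∑ A ∈ Lv M (k + 1), F A * Oc K (mv K u) (mv (mv K u) z) A =
      F (mv K u) * (((z : ℝ) - u)⁻¹) ^ 2 + F (mv K z) * (1 - (((z : ℝ) - u)⁻¹) ^ 2) := by
  have hne : z ≠ u := path_ne hz
  rw [sum_Ab hK]
  · have e1 : ∀ a ∈ ad K, F (mv K a) * Oc K (mv K u) (mv (mv K u) z) (mv K a) =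
        (if a = u then F (mv K u) * (((z : ℝ) - u)⁻¹) ^ 2 else 0) +
        (if a = z then F (mv K z) * (1 - (((z : ℝ) - u)⁻¹) ^ 2) else 0) := by
      intro a ha
      unfold Oc
      rw [ri_chain hu hz]
      by_cases h1 : a = u
      · subst h1
        rw [if_pos rfl, if_pos rfl, if_neg (Ne.symm hne), add_zero]
      · rw [if_neg fun h => h1 (mv_inj82 ha h), if_neg h1, zero_add]
        by_cases h2 : a = z
        · subst h2
          rw [if_pos rfl, if_pos]
          refine ⟨⟨a, ha, rfl⟩, ⟨u, ad_swap hu ha (Ne.symm h1), ?_⟩⟩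
          exact mv_swap ha hu
        · rw [if_neg h2, if_neg, mul_zero]
          rintro ⟨-, ⟨c, hc, hc'⟩⟩
          obtain ⟨h3, -⟩ := two_paths hu hz ha hc hc'.symm (Ne.symm h1)
          exact h2 h3
    rw [Finset.sum_congr rfl e1, Finset.sum_add_distrib, Finset.sum_ite_eq', if_pos hu,
      Finset.sum_ite_eq']
    by_cases h : z ∈ ad K
    · rw [if_pos h]
    · rw [if_neg h, ad_new hz h]
      ring
  · intro B _ h
    unfold Oc
    rw [if_neg, if_neg, mul_zero]
    · rintro ⟨h1, -⟩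
      exact h h1
    · rintro rfl
      exact h ⟨u, hu, rfl⟩

/-- the covers -/
theorem cv_eq {K : Finset ℕ} {x y z : ℕ} (hx : x ∈ ad K) (hy : y ∈ ad K) (hxy : x ≠ y)
    (hz : z ∈ ad (mv K x)) : cv (mv K y) (mv K x) (mv (mv K x) z) = if z = y then 1 else 0 := by
  unfold cv
  by_cases h : z = y
  · subst h
    rw [if_pos rfl, if_pos]
    refine ⟨fun h => hxy (mv_inj82 hx h.symm), ⟨x, ad_swap hx hy hxy, ?_⟩, ⟨z, hz, rfl⟩⟩
    exact mv_swap hy hx
  · rw [if_neg h, if_neg]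
    rintro ⟨-, ⟨c, hc, hc'⟩, -⟩
    obtain ⟨h3, -⟩ := two_paths hx hz hy hc hc'.symm hxy
    exact h h3.symm

theorem cv_self (B L : Finset ℕ) : cv B B L = 0 := by
  unfold cv
  rw [if_neg]
  rintro ⟨h, -⟩
  exact h rfl

theorem rr_swap {K : Finset ℕ} {x y : ℕ} (hx : x ∈ ad K) (hy : y ∈ ad K) (hxy : x ≠ y) :
    rr (mv K x) (mv K y) (mv (mv K y) x) = ((x : ℝ) - y)⁻¹ :=
  rr_eq (ad_swap hx hy hxy) (ad_swap hy hx (Ne.symm hxy)) (mv_swap hx hy)

/-- sum over the common covers with the squared distance -/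
theorem sum_rr {K : Finset ℕ} (hK : K ∈ Lv M k) {x y : ℕ} (hx : x ∈ ad K) (hy : y ∈ ad K)
    (hxy : x ≠ y) : ∑ L ∈ Lv M (k + 2), rr (mv K x) (mv K y) L ^ 2 = (((x : ℝ) - y)⁻¹) ^ 2 := by
  have hB := mv_mem hK hy
  rw [sum_Ab hB, Finset.sum_eq_single x]
  · rw [rr_swap hx hy hxy]
  · intro z hz hne
    rw [rr_not, zero_pow two_ne_zero]
    rintro ⟨⟨c, hc, hc'⟩, -⟩
    obtain ⟨h3, -⟩ := two_paths hy hz hx hc hc'.symm (Ne.symm hxy)
    exact hne h3.symm
  · intro h
    exact absurd (ad_swap hx hy hxy) h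
  · intro B _ h
    rw [rr_not, zero_pow two_ne_zero]
    rintro ⟨-, h1⟩
    exact h h1

/-- first term of the restricted rank one coefficient -/
theorem rb_one {K : Finset ℕ} (hK : K ∈ Lv M k) {x y : ℕ} (hx : x ∈ ad K) (hy : y ∈ ad K)
    (hxy : x ≠ y) (d : Finset ℕ → Finset ℕ → ℝ) :
    ∑ L ∈ Lv M (k + 2), ∑ A ∈ Lv M (k + 1), ∑ A' ∈ Lv M (k + 1),
      gd82 d L A A' * (eo (mv K x) (mv K y) L A * eo (mv K x) (mv K y) L A') =
    - ((((x : ℝ) - y)⁻¹) ^ 2 * (d (mv K x) (mv K y) + d (mv K y) (mv K x))) := by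
  set B := mv K x with hB
  set C := mv K y with hC
  have hBC : B ≠ C := fun h => hxy (mv_inj82 hx h)
  have hBm : B ∈ Lv M (k + 1) := mv_mem hK hx
  have hCm : C ∈ Lv M (k + 1) := mv_mem hK hy
  have e0 : ∀ L A : Finset ℕ, eo B C L A = (if A = C then rr B C L else 0) -
      (if A = B then rr B C L else 0) := by
    intro L A
    unfold eo ec
    rw [if_pos hBC, mul_sub]
    congr 1
    · split_ifs <;> ring
    · split_ifs <;> ring
  have e1 : ∀ L ∈ Lv M (k + 2), ∑ A ∈ Lv M (k + 1), ∑ A' ∈ Lv M (k + 1),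
      gd82 d L A A' * (eo B C L A * eo B C L A') = - (d B C + d C B) * rr B C L ^ 2 := by
    intro L _
    have e2 : ∀ A ∈ Lv M (k + 1), ∑ A' ∈ Lv M (k + 1), gd82 d L A A' * (eo B C L A * eo B C L A') =
        eo B C L A * (gd82 d L A C * rr B C L - gd82 d L A B * rr B C L) := by
      intro A _
      have e3 : ∀ A' ∈ Lv M (k + 1), gd82 d L A A' * (eo B C L A * eo B C L A') =
          (if A' = C then eo B C L A * (gd82 d L A C * rr B C L) else 0) -
          (if A' = B then eo B C L A * (gd82 d L A B * rr B C L) else 0) := by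
        intro A' _
        rw [e0 L A']
        by_cases h1 : A' = C
        · have h2 : A' ≠ B := fun h => hBC (h.symm.trans h1)
          rw [if_pos h1, if_neg h2, if_pos h1, if_neg h2, h1]
          ring
        · rw [if_neg h1, if_neg h1]
          by_cases h2 : A' = B
          · rw [if_pos h2, if_pos h2, h2]
            ring
          · rw [if_neg h2, if_neg h2]
            ring
      rw [Finset.sum_congr rfl e3, Finset.sum_sub_distrib, Finset.sum_ite_eq', if_pos hCm,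
        Finset.sum_ite_eq', if_pos hBm]
      ring
    rw [Finset.sum_congr rfl e2]
    have e4 : ∀ A ∈ Lv M (k + 1), eo B C L A * (gd82 d L A C * rr B C L - gd82 d L A B * rr B C L) =
        (if A = C then rr B C L * (gd82 d L C C * rr B C L - gd82 d L C B * rr B C L) else 0) -
        (if A = B then rr B C L * (gd82 d L B C * rr B C L - gd82 d L B B * rr B C L) else 0) := by
      intro A _
      rw [e0 L A]
      by_cases h1 : A = C
      · have h2 : A ≠ B := fun h => hBC (h.symm.trans h1)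
        rw [if_pos h1, if_neg h2, if_pos h1, if_neg h2, h1]
        ring
      · rw [if_neg h1, if_neg h1]
        by_cases h2 : A = B
        · rw [if_pos h2, if_pos h2, h2]
          ring
        · rw [if_neg h2, if_neg h2]
          ring
    rw [Finset.sum_congr rfl e4, Finset.sum_sub_distrib, Finset.sum_ite_eq', if_pos hCm,
      Finset.sum_ite_eq', if_pos hBm]
    have g1 : gd82 d L C C = 0 := if_neg fun h => h rfl
    have g2 : gd82 d L B B = 0 := if_neg fun h => h rfl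
    have g3 : gd82 d L C B = d C B := if_pos (Ne.symm hBC)
    have g4 : gd82 d L B C = d B C := if_pos hBC
    rw [g1, g2, g3, g4]
    ring
  rw [Finset.sum_congr rfl e1, ← Finset.mul_sum, sum_rr hK hx hy hxy]
  ring

/-- off diagonal coefficients of the restricted kernel -/
theorem rb_ne {K : Finset ℕ} (hK : K ∈ Lv M k) {x y : ℕ} (hx : x ∈ ad K) (hy : y ∈ ad K)
    (hxy : x ≠ y) (b : Finset ℕ → ℕ → ℕ → ℝ) (d : Finset ℕ → Finset ℕ → ℝ) :
    rb M k (bb b) (gd82 d) K (mv K x) (mv K y) = rB b d K x y := by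
  have hBm : mv K x ∈ Lv M (k + 1) := mv_mem hK hx
  have hCm : mv K y ∈ Lv M (k + 1) := mv_mem hK hy
  unfold rb rB
  rw [if_neg hxy, rb_one hK hx hy hxy]
  -- second term
  have t2 : ∑ L ∈ Lv M (k + 2), ∑ L' ∈ Lv M (k + 2), bb b (mv K x) L L' *
      (wt (mv K x) L * ri K (mv K x) L ^ 2 * cv (mv K y) (mv K x) L') =
      ∑ z ∈ ad (mv K x), w (mv K x) z * (((z : ℝ) - x)⁻¹) ^ 2 * b (mv K x) z y := by
    rw [sum_bb' hBm b (fun L L' => wt (mv K x) L * ri K (mv K x) L ^ 2 *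
      cv (mv K y) (mv K x) L')]
    refine Finset.sum_congr rfl fun z hz => ?_
    rw [Finset.sum_eq_single y]
    · rw [wt_mv hz, ri_chain hx hz, cv_eq hx hy hxy (ad_swap hy hx (Ne.symm hxy)), if_pos rfl]
      ring
    · intro z' hz' hne
      rw [cv_eq hx hy hxy hz', if_neg hne]
      ring
    · intro h
      exact absurd (ad_swap hy hx (Ne.symm hxy)) h
  have t3 : ∑ L ∈ Lv M (k + 2), ∑ L' ∈ Lv M (k + 2), bb b (mv K y) L L' *
      (cv (mv K x) (mv K y) L * (wt (mv K y) L' * ri K (mv K y) L' ^ 2)) =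
      ∑ z ∈ ad (mv K y), w (mv K y) z * (((z : ℝ) - y)⁻¹) ^ 2 * b (mv K y) x z := by
    rw [sum_bb' hCm b (fun L L' => cv (mv K x) (mv K y) L *
      (wt (mv K y) L' * ri K (mv K y) L' ^ 2)), Finset.sum_comm]
    refine Finset.sum_congr rfl fun z hz => ?_
    rw [Finset.sum_eq_single x]
    · rw [wt_mv hz, ri_chain hy hz, cv_eq hy hx (Ne.symm hxy) (ad_swap hx hy hxy), if_pos rfl]
      ring
    · intro z' hz' hne
      rw [cv_eq hy hx (Ne.symm hxy) hz', if_neg hne]
      ring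
    · intro h
      exact absurd (ad_swap hx hy hxy) h
  have t4 : ∑ A ∈ Lv M (k + 1), ∑ L ∈ Lv M (k + 2), ∑ L' ∈ Lv M (k + 2), bb b A L L' *
      (cv (mv K x) A L * cv (mv K y) A L' * wt K A) =
      ∑ v ∈ ((ad K).erase x).erase y, w K v * b (mv K v) x y := by
    rw [sum_Ab hK]
    · have e1 : ∀ v ∈ ad K, ∑ L ∈ Lv M (k + 2), ∑ L' ∈ Lv M (k + 2), bb b (mv K v) L L' *
          (cv (mv K x) (mv K v) L * cv (mv K y) (mv K v) L' * wt K (mv K v)) =
          if v ≠ x ∧ v ≠ y then w K v * b (mv K v) x y else 0 := by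
        intro v hv
        rw [sum_bb' (mv_mem hK hv) b (fun L L' => cv (mv K x) (mv K v) L *
          cv (mv K y) (mv K v) L' * wt K (mv K v))]
        by_cases h1 : v = x
        · rw [if_neg fun h => h.1 h1]
          refine Finset.sum_eq_zero fun z _ => Finset.sum_eq_zero fun z' _ => ?_
          rw [h1, cv_self]
          ring
        · by_cases h2 : v = y
          · rw [if_neg fun h => h.2 h2]
            refine Finset.sum_eq_zero fun z _ => Finset.sum_eq_zero fun z' _ => ?_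
            rw [h2, cv_self]
            ring
          · rw [if_pos ⟨h1, h2⟩, Finset.sum_eq_single x, Finset.sum_eq_single y]
            · rw [cv_eq hv hx h1 (ad_swap hx hv (Ne.symm h1)), if_pos rfl,
                cv_eq hv hy h2 (ad_swap hy hv (Ne.symm h2)), if_pos rfl, wt_mv hv]
              ring
            · intro z hz hne
              rw [cv_eq hv hy h2 hz, if_neg hne]
              ring
            · intro h
              exact absurd (ad_swap hy hv (Ne.symm h2)) h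
            · intro z hz hne
              refine Finset.sum_eq_zero fun z' _ => ?_
              rw [cv_eq hv hx h1 hz, if_neg hne]
              ring
            · intro h
              exact absurd (ad_swap hx hv (Ne.symm h1)) h
      rw [Finset.sum_congr rfl e1, ← Finset.sum_filter]
      refine Finset.sum_congr ?_ fun _ _ => rfl
      ext v
      simp only [mem_filter, mem_erase]
      tauto
    · intro A _ h
      refine Finset.sum_eq_zero fun L _ => Finset.sum_eq_zero fun L' _ => ?_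
      rw [wt_not h]
      ring
  rw [t2, t3, t4]
  ring

theorem rb_diag {K : Finset ℕ} (hK : K ∈ Lv M k) {x : ℕ} (hx : x ∈ ad K)
    (b : Finset ℕ → ℕ → ℕ → ℝ) (d : Finset ℕ → Finset ℕ → ℝ) :
    rb M k (bb b) (gd82 d) K (mv K x) (mv K x) =
      ∑ v ∈ (ad K).erase x, w K v * b (mv K v) x x := by
  unfold rb
  have t1 : ∑ L ∈ Lv M (k + 2), ∑ A ∈ Lv M (k + 1), ∑ A' ∈ Lv M (k + 1),
      gd82 d L A A' * (eo (mv K x) (mv K x) L A * eo (mv K x) (mv K x) L A') = 0 := by
    refine Finset.sum_eq_zero fun L _ => Finset.sum_eq_zero fun A _ =>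
      Finset.sum_eq_zero fun A' _ => ?_
    have : eo (mv K x) (mv K x) L A = 0 := if_neg fun h => h rfl
    rw [this]
    ring
  have t2 : ∑ L ∈ Lv M (k + 2), ∑ L' ∈ Lv M (k + 2), bb b (mv K x) L L' *
      (wt (mv K x) L * ri K (mv K x) L ^ 2 * cv (mv K x) (mv K x) L') = 0 := by
    refine Finset.sum_eq_zero fun L _ => Finset.sum_eq_zero fun L' _ => ?_
    rw [cv_self]
    ring
  have t3 : ∑ L ∈ Lv M (k + 2), ∑ L' ∈ Lv M (k + 2), bb b (mv K x) L L' *
      (cv (mv K x) (mv K x) L * (wt (mv K x) L' * ri K (mv K x) L' ^ 2)) = 0 := by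
    refine Finset.sum_eq_zero fun L _ => Finset.sum_eq_zero fun L' _ => ?_
    rw [cv_self]
    ring
  have t4 : ∑ A ∈ Lv M (k + 1), ∑ L ∈ Lv M (k + 2), ∑ L' ∈ Lv M (k + 2), bb b A L L' *
      (cv (mv K x) A L * cv (mv K x) A L' * wt K A) =
      ∑ v ∈ (ad K).erase x, w K v * b (mv K v) x x := by
    rw [sum_Ab hK]
    · have e1 : ∀ v ∈ ad K, ∑ L ∈ Lv M (k + 2), ∑ L' ∈ Lv M (k + 2), bb b (mv K v) L L' *
          (cv (mv K x) (mv K v) L * cv (mv K x) (mv K v) L' * wt K (mv K v)) =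
          if v ≠ x then w K v * b (mv K v) x x else 0 := by
        intro v hv
        rw [sum_bb' (mv_mem hK hv) b (fun L L' => cv (mv K x) (mv K v) L *
          cv (mv K x) (mv K v) L' * wt K (mv K v))]
        by_cases h1 : v = x
        · rw [if_neg fun h => h h1]
          refine Finset.sum_eq_zero fun z _ => Finset.sum_eq_zero fun z' _ => ?_
          rw [h1, cv_self]
          ring
        · rw [if_pos h1, Finset.sum_eq_single x, Finset.sum_eq_single x]
          · rw [cv_eq hv hx h1 (ad_swap hx hv (Ne.symm h1)), if_pos rfl, wt_mv hv]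
            ring
          · intro z hz hne
            rw [cv_eq hv hx h1 hz, if_neg hne]
            ring
          · intro h
            exact absurd (ad_swap hx hv (Ne.symm h1)) h
          · intro z hz hne
            refine Finset.sum_eq_zero fun z' _ => ?_
            rw [cv_eq hv hx h1 hz, if_neg hne]
            ring
          · intro h
            exact absurd (ad_swap hx hv (Ne.symm h1)) h
      rw [Finset.sum_congr rfl e1, ← Finset.sum_filter]
      refine Finset.sum_congr ?_ fun _ _ => rfl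
      ext v
      simp only [mem_filter, mem_erase]
      tauto
    · intro A _ h
      refine Finset.sum_eq_zero fun L _ => Finset.sum_eq_zero fun L' _ => ?_
      rw [wt_not h]
      ring
  rw [t1, t2, t3, t4]
  ring

/-- the block coefficients on a common cover -/
theorem rg_eq {K K' : Finset ℕ} (hK : K ∈ Lv M k) (hK' : K' ∈ Lv M k) {u v : ℕ} (hu : u ∈ ad K)
    (hv : v ∈ ad K') (h : mv K u = mv K' v) (b : Finset ℕ → ℕ → ℕ → ℝ)
    (d : Finset ℕ → Finset ℕ → ℝ) (hne : K ≠ K') :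
    rg M k (bb b) (gd82 d) (mv K u) K K' = rDA b d (mv K u) K K' u v := by
  have hBm : mv K u ∈ Lv M (k + 1) := mv_mem hK hu
  unfold rg rDA
  have t1 : ∑ L ∈ Lv M (k + 2), ∑ A ∈ Lv M (k + 1), ∑ A' ∈ Lv M (k + 1),
      gd82 d L A A' * (wt (mv K u) L * (Oc K (mv K u) L A * Oc K' (mv K u) L A')) =
      ∑ x ∈ ad (mv K u), w (mv K u) x *
    ((((x : ℝ) - u)⁻¹) ^ 2 * (1 - (((x : ℝ) - v)⁻¹) ^ 2) * d (mv K u) (mv K' x) +
      (1 - (((x : ℝ) - u)⁻¹) ^ 2) * (((x : ℝ) - v)⁻¹) ^ 2 * d (mv K x) (mv K u) +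
      (1 - (((x : ℝ) - u)⁻¹) ^ 2) * (1 - (((x : ℝ) - v)⁻¹) ^ 2) * d (mv K x) (mv K' x)) := by
    have e1 : ∀ L ∈ Lv M (k + 2), ∑ A ∈ Lv M (k + 1), ∑ A' ∈ Lv M (k + 1),
        gd82 d L A A' * (wt (mv K u) L * (Oc K (mv K u) L A * Oc K' (mv K u) L A')) =
        wt (mv K u) L * ∑ A ∈ Lv M (k + 1), (∑ A' ∈ Lv M (k + 1),
          gd82 d ∅ A A' * Oc K' (mv K u) L A') * Oc K (mv K u) L A := by
      intro L _
      rw [Finset.mul_sum]
      refine Finset.sum_congr rfl fun A _ => ?_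
      rw [Finset.sum_mul, Finset.mul_sum]
      refine Finset.sum_congr rfl fun A' _ => ?_
      have : gd82 d L A A' = gd82 d ∅ A A' := rfl
      rw [this]
      ring
    rw [Finset.sum_congr rfl e1, sum_wt hBm]
    refine Finset.sum_congr rfl fun z hz => ?_
    congr 1
    have hz' : z ∈ ad (mv K' v) := h ▸ hz
    have e2 : ∀ A : Finset ℕ, ∑ A' ∈ Lv M (k + 1),
        gd82 d ∅ A A' * Oc K' (mv K u) (mv (mv K u) z) A' =
        gd82 d ∅ A (mv K u) * (((z : ℝ) - v)⁻¹) ^ 2 +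
          gd82 d ∅ A (mv K' z) * (1 - (((z : ℝ) - v)⁻¹) ^ 2) := by
      intro A
      rw [h]
      exact sum_Oc hK' hv hz' (fun A' => gd82 d ∅ A A')
    rw [Finset.sum_congr rfl fun A _ => by rw [e2 A]]
    rw [sum_Oc hK hu hz (fun A => gd82 d ∅ A (mv K u) * (((z : ℝ) - v)⁻¹) ^ 2 +
          gd82 d ∅ A (mv K' z) * (1 - (((z : ℝ) - v)⁻¹) ^ 2))]
    have hzm : z ∈ mv K u := (mem_ad.1 hz).1
    have g1 : gd82 d ∅ (mv K u) (mv K u) = 0 := if_neg fun h => h rfl
    have g2 : gd82 d ∅ (mv K u) (mv K' z) = d (mv K u) (mv K' z) := by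
      refine if_pos fun h' => ?_
      rw [h'] at hzm
      exact mv_not_mem hzm
    have g3 : gd82 d ∅ (mv K z) (mv K u) = d (mv K z) (mv K u) := by
      refine if_pos fun h' => ?_
      rw [← h'] at hzm
      exact mv_not_mem hzm
    have g4 : (1 - (((z : ℝ) - u)⁻¹) ^ 2) * (1 - (((z : ℝ) - v)⁻¹) ^ 2) *
        gd82 d ∅ (mv K z) (mv K' z) = (1 - (((z : ℝ) - u)⁻¹) ^ 2) * (1 - (((z : ℝ) - v)⁻¹) ^ 2) *
        d (mv K z) (mv K' z) := by
      by_cases h1 : z ∈ ad K
      · by_cases h2 : z ∈ ad K'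
        · congr 1
          refine if_pos fun h' => hne ?_
          -- remove the bead
          have e : ∀ C : Finset ℕ, z ∈ ad C → C = insert z ((mv C z).erase (z + 1)) := by
            intro C hC
            obtain ⟨c1, c2⟩ := mem_ad.1 hC
            ext t
            simp only [mv, mem_insert, mem_erase]
            constructor
            · intro ht
              by_cases h5 : t = z
              · exact Or.inl h5
              · right
                exact ⟨fun h6 => c2 (h6 ▸ ht), Or.inr ⟨h5, ht⟩⟩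
            · rintro (h5 | ⟨h5, h6 | ⟨h6, h7⟩⟩)
              · exact h5 ▸ c1
              · exact absurd h6 h5
              · exact h7
          rw [e K h1, e K' h2, h']
        · rw [ad_new hz' h2]
          ring
      · rw [ad_new hz h1]
        ring
    rw [g1, g2, g3]
    linear_combination g4
  have t2 : ∑ L ∈ Lv M (k + 2), ∑ L' ∈ Lv M (k + 2), bb b (mv K u) L L' *
      (wt (mv K u) L * wt (mv K u) L' * (ri K (mv K u) L * ri K (mv K u) L' *
        (ri K' (mv K u) L * ri K' (mv K u) L'))) =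
      ∑ x ∈ ad (mv K u), ∑ y ∈ ad (mv K u), w (mv K u) x * w (mv K u) y *
    (((x : ℝ) - u)⁻¹ * ((x : ℝ) - v)⁻¹ * (((y : ℝ) - u)⁻¹ * ((y : ℝ) - v)⁻¹)) *
      b (mv K u) x y := by
    rw [sum_bb' hBm b (fun L L' => wt (mv K u) L * wt (mv K u) L' *
      (ri K (mv K u) L * ri K (mv K u) L' * (ri K' (mv K u) L * ri K' (mv K u) L')))]
    refine Finset.sum_congr rfl fun x hx => Finset.sum_congr rfl fun y hy => ?_
    have r1 : ri K' (mv K u) (mv (mv K u) x) = ((x : ℝ) - v)⁻¹ := by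
      rw [h]
      exact ri_chain hv (h ▸ hx)
    have r2 : ri K' (mv K u) (mv (mv K u) y) = ((y : ℝ) - v)⁻¹ := by
      rw [h]
      exact ri_chain hv (h ▸ hy)
    rw [wt_mv hx, wt_mv hy, ri_chain hu hx, ri_chain hu hy, r1, r2]
    ring
  rw [t1, t2]
  ring

/-- the block coefficients on the diagonal -/
theorem rg_diag {K : Finset ℕ} (hK : K ∈ Lv M k) {x : ℕ} (hx : x ∈ ad K)
    (b : Finset ℕ → ℕ → ℕ → ℝ) (d : Finset ℕ → Finset ℕ → ℝ) :
    rg M k (bb b) (gd82 d) (mv K x) K K =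
      (∑ z ∈ ad (mv K x), ∑ z' ∈ ad (mv K x), w (mv K x) z * w (mv K x) z' *
        ((((z : ℝ) - x)⁻¹) ^ 2 * (((z' : ℝ) - x)⁻¹) ^ 2) * b (mv K x) z z') +
      ∑ z ∈ (ad K).erase x, w (mv K x) z *
        ((((z : ℝ) - x)⁻¹) ^ 2 * (1 - (((z : ℝ) - x)⁻¹) ^ 2)) *
          (d (mv K x) (mv K z) + d (mv K z) (mv K x)) := by
  have hBm : mv K x ∈ Lv M (k + 1) := mv_mem hK hx
  unfold rg
  have t1 : ∑ L ∈ Lv M (k + 2), ∑ A ∈ Lv M (k + 1), ∑ A' ∈ Lv M (k + 1),
      gd82 d L A A' * (wt (mv K x) L * (Oc K (mv K x) L A * Oc K (mv K x) L A')) =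
      ∑ z ∈ (ad K).erase x, w (mv K x) z *
        ((((z : ℝ) - x)⁻¹) ^ 2 * (1 - (((z : ℝ) - x)⁻¹) ^ 2)) *
          (d (mv K x) (mv K z) + d (mv K z) (mv K x)) := by
    have e1 : ∀ L ∈ Lv M (k + 2), ∑ A ∈ Lv M (k + 1), ∑ A' ∈ Lv M (k + 1),
        gd82 d L A A' * (wt (mv K x) L * (Oc K (mv K x) L A * Oc K (mv K x) L A')) =
        wt (mv K x) L * ∑ A ∈ Lv M (k + 1), (∑ A' ∈ Lv M (k + 1),
          gd82 d ∅ A A' * Oc K (mv K x) L A') * Oc K (mv K x) L A := by
      intro L _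
      rw [Finset.mul_sum]
      refine Finset.sum_congr rfl fun A _ => ?_
      rw [Finset.sum_mul, Finset.mul_sum]
      refine Finset.sum_congr rfl fun A' _ => ?_
      have : gd82 d L A A' = gd82 d ∅ A A' := rfl
      rw [this]
      ring
    rw [Finset.sum_congr rfl e1, sum_wt hBm]
    have hsub : (ad K).erase x ⊆ ad (mv K x) := by
      intro z hz
      obtain ⟨h1, h2⟩ := mem_erase.1 hz
      exact ad_sub hx h2 h1
    symm
    have e3 : ∀ z ∈ ad (mv K x), w (mv K x) z * ∑ A ∈ Lv M (k + 1), (∑ A' ∈ Lv M (k + 1),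
          gd82 d ∅ A A' * Oc K (mv K x) (mv (mv K x) z) A') * Oc K (mv K x) (mv (mv K x) z) A =
        w (mv K x) z * ((((z : ℝ) - x)⁻¹) ^ 2 * (1 - (((z : ℝ) - x)⁻¹) ^ 2)) *
          (d (mv K x) (mv K z) + d (mv K z) (mv K x)) := by
      intro z hz
      have e2 : ∀ A : Finset ℕ, ∑ A' ∈ Lv M (k + 1),
          gd82 d ∅ A A' * Oc K (mv K x) (mv (mv K x) z) A' =
          gd82 d ∅ A (mv K x) * (((z : ℝ) - x)⁻¹) ^ 2 +
            gd82 d ∅ A (mv K z) * (1 - (((z : ℝ) - x)⁻¹) ^ 2) := by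
        intro A
        exact sum_Oc hK hx hz (fun A' => gd82 d ∅ A A')
      rw [Finset.sum_congr rfl fun A _ => by rw [e2 A]]
      rw [sum_Oc hK hx hz (fun A => gd82 d ∅ A (mv K x) * (((z : ℝ) - x)⁻¹) ^ 2 +
            gd82 d ∅ A (mv K z) * (1 - (((z : ℝ) - x)⁻¹) ^ 2))]
      have hzm : z ∈ mv K x := (mem_ad.1 hz).1
      have g1 : ∀ B : Finset ℕ, gd82 d ∅ B B = 0 := fun B => if_neg fun h => h rfl
      have g2 : gd82 d ∅ (mv K x) (mv K z) = d (mv K x) (mv K z) := by
        refine if_pos fun h' => ?_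
        rw [h'] at hzm
        exact mv_not_mem hzm
      have g3 : gd82 d ∅ (mv K z) (mv K x) = d (mv K z) (mv K x) := by
        refine if_pos fun h' => ?_
        rw [← h'] at hzm
        exact mv_not_mem hzm
      rw [g1, g1, g2, g3]
      ring
    rw [Finset.sum_congr rfl e3]
    refine Finset.sum_subset hsub fun z hz hz' => ?_
    have h1 : z ∉ ad K := fun h => hz' (mem_erase.2 ⟨path_ne hz, h⟩)
    rw [ad_new hz h1]
    ring
  have t2 : ∑ L ∈ Lv M (k + 2), ∑ L' ∈ Lv M (k + 2), bb b (mv K x) L L' *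
      (wt (mv K x) L * wt (mv K x) L' * (ri K (mv K x) L * ri K (mv K x) L' *
        (ri K (mv K x) L * ri K (mv K x) L'))) =
      ∑ z ∈ ad (mv K x), ∑ z' ∈ ad (mv K x), w (mv K x) z * w (mv K x) z' *
        ((((z : ℝ) - x)⁻¹) ^ 2 * (((z' : ℝ) - x)⁻¹) ^ 2) * b (mv K x) z z' := by
    rw [sum_bb' hBm b (fun L L' => wt (mv K x) L * wt (mv K x) L' *
      (ri K (mv K x) L * ri K (mv K x) L' * (ri K (mv K x) L * ri K (mv K x) L')))]
    refine Finset.sum_congr rfl fun z hz => Finset.sum_congr rfl fun z' hz' => ?_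
    rw [wt_mv hz, wt_mv hz', ri_chain hx hz, ri_chain hx hz']
    ring
  rw [t1, t2]
  ring

/-- the restricted block coefficient -/
theorem rD_eq {K K' : Finset ℕ} {u v : ℕ} (hu : u ∈ ad K) (hv : v ∈ ad K')
    (h : mv K u = mv K' v) (b : Finset ℕ → ℕ → ℕ → ℝ) (d : Finset ℕ → Finset ℕ → ℝ)
    (hne : K ≠ K') : rD b d K K' = rDA b d (mv K u) K K' u v := by
  unfold rD
  rw [Finset.sum_eq_single u, Finset.sum_eq_single v]
  · rw [if_pos h]
  · intro v' hv' hne'
    rw [if_neg]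
    intro h'
    exact hne' (mv_inj82 hv' (h'.symm.trans h))
  · intro h'
    exact absurd hv h'
  · intro u' hu' hne'
    refine Finset.sum_eq_zero fun v' hv' => ?_
    rw [if_neg]
    intro h'
    exact hne' (cover_unique hne hu' hv' h' hu hv h)
  · intro h'
    exact absurd hu h'

end Pool.JM
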