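import Pool.Agent.Work.MP_46fa68_82.Trans
import Pool.Agent.Work.MP_46fa68_82.Coef

/-! # The full marked kernel in bead form: restriction formulas -/

set_option autoImplicit false

open Finset Equiv

namespace Pool.JM

variable {N M k : ℕ}

theorem P_P' (hM : N < M) (hk : k < N) {C : Finset ℕ} (hC : C ∈ Lv M k) {x : ℕ}
    (hx : x ∈ ad C) : P N M (k + 1) (mv C x) * P N M k C = Pc N M k C x := by
  rw [← P_comm hM (Nat.le_succ k) (by omega) C (mv_mem hC hx), P_P hM hk hC hx]

theorem P_P_not' (hM : N < M) (hk : k < N) {C B : Finset ℕ} (hB : B ∈ Lv M (k + 1))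
    (h : ¬ Ab C B) : P N M (k + 1) B * P N M k C = 0 := by
  rw [← P_comm hM (Nat.le_succ k) (by omega) C hB, P_P_not hM hk h]

theorem Yb_mv (hM : N < M) (hk : k < N) {K : Finset ℕ} (hK : K ∈ Lv M k) {x y : ℕ}
    (hx : x ∈ ad K) (hy : y ∈ ad K) : Yb N M k K (mv K x) (mv K y) =
      Pc N M k K x * Dg N k * Pc N M k K y := by
  unfold Yb
  rw [P_P' hM hk hK hx, P_P hM hk hK hy]

theorem Yb_not (hM : N < M) (hk : k < N) {K B C : Finset ℕ} (hB : B ∈ Lv M (k + 1))
    (h : ¬ (Ab K B ∧ Ab K C)) : Yb N M k K B C = 0 := by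
  unfold Yb
  by_cases h1 : Ab K B
  · rw [P_P_not hM hk fun h2 => h ⟨h1, h2⟩, mul_zero]
  · rw [P_P_not' hM hk hB h1, zero_mul, zero_mul]

/-- first part in bead form -/
theorem GB_eq (hM : N < M) (hk : k < N) (c : Finset ℕ → Finset ℕ → Finset ℕ → ℝ) :
    GB N M k c = ∑ K ∈ Lv M k, ∑ x ∈ ad K, ∑ y ∈ ad K,
      c K (mv K x) (mv K y) • (Pc N M k K x * Dg N k * Pc N M k K y) := by
  unfold GB
  refine Finset.sum_congr rfl fun K hK => ?_
  rw [sum_Ab hK]
  · refine Finset.sum_congr rfl fun x hx => ?_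
    rw [sum_Ab hK]
    · refine Finset.sum_congr rfl fun y hy => ?_
      rw [Yb_mv hM hk hK hx hy]
    · intro B _ h
      rw [Yb_not hM hk (mv_mem hK hx) fun h' => h h'.2, smul_zero]
  · intro B hB h
    refine Finset.sum_eq_zero fun C _ => ?_
    rw [Yb_not hM hk hB fun h' => h h'.1, smul_zero]

theorem Yg_mv (hM : N < M) (hk : k < N) {K : Finset ℕ} (hK : K ∈ Lv M k) (K' : Finset ℕ) {x : ℕ}
    (hx : x ∈ ad K) : Yg N M k (mv K x) K K' = Pc N M k K x * rv (P N M k K') * Dg N (k + 1) := by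
  unfold Yg
  rw [P_P' hM hk hK hx]

theorem Yg_not (hM : N < M) (hk : k < N) {K K' B : Finset ℕ} (hB : B ∈ Lv M (k + 1))
    (h : ¬ (Ab K B ∧ Ab K' B)) : Yg N M k B K K' = 0 := by
  have hg1 := good (N := N) hM (k + 1) (by omega)
  have hg0 := good (N := N) hM k (by omega)
  unfold Yg
  by_cases h1 : Ab K B
  · have h2 : ¬ Ab K' B := fun h2 => h ⟨h1, h2⟩
    have c1 : P N M (k + 1) B * P N M k K = P N M k K * P N M (k + 1) B :=
      (P_comm hM (Nat.le_succ k) (by omega) K hB).symm
    have c2 : P N M (k + 1) B * rv (P N M k K') = rv (P N M k K') * P N M (k + 1) B :=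
      rv_comm (hg1.al B).2 (hg0.al K').2
    have c3 : P N M (k + 1) B * Dg N (k + 1) = rv (P N M (k + 1) B) * Dg N (k + 1) :=
      (rvP_Dg hM (by omega) hB).symm
    calc P N M (k + 1) B * P N M k K * rv (P N M k K') * Dg N (k + 1) =
        P N M k K * (P N M (k + 1) B * rv (P N M k K')) * Dg N (k + 1) := by
          rw [c1]; noncomm_ring
      _ = P N M k K * rv (P N M k K') * (P N M (k + 1) B * Dg N (k + 1)) := by
          rw [c2]; noncomm_ring
      _ = P N M k K * (rv (P N M k K') * rv (P N M (k + 1) B)) * Dg N (k + 1) := by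
          rw [c3]; noncomm_ring
      _ = 0 := by
          rw [← rv_mul, P_P_not hM hk h2, rv_zero, mul_zero, zero_mul]
  · rw [P_P_not' hM hk hB h1, zero_mul, zero_mul]

/-- second part in bead form -/
theorem GG_eq (hM : N < M) (hk : k < N) (c : Finset ℕ → Finset ℕ → Finset ℕ → ℝ) :
    GG N M k c = ∑ K ∈ Lv M k, ∑ K' ∈ Lv M k, ∑ x ∈ ad K,
      c (mv K x) K K' • (Pc N M k K x * rv (P N M k K') * Dg N (k + 1)) := by
  unfold GG
  rw [Finset.sum_comm]
  refine Finset.sum_congr rfl fun K hK => ?_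
  rw [Finset.sum_comm]
  refine Finset.sum_congr rfl fun K' _ => ?_
  rw [sum_Ab hK]
  · refine Finset.sum_congr rfl fun x hx => ?_
    rw [Yg_mv hM hk hK K' hx]
  · intro B hB h
    rw [Yg_not hM hk hB fun h' => h h'.1, smul_zero]

/-- the kernel in the two forms -/
theorem KK_eq (hM : N < M) (hk : k < N) (b : Finset ℕ → ℕ → ℕ → ℝ)
    (d : Finset ℕ → Finset ℕ → ℝ) :
    KK N M k b d = GB N M k (bb b) + GG N M k (gd82 d) := by
  rw [GB_eq hM hk, GG_eq hM hk]
  unfold KK
  congr 1
  · refine Finset.sum_congr rfl fun K hK => Finset.sum_congr rfl fun x hx =>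
      Finset.sum_congr rfl fun y hy => ?_
    rw [bb_mv b hx hy]
  · rw [Finset.sum_mul]
    refine Finset.sum_congr rfl fun K hK => ?_
    rw [Finset.sum_mul]
    have e1 : ∀ K' ∈ Lv M k, ∑ x ∈ ad K, gd82 d (mv K x) K K' •
        (Pc N M k K x * rv (P N M k K') * Dg N (k + 1)) =
        if K ≠ K' then d K K' • (P N M k K * rv (P N M k K')) * Dg N (k + 1) else 0 := by
      intro K' _
      by_cases h : K ≠ K'
      · rw [if_pos h, ← pc_sum hK (by omega)]
        simp only [Finset.sum_mul, Finset.smul_sum]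
        refine Finset.sum_congr rfl fun x _ => ?_
        have : gd82 d (mv K x) K K' = d K K' := if_pos h
        rw [this, Matrix.smul_mul]
      · rw [if_neg h]
        refine Finset.sum_eq_zero fun x _ => ?_
        have : gd82 d (mv K x) K K' = 0 := if_neg h
        rw [this, zero_smul]
    rw [Finset.sum_congr rfl e1, ← Finset.sum_filter]
    refine Finset.sum_congr ?_ fun _ _ => rfl
    ext K'
    simp only [mem_filter, mem_erase]
    constructor
    · rintro ⟨h1, h2⟩
      exact ⟨h2, fun h => h1 h.symm⟩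
    · rintro ⟨h1, h2⟩
      exact ⟨fun h => h2 h.symm, h1⟩

/-- **the restriction of a full marked kernel in bead form** -/
theorem KK_res (hM : N < M) (hn : k + 2 < N) (b : Finset ℕ → ℕ → ℕ → ℝ)
    (d : Finset ℕ → Finset ℕ → ℝ) :
    Dg N (k + 2) * (U (s (k + 1) hn) * rv (U (s (k + 1) hn))) * KK N M (k + 2) b d *
        (U (s (k + 1) hn) * rv (U (s (k + 1) hn))) * Dg N (k + 2) =
      KK N M (k + 1) (rB b d) (rD b d) := by
  have hg := good (N := N) hM (k + 1) (by omega)
  rw [KK_eq hM hn, KK_eq hM (by omega), GK_res hM hn, GB_eq hM (by omega),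
    GB_eq hM (by omega), GG_eq hM (by omega), GG_eq hM (by omega), ← Finset.sum_add_distrib,
    ← Finset.sum_add_distrib]
  refine Finset.sum_congr rfl fun K hK => ?_
  -- split off the diagonal
  have e1 : ∀ c : Finset ℕ → Finset ℕ → Finset ℕ → ℝ,
      ∑ K' ∈ Lv M (k + 1), ∑ x ∈ ad K, c (mv K x) K K' •
        (Pc N M (k + 1) K x * rv (P N M (k + 1) K') * Dg N (k + 2)) =
      ∑ x ∈ ad K, c (mv K x) K K •
        (Pc N M (k + 1) K x * rv (P N M (k + 1) K) * Dg N (k + 2)) +
      ∑ K' ∈ (Lv M (k + 1)).erase K, ∑ x ∈ ad K, c (mv K x) K K' •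
        (Pc N M (k + 1) K x * rv (P N M (k + 1) K') * Dg N (k + 2)) := by
    intro c
    exact (Finset.add_sum_erase _ _ hK).symm
  rw [e1, e1, ← add_assoc, ← add_assoc]
  congr 1
  · -- diagonal
    have e2 : ∀ x ∈ ad K, Pc N M (k + 1) K x * rv (P N M (k + 1) K) * Dg N (k + 2) =
        (w K x)⁻¹ • (Pc N M (k + 1) K x * Dg N (k + 1) * Pc N M (k + 1) K x) := by
      intro x hx
      rw [star_k hM (by omega) hK hx, smul_smul, inv_mul_cancel₀ (ad_w_pos hx).ne', one_smul]
    have e3 : ∑ x ∈ ad K, gd82 (rD b d) (mv K x) K K •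
        (Pc N M (k + 1) K x * rv (P N M (k + 1) K) * Dg N (k + 2)) = 0 := by
      refine Finset.sum_eq_zero fun x _ => ?_
      have : gd82 (rD b d) (mv K x) K K = 0 := if_neg fun h => h rfl
      rw [this, zero_smul]
    rw [e3, add_zero, ← Finset.sum_add_distrib]
    refine Finset.sum_congr rfl fun x hx => ?_
    rw [e2 x hx, smul_smul]
    have e4 : (rg M (k + 1) (bb b) (gd82 d) (mv K x) K K * (w K x)⁻¹) •
        (Pc N M (k + 1) K x * Dg N (k + 1) * Pc N M (k + 1) K x) =
        ∑ y ∈ ad K, (if x = y then rg M (k + 1) (bb b) (gd82 d) (mv K x) K K * (w K x)⁻¹ else 0) •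
          (Pc N M (k + 1) K x * Dg N (k + 1) * Pc N M (k + 1) K y) := by
      rw [Finset.sum_eq_single x]
      · rw [if_pos rfl]
      · intro y _ hne
        rw [if_neg (Ne.symm hne), zero_smul]
      · intro h
        exact absurd hx h
    rw [e4, ← Finset.sum_add_distrib]
    refine Finset.sum_congr rfl fun y hy => ?_
    rw [← add_smul, bb_mv _ hx hy]
    congr 1
    by_cases hxy : x = y
    · subst hxy
      rw [if_pos rfl, rb_diag hK hx, rg_diag hK hx]
      unfold rB
      rw [if_pos rfl]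
      ring
    · rw [if_neg hxy, add_zero, rb_ne hK hx hy hxy]
  · refine Finset.sum_congr rfl fun K' hK' => Finset.sum_congr rfl fun x hx => ?_
    obtain ⟨hne, hK'm⟩ := mem_erase.1 hK'
    by_cases h : Ab K' (mv K x)
    · obtain ⟨v, hv, hvx⟩ := h
      have h1 : gd82 (rD b d) (mv K x) K K' = rD b d K K' := if_pos (Ne.symm hne)
      rw [rg_eq hK hK'm hx hv hvx.symm b d (Ne.symm hne), h1,
        rD_eq hx hv hvx.symm b d (Ne.symm hne)]
    · have h1 := Yg_not (N := N) hM (k := k + 1) (by omega) (K := K) (K' := K')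
        (mv_mem hK hx) fun h' => h h'.2
      rw [Yg_mv hM (by omega) hK K' hx] at h1
      rw [h1, smul_zero, smul_zero]

section row

/-- left part of a rank one piece -/
theorem cell_L (hM : N < M) (hn : k < N) {A : Finset ℕ} (hA : A ∈ Lv M k) {x : ℕ}
    (hx : x ∈ ad A) : Dg N k * Pc N M k A x * Dg N k = w A x • (P N M k A * Dg N k) := by
  rw [Dg_T_Dg, (good (N := N) hM k hn.le).pc_E hn hA hx, Matrix.smul_mul]

/-- **class function of the pairs through the cell** -/
theorem KK_cell (hM : N < M) (hk : k < N) (b : Finset ℕ → ℕ → ℕ → ℝ)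
    (d : Finset ℕ → Finset ℕ → ℝ) :
    Dg N k * KK N M k b d * Dg N k = G N M (cellF b) k * Dg N k := by
  have hg := good (N := N) hM k hk.le
  unfold KK G
  rw [mul_add, add_mul]
  have h2 : Dg N k * ((∑ C ∈ Lv M k, ∑ C' ∈ (Lv M k).erase C,
      d C C' • (P N M k C * rv (P N M k C'))) * Dg N (k + 1)) * Dg N k = 0 := by
    have e : Dg N k * ((∑ C ∈ Lv M k, ∑ C' ∈ (Lv M k).erase C,
        d C C' • (P N M k C * rv (P N M k C'))) * Dg N (k + 1)) * Dg N k =
        Dg N k * (∑ C ∈ Lv M k, ∑ C' ∈ (Lv M k).erase C,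
        d C C' • (P N M k C * rv (P N M k C'))) * (Dg N (k + 1) * Dg N k) := by noncomm_ring
    rw [e, Dg_mul_Dg (Nat.le_succ k)]
    simp only [Finset.mul_sum, Finset.sum_mul]
    refine Finset.sum_eq_zero fun C _ => Finset.sum_eq_zero fun C' hC' => ?_
    obtain ⟨h1, h2⟩ := mem_erase.1 hC'
    rw [Matrix.mul_smul, Matrix.smul_mul]
    have e2 : Dg N k * (P N M k C * rv (P N M k C')) * Dg N k = 0 := by
      rw [mul_assoc, mul_assoc (P N M k C), rvP_Dg hM hk.le h2, ← mul_assoc (P N M k C),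
        hg.orth _ _ (Ne.symm h1), zero_mul, mul_zero]
    rw [e2, smul_zero]
  rw [h2, add_zero, Finset.mul_sum, Finset.sum_mul, Finset.sum_mul]
  refine Finset.sum_congr rfl fun C hC => ?_
  unfold cellF
  simp only [Finset.mul_sum, Finset.sum_mul, Finset.sum_smul]
  refine Finset.sum_congr rfl fun x hx => Finset.sum_congr rfl fun y hy => ?_
  rw [Matrix.mul_smul, Matrix.smul_mul, Matrix.smul_mul]
  have e1 : Dg N k * (Pc N M k C x * Dg N k * Pc N M k C y) * Dg N k =
      (Dg N k * Pc N M k C x * Dg N k) * (Dg N k * Pc N M k C y * Dg N k) := by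
    calc Dg N k * (Pc N M k C x * Dg N k * Pc N M k C y) * Dg N k =
        Dg N k * Pc N M k C x * Dg N k * Pc N M k C y * Dg N k := by noncomm_ring
      _ = Dg N k * Pc N M k C x * (Dg N k * Dg N k) * Pc N M k C y * Dg N k := by rw [Dg_idem]
      _ = _ := by noncomm_ring
  have cD : Dg N k * P N M k C = P N M k C * Dg N k := Dg_P_comm hM le_rfl hk.le C
  rw [e1, cell_L hM hk hC hx, cell_L hM hk hC hy, Matrix.smul_mul, Matrix.mul_smul, smul_smul,
    smul_smul]
  have e3 : P N M k C * Dg N k * (P N M k C * Dg N k) = P N M k C * Dg N k := by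
    calc P N M k C * Dg N k * (P N M k C * Dg N k) =
        P N M k C * (Dg N k * P N M k C) * Dg N k := by noncomm_ring
      _ = (P N M k C * P N M k C) * (Dg N k * Dg N k) := by rw [cD]; noncomm_ring
      _ = _ := by rw [hg.idem, Dg_idem]
  rw [e3]
  congr 1
  ring

theorem rowF_eq (b : Finset ℕ → ℕ → ℕ → ℝ) (d : Finset ℕ → Finset ℕ → ℝ) {K : Finset ℕ} {u : ℕ}
    (hu : u ∈ ad K) : rowF b d (mv K u) K =
    (∑ x ∈ ad (mv K u), ∑ y ∈ ad (mv K u), w (mv K u) x * w (mv K u) y *
      (((x : ℝ) - u)⁻¹ * ((y : ℝ) - u)⁻¹) * b (mv K u) x y) +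
    ∑ y ∈ (ad K).erase u, w (mv K u) y * (1 - (((y : ℝ) - u)⁻¹) ^ 2) * d (mv K y) (mv K u) := by
  unfold rowF
  rw [Finset.sum_eq_single u]
  · rw [if_pos rfl]
  · intro v hv hne
    rw [if_neg]
    intro h
    exact hne (mv_inj82 hv h)
  · intro h
    exact absurd hu h

/-- **one-mark function of the pairs with a common value in the row of the mark** -/
theorem KK_row (hM : N < M) (hn : k + 1 < N) (b : Finset ℕ → ℕ → ℕ → ℝ)
    (d : Finset ℕ → Finset ℕ → ℝ) :
    Dg N (k + 1) * U (s k hn) * KK N M (k + 1) b d * U (s k hn) * Dg N (k + 1) =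
      T1 N M k (rowF b d) * Dg N (k + 1) := by
  have hg1 := good (N := N) hM (k + 1) hn.le
  have hg0 := good (N := N) hM k (by omega)
  set D1 : Mat N := Dg N (k + 1) with hD1
  set s' : Mat N := U (s k hn) with hs'
  have hD1T : D1.transpose = D1 := Dg_transpose _
  have hD1i : D1 * D1 = D1 := Dg_idem _
  have hsT : s'.transpose = s' := by rw [hs', U_transpose, s_inv]
  rw [KK_eq hM hn]
  -- rank one pieces
  have eb : ∀ A ∈ Lv M (k + 1), ∀ L ∈ Lv M (k + 2), ∀ L' ∈ Lv M (k + 2),
      D1 * s' * Yb N M (k + 1) A L L' * s' * D1 =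
      ∑ K ∈ Lv M k, (wt A L * wt A L' * (ri K A L * ri K A L')) •
        (P N M (k + 1) A * P N M k K * D1) := by
    intro A hA L hL L' hL'
    have cA1 : D1 * P N M (k + 1) A = P N M (k + 1) A * D1 := Dg_P_comm hM le_rfl (by omega) A
    have hT : Al k (Th82 N M k A L) := Th_al hM (by omega) A L
    have hT' : Al k (Th82 N M k A L') := Th_al hM (by omega) A L'
    have hTs' : (Th82 N M k A L').transpose = Th82 N M k A L' := Th_symm hM (by omega) A L'
    have r3 := R3 hM hn hA hL
    have r3' := R3 hM hn hA hL'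
    rw [← hD1, ← hs'] at r3 r3'
    have r3T : D1 * (P N M (k + 1) A * P N M (k + 2) L') * s' * D1 =
        wt A L' • (D1 * P N M (k + 1) A * Th82 N M k A L') := by
      have := congrArg Matrix.transpose r3'
      rw [Matrix.transpose_mul, Matrix.transpose_mul, Matrix.transpose_mul,
        Matrix.transpose_mul, Matrix.transpose_smul, Matrix.transpose_mul,
        Matrix.transpose_mul, hD1T, hsT, hg1.symm,
        (good (N := N) hM (k + 2) (by omega)).symm, hTs'] at this
      rw [← this]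
      noncomm_ring
    have e0 : D1 * s' * Yb N M (k + 1) A L L' * s' * D1 =
        (D1 * s' * (P N M (k + 2) L * P N M (k + 1) A) * D1) *
          (D1 * (P N M (k + 1) A * P N M (k + 2) L') * s' * D1) := by
      unfold Yb
      calc D1 * s' * (P N M (k + 1 + 1) L * P N M (k + 1) A * Dg N (k + 1) *
            (P N M (k + 1) A * P N M (k + 1 + 1) L')) * s' * D1 =
          D1 * s' * (P N M (k + 2) L * P N M (k + 1) A) * D1 *
            ((P N M (k + 1) A * P N M (k + 2) L') * s' * D1) := by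
            rw [← hD1]; noncomm_ring
        _ = D1 * s' * (P N M (k + 2) L * P N M (k + 1) A) * (D1 * D1) *
            ((P N M (k + 1) A * P N M (k + 2) L') * s' * D1) := by rw [hD1i]
        _ = _ := by noncomm_ring
    rw [e0, r3, r3T, Matrix.smul_mul, Matrix.mul_smul, smul_smul]
    have c1 : Th82 N M k A L * P N M (k + 1) A = P N M (k + 1) A * Th82 N M k A L :=
      P_comm_Al hM (by omega) hA (hT.mono (by omega))
    have c2 : D1 * Th82 N M k A L' = Th82 N M k A L' * D1 := Dg_comm (by omega) hT'.1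
    have c3 : Th82 N M k A L' * P N M (k + 1) A = P N M (k + 1) A * Th82 N M k A L' :=
      P_comm_Al hM (by omega) hA (hT'.mono (by omega))
    have e1 : Th82 N M k A L * (P N M (k + 1) A * D1) *
        (D1 * P N M (k + 1) A * Th82 N M k A L') =
        P N M (k + 1) A * (Th82 N M k A L * Th82 N M k A L') * D1 := by
      calc Th82 N M k A L * (P N M (k + 1) A * D1) *
            (D1 * P N M (k + 1) A * Th82 N M k A L') =
          Th82 N M k A L * P N M (k + 1) A * (D1 * D1) * P N M (k + 1) A *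
            Th82 N M k A L' := by noncomm_ring
        _ = Th82 N M k A L * P N M (k + 1) A * (D1 * P N M (k + 1) A) *
            Th82 N M k A L' := by rw [hD1i]; noncomm_ring
        _ = Th82 N M k A L * (P N M (k + 1) A * P N M (k + 1) A) * (D1 * Th82 N M k A L') := by
            rw [cA1]; noncomm_ring
        _ = (Th82 N M k A L * P N M (k + 1) A) * Th82 N M k A L' * D1 := by
            rw [hg1.idem, c2]; noncomm_ring
        _ = _ := by rw [c1]; noncomm_ring
    rw [e1, Th_Th hM (by omega), Finset.mul_sum, Finset.sum_mul, Finset.smul_sum]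
    refine Finset.sum_congr rfl fun K _ => ?_
    rw [Matrix.mul_smul, Matrix.smul_mul, smul_smul]
  -- block pieces
  have eg : ∀ A ∈ Lv M (k + 1), ∀ A' ∈ Lv M (k + 1), ∀ L ∈ Lv M (k + 2),
      D1 * s' * Yg N M (k + 1) L A A' * s' * D1 =
      ∑ K ∈ Lv M k, (wt A' L * Oc K A' L A) • (P N M (k + 1) A' * P N M k K * D1) := by
    intro A hA A' hA' L hL
    have hsInv : Inv s' := Inv_U _
    have cs : s' * rv (P N M (k + 1) A') = rv (P N M (k + 1) A') * s' :=
      rvP_comm hM (by omega) A' hsInv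
    have cD2s : Dg N (k + 2) * s' = s' * Dg N (k + 2) := Dg_comm le_rfl (Bd_U (s_Sn k hn))
    have d21 : Dg N (k + 2) * D1 = D1 := Dg_mul_Dg (by omega)
    have cr : D1 * rv (P N M (k + 1) A') = rv (P N M (k + 1) A') * D1 :=
      Dg_rvP_comm hM le_rfl (by omega) A'
    have r4 := R4 hM hn hA hL
    rw [← hD1, ← hs'] at r4
    have e0 : D1 * s' * Yg N M (k + 1) L A A' * s' * D1 =
        (D1 * s' * (P N M (k + 2) L * P N M (k + 1) A) * s' * D1) * rv (P N M (k + 1) A') := by
      unfold Yg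
      calc D1 * s' * (P N M (k + 1 + 1) L * P N M (k + 1) A * rv (P N M (k + 1) A') *
            Dg N (k + 1 + 1)) * s' * D1 =
          D1 * s' * (P N M (k + 2) L * P N M (k + 1) A) * rv (P N M (k + 1) A') *
            (Dg N (k + 2) * s') * D1 := by noncomm_ring
        _ = D1 * s' * (P N M (k + 2) L * P N M (k + 1) A) * rv (P N M (k + 1) A') *
            s' * (Dg N (k + 2) * D1) := by rw [cD2s]; noncomm_ring
        _ = D1 * s' * (P N M (k + 2) L * P N M (k + 1) A) * (rv (P N M (k + 1) A') *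
            s') * D1 := by rw [d21]; noncomm_ring
        _ = D1 * s' * (P N M (k + 2) L * P N M (k + 1) A) * s' *
            (rv (P N M (k + 1) A') * D1) := by rw [← cs]; noncomm_ring
        _ = _ := by rw [← cr]; noncomm_ring
    rw [e0, r4, Finset.sum_mul, Finset.sum_eq_single A']
    · have cT : ThO N M k A' L A * P N M (k + 1) A' = P N M (k + 1) A' * ThO N M k A' L A :=
        P_comm_Al hM (by omega) hA' ((ThO_al hM (by omega) A' L A).mono (by omega))
      have e1 : ThO N M k A' L A * (P N M (k + 1) A' * D1) * rv (P N M (k + 1) A') =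
          P N M (k + 1) A' * ThO N M k A' L A * D1 := by
        have e2 : D1 * rv (P N M (k + 1) A') = P N M (k + 1) A' * D1 := Dg_rvP hM (by omega) hA'
        calc ThO N M k A' L A * (P N M (k + 1) A' * D1) * rv (P N M (k + 1) A') =
            ThO N M k A' L A * P N M (k + 1) A' * (D1 * rv (P N M (k + 1) A')) := by
              noncomm_ring
          _ = ThO N M k A' L A * (P N M (k + 1) A' * P N M (k + 1) A') * D1 := by
              rw [e2]; noncomm_ring
          _ = _ := by rw [hg1.idem, cT]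
      rw [Matrix.smul_mul, e1]
      unfold ThO
      rw [Finset.mul_sum, Finset.sum_mul, Finset.smul_sum]
      refine Finset.sum_congr rfl fun K _ => ?_
      rw [Matrix.mul_smul, Matrix.smul_mul, smul_smul]
    · intro B hB hne
      have e2 : D1 * rv (P N M (k + 1) A') = P N M (k + 1) A' * D1 := Dg_rvP hM (by omega) hA'
      have e1 : ThO N M k B L A * (P N M (k + 1) B * D1) * rv (P N M (k + 1) A') = 0 := by
        calc ThO N M k B L A * (P N M (k + 1) B * D1) * rv (P N M (k + 1) A') =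
            ThO N M k B L A * P N M (k + 1) B * (D1 * rv (P N M (k + 1) A')) := by
              noncomm_ring
          _ = ThO N M k B L A * (P N M (k + 1) B * P N M (k + 1) A') * D1 := by
              rw [e2]; noncomm_ring
          _ = 0 := by rw [hg1.orth _ _ hne, mul_zero, zero_mul]
      rw [Matrix.smul_mul, e1, smul_zero]
    · intro h
      exact absurd hA' h
  -- the sums
  have hlin : ∀ (T : Mat N), D1 * s' * T * s' * D1 = (D1 * s') * T * (s' * D1) := by
    intro T; noncomm_ring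
  have s1 : D1 * s' * (GB N M (k + 1) (bb b) + GG N M (k + 1) (gd82 d)) * s' * D1 =
      D1 * s' * GB N M (k + 1) (bb b) * s' * D1 + D1 * s' * GG N M (k + 1) (gd82 d) * s' * D1 := by
    noncomm_ring
  have s2 : D1 * s' * GB N M (k + 1) (bb b) * s' * D1 =
      ∑ A ∈ Lv M (k + 1), ∑ K ∈ Lv M k, (∑ L ∈ Lv M (k + 2), ∑ L' ∈ Lv M (k + 2),
        bb b A L L' * (wt A L * wt A L' * (ri K A L * ri K A L'))) •
        (P N M (k + 1) A * P N M k K * D1) := by
    rw [hlin]
    unfold GB
    simp only [Finset.mul_sum, Finset.sum_mul]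
    refine Finset.sum_congr rfl fun A hA => ?_
    simp only [Finset.sum_smul]
    rw [← sum3]
    refine Finset.sum_congr rfl fun L hL => Finset.sum_congr rfl fun L' hL' => ?_
    rw [Matrix.mul_smul, Matrix.smul_mul, ← hlin, eb A hA L hL L' hL', Finset.smul_sum]
    refine Finset.sum_congr rfl fun K _ => ?_
    rw [smul_smul]
  have s3 : D1 * s' * GG N M (k + 1) (gd82 d) * s' * D1 =
      ∑ A' ∈ Lv M (k + 1), ∑ K ∈ Lv M k, (∑ L ∈ Lv M (k + 2), ∑ A ∈ Lv M (k + 1),
        gd82 d L A A' * (wt A' L * Oc K A' L A)) • (P N M (k + 1) A' * P N M k K * D1) := by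
    rw [hlin]
    unfold GG
    simp only [Finset.mul_sum, Finset.sum_mul]
    conv_lhs => rw [sum3]
    refine Finset.sum_congr rfl fun A' hA' => ?_
    simp only [Finset.sum_smul]
    rw [← sum3]
    refine Finset.sum_congr rfl fun L hL => Finset.sum_congr rfl fun A hA => ?_
    rw [Matrix.mul_smul, Matrix.smul_mul, ← hlin, eg A hA A' hA' L hL, Finset.smul_sum]
    refine Finset.sum_congr rfl fun K _ => ?_
    rw [smul_smul]
  rw [s1, s2, s3, ← Finset.sum_add_distrib]
  unfold T1
  rw [Finset.sum_sigma, Finset.sum_mul]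
  have s4 : ∀ A ∈ Lv M (k + 1), (∑ K ∈ Lv M k, (∑ L ∈ Lv M (k + 2), ∑ L' ∈ Lv M (k + 2),
        bb b A L L' * (wt A L * wt A L' * (ri K A L * ri K A L'))) •
        (P N M (k + 1) A * P N M k K * D1)) + ∑ K ∈ Lv M k, (∑ L ∈ Lv M (k + 2),
        ∑ A' ∈ Lv M (k + 1), gd82 d L A' A * (wt A L * Oc K A L A')) •
        (P N M (k + 1) A * P N M k K * D1) =
      ∑ K ∈ Lv M k, ((∑ L ∈ Lv M (k + 2), ∑ L' ∈ Lv M (k + 2),
        bb b A L L' * (wt A L * wt A L' * (ri K A L * ri K A L'))) +
        ∑ L ∈ Lv M (k + 2), ∑ A' ∈ Lv M (k + 1), gd82 d L A' A * (wt A L * Oc K A L A')) •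
        (P N M (k + 1) A * P N M k K * D1) := by
    intro A _
    rw [← Finset.sum_add_distrib]
    refine Finset.sum_congr rfl fun K _ => ?_
    rw [add_smul]
  rw [Finset.sum_congr rfl s4, Finset.sum_comm]
  refine Finset.sum_congr rfl fun K hK => ?_
  rw [sum_Ab hK, Finset.sum_mul]
  · refine Finset.sum_congr rfl fun u hu => ?_
    simp only
    rw [P_P' hM (by omega) hK hu, Matrix.smul_mul, rowF_eq b d hu]
    congr 1
    have hA : mv K u ∈ Lv M (k + 1) := mv_mem hK hu
    congr 1
    · rw [sum_bb' hA b (fun L L' => wt (mv K u) L * wt (mv K u) L' *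
        (ri K (mv K u) L * ri K (mv K u) L'))]
      refine Finset.sum_congr rfl fun x hx => Finset.sum_congr rfl fun y hy => ?_
      rw [wt_mv hx, wt_mv hy, ri_chain hu hx, ri_chain hu hy]
      ring
    · have e1 : ∀ L ∈ Lv M (k + 2), ∑ A' ∈ Lv M (k + 1),
          gd82 d L A' (mv K u) * (wt (mv K u) L * Oc K (mv K u) L A') =
          wt (mv K u) L * ∑ A' ∈ Lv M (k + 1), gd82 d ∅ A' (mv K u) * Oc K (mv K u) L A' := by
        intro L _
        rw [Finset.mul_sum]
        refine Finset.sum_congr rfl fun A' _ => ?_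
        have : gd82 d L A' (mv K u) = gd82 d ∅ A' (mv K u) := rfl
        rw [this]
        ring
      rw [Finset.sum_congr rfl e1, sum_wt hA]
      have hsub : (ad K).erase u ⊆ ad (mv K u) := by
        intro z hz
        obtain ⟨h1, h2⟩ := mem_erase.1 hz
        exact ad_sub hu h2 h1
      have e2 : ∀ z ∈ ad (mv K u), w (mv K u) z * ∑ A' ∈ Lv M (k + 1),
          gd82 d ∅ A' (mv K u) * Oc K (mv K u) (mv (mv K u) z) A' =
          w (mv K u) z * (1 - (((z : ℝ) - u)⁻¹) ^ 2) * d (mv K z) (mv K u) := by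
        intro z hz
        rw [sum_Oc hK hu hz (fun A' => gd82 d ∅ A' (mv K u))]
        have hzm : z ∈ mv K u := (mem_ad.1 hz).1
        have g1 : gd82 d ∅ (mv K u) (mv K u) = 0 := if_neg fun h => h rfl
        have g3 : gd82 d ∅ (mv K z) (mv K u) = d (mv K z) (mv K u) := by
          refine if_pos fun h' => ?_
          rw [← h'] at hzm
          exact mv_not_mem hzm
        rw [g1, g3]
        ring
      rw [Finset.sum_congr rfl e2]
      symm
      refine Finset.sum_subset hsub fun z hz hz' => ?_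
      have h1 : z ∉ ad K := fun h => hz' (mem_erase.2 ⟨path_ne hz, h⟩)
      rw [ad_new hz h1]
      ring
  · intro B hB h
    rw [P_P_not' hM (by omega) hB h, zero_mul, smul_zero]

end row

section sym

theorem rv_rv (T : Mat N) : rv (rv T) = T := by
  ext g h
  change T g⁻¹⁻¹ h⁻¹⁻¹ = T g h
  rw [inv_inv, inv_inv]

/-- inversion symmetry -/
theorem rv_KK (hM : N < M) (hk : k < N) (b : Finset ℕ → ℕ → ℕ → ℝ)
    (d : Finset ℕ → Finset ℕ → ℝ) :
    rv (KK N M k b d) = KK N M k b (fun C C' => d C' C) := by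
  have hg := good (N := N) hM k hk.le
  have hg1 := good (N := N) hM (k + 1) (by omega)
  have c10 : Dg N (k + 1) * Dg N k = Dg N k := Dg_mul_Dg (Nat.le_succ k)
  have c01 : Dg N k * Dg N (k + 1) = Dg N k := Dg_mul_Dg' (Nat.le_succ k)
  -- a piece next to the indicator
  have hl : ∀ C ∈ Lv M k, ∀ x ∈ ad C, rv (Pc N M k C x) * Dg N k = Pc N M k C x * Dg N k := by
    intro C hC x hx
    have hB := mv_mem hC hx
    have r1 : rv (P N M (k + 1) (mv C x)) * Dg N (k + 1) =
        P N M (k + 1) (mv C x) * Dg N (k + 1) := rvP_Dg hM (by omega) hB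
    have r0 : rv (P N M k C) * Dg N k = P N M k C * Dg N k := rvP_Dg hM hk.le hC
    rw [← P_P' hM hk hC hx, rv_mul, mul_assoc, r0, mul_assoc]
    have c3 : P N M k C * Dg N k = Dg N (k + 1) * (P N M k C * Dg N k) := by
      rw [← mul_assoc, Dg_P_comm hM (Nat.le_succ k) hk.le C, mul_assoc, c10]
    rw [c3, ← mul_assoc, r1, mul_assoc]
  have hr : ∀ C ∈ Lv M k, ∀ x ∈ ad C, Dg N k * rv (Pc N M k C x) = Dg N k * Pc N M k C x := by
    intro C hC x hx
    have := congrArg Matrix.transpose (hl C hC x hx)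
    rwa [Matrix.transpose_mul, Matrix.transpose_mul, rv_transpose, hg.pc_symm hk,
      Dg_transpose] at this
  unfold KK
  rw [rv_add, rv_mul, rv_Dg]
  congr 1
  · rw [rv_sum]
    refine Finset.sum_congr rfl fun C hC => ?_
    rw [rv_sum]
    refine Finset.sum_congr rfl fun x hx => ?_
    rw [rv_sum]
    refine Finset.sum_congr rfl fun y hy => ?_
    rw [rv_smul, rv_mul, rv_mul, rv_Dg, hl C hC x hx, mul_assoc, hr C hC y hy, ← mul_assoc]
  · congr 1
    rw [rv_sum]
    have e1 : ∀ C ∈ Lv M k, rv (∑ C' ∈ (Lv M k).erase C, d C C' • (P N M k C * rv (P N M k C'))) =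
        ∑ C' ∈ Lv M k, if C ≠ C' then d C C' • (P N M k C' * rv (P N M k C)) else 0 := by
      intro C _
      rw [rv_sum, ← Finset.sum_filter]
      have : (Lv M k).erase C = (Lv M k).filter fun C' => C ≠ C' := by
        ext C'
        simp only [mem_filter, mem_erase]
        constructor
        · rintro ⟨h1, h2⟩
          exact ⟨h2, Ne.symm h1⟩
        · rintro ⟨h1, h2⟩
          exact ⟨Ne.symm h2, h1⟩
      rw [this]
      refine Finset.sum_congr rfl fun C' _ => ?_
      rw [rv_smul, rv_mul, rv_rv, ← rv_comm (hg.al C').2 (hg.al C).2]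
    rw [Finset.sum_congr rfl e1, Finset.sum_comm]
    refine Finset.sum_congr rfl fun C' _ => ?_
    rw [← Finset.sum_filter]
    refine Finset.sum_congr ?_ fun _ _ => rfl
    ext C
    simp only [mem_filter, mem_erase]
    constructor
    · rintro ⟨h1, h2⟩
      exact ⟨h2, h1⟩
    · rintro ⟨h1, h2⟩
      exact ⟨h2, h1⟩

/-- **the pairs with the marked point at the same place (column)** -/
theorem KK_col (hM : N < M) (hn : k + 1 < N) (b : Finset ℕ → ℕ → ℕ → ℝ)
    (d : Finset ℕ → Finset ℕ → ℝ) :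
    Dg N (k + 1) * rv (U (s k hn)) * KK N M (k + 1) b d * rv (U (s k hn)) * Dg N (k + 1) =
      rv (T1 N M k (rowF b (fun C C' => d C' C))) * Dg N (k + 1) := by
  have h := congrArg rv (KK_row hM hn b (fun C C' => d C' C))
  have h2 := rv_KK (N := N) hM hn b (fun C C' => d C' C)
  rw [rv_mul, rv_mul, rv_mul, rv_mul, rv_Dg, h2, rv_mul, rv_Dg] at h
  exact h

/-- the kernel commutes with the left multiplication by the elements of `S_k` -/
theorem KK_left (hM : N < M) (hk : k < N) (b : Finset ℕ → ℕ → ℕ → ℝ)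
    (d : Finset ℕ → Finset ℕ → ℝ) {σ : Perm (Fin N)} (hσ : Sn k σ) :
    U σ * KK N M k b d = KK N M k b d * U σ := by
  have hg := good (N := N) hM k hk.le
  have hU : Al k (U σ) := Al_U hσ
  have cP : ∀ C ∈ Lv M k, U σ * P N M k C = P N M k C * U σ := fun C hC =>
    P_comm_Al hM hk.le hC hU
  have cc : ∀ C ∈ Lv M k, ∀ x, U σ * Pc N M k C x = Pc N M k C x * U σ := fun C hC x =>
    pc_comm hM hk hC x hU
  have cD : U σ * Dg N k = Dg N k * U σ := (Dg_comm le_rfl hU.1).symm
  have cD1 : U σ * Dg N (k + 1) = Dg N (k + 1) * U σ := (Dg_comm (Nat.le_succ k) hU.1).symm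
  have cr : ∀ C, U σ * rv (P N M k C) = rv (P N M k C) * U σ := fun C =>
    rvP_comm hM hk.le C hU.2
  unfold KK
  rw [mul_add, add_mul]
  congr 1
  · simp only [Finset.mul_sum, Finset.sum_mul]
    refine Finset.sum_congr rfl fun C hC => Finset.sum_congr rfl fun x hx =>
      Finset.sum_congr rfl fun y hy => ?_
    rw [Matrix.mul_smul, Matrix.smul_mul]
    congr 1
    calc U σ * (Pc N M k C x * Dg N k * Pc N M k C y) =
        (U σ * Pc N M k C x) * Dg N k * Pc N M k C y := by noncomm_ring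
      _ = Pc N M k C x * (U σ * Dg N k) * Pc N M k C y := by rw [cc C hC]; noncomm_ring
      _ = Pc N M k C x * Dg N k * (U σ * Pc N M k C y) := by rw [cD]; noncomm_ring
      _ = _ := by rw [cc C hC]; noncomm_ring
  · rw [mul_assoc (∑ C ∈ Lv M k, ∑ C' ∈ (Lv M k).erase C, d C C' •
      (P N M k C * rv (P N M k C'))), ← cD1, ← mul_assoc, ← mul_assoc]
    congr 1
    simp only [Finset.mul_sum, Finset.sum_mul]
    refine Finset.sum_congr rfl fun C hC => Finset.sum_congr rfl fun C' _ => ?_
    rw [Matrix.mul_smul, Matrix.smul_mul, ← mul_assoc, cP C hC, mul_assoc, cr, ← mul_assoc]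

/-- the kernel commutes with the right multiplication by the elements of `S_k` -/
theorem KK_right (hM : N < M) (hk : k < N) (b : Finset ℕ → ℕ → ℕ → ℝ)
    (d : Finset ℕ → Finset ℕ → ℝ) {σ : Perm (Fin N)} (hσ : Sn k σ) :
    rv (U σ) * KK N M k b d = KK N M k b d * rv (U σ) := by
  have h := congrArg rv (KK_left hM hk b (fun C C' => d C' C) hσ)
  have h2 := rv_KK (N := N) hM hk b (fun C C' => d C' C)
  rw [rv_mul, rv_mul, h2] at h
  exact h

/-- transposition -/
theorem KK_transpose (hM : N < M) (hk : k < N) {b : Finset ℕ → ℕ → ℕ → ℝ}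
    (d : Finset ℕ → Finset ℕ → ℝ) (hb : ∀ C ∈ Lv M k, ∀ x ∈ ad C, ∀ y ∈ ad C, b C x y = b C y x) :
    (KK N M k b d).transpose = KK N M k b d := by
  have hg := good (N := N) hM k hk.le
  have hg1 := good (N := N) hM (k + 1) (by omega)
  unfold KK
  rw [Matrix.transpose_add]
  congr 1
  · rw [Matrix.transpose_sum]
    refine Finset.sum_congr rfl fun C hC => ?_
    rw [Matrix.transpose_sum, Finset.sum_comm]
    have e1 : ∀ x ∈ ad C, (∑ y ∈ ad C, b C x y • (Pc N M k C x * Dg N k *
        Pc N M k C y)).transpose = ∑ y ∈ ad C, b C y x • (Pc N M k C y * Dg N k *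
        Pc N M k C x) := by
      intro x hx
      rw [Matrix.transpose_sum]
      refine Finset.sum_congr rfl fun y hy => ?_
      rw [Matrix.transpose_smul, Matrix.transpose_mul, Matrix.transpose_mul, hg.pc_symm hk,
        hg.pc_symm hk, Dg_transpose, hb C hC x hx y hy, mul_assoc]
    rw [Finset.sum_congr rfl e1]
  · rw [Matrix.transpose_mul, Dg_transpose, Matrix.transpose_sum]
    have e2 : ∀ C ∈ Lv M k, (∑ C' ∈ (Lv M k).erase C, d C C' •
        (P N M k C * rv (P N M k C'))).transpose = ∑ C' ∈ (Lv M k).erase C, d C C' •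
        (P N M k C * rv (P N M k C')) := by
      intro C _
      rw [Matrix.transpose_sum]
      refine Finset.sum_congr rfl fun C' _ => ?_
      rw [Matrix.transpose_smul, Matrix.transpose_mul, rv_transpose, hg.symm, hg.symm,
        ← rv_comm (hg.al C).2 (hg.al C').2]
    rw [Finset.sum_congr rfl e2, Finset.mul_sum, Finset.sum_mul]
    refine Finset.sum_congr rfl fun C _ => ?_
    rw [Finset.mul_sum, Finset.sum_mul]
    refine Finset.sum_congr rfl fun C' _ => ?_
    rw [Matrix.mul_smul, Matrix.smul_mul]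
    congr 1
    have c1 : Dg N (k + 1) * P N M k C = P N M k C * Dg N (k + 1) :=
      Dg_P_comm hM (Nat.le_succ k) hk.le C
    have c2 : Dg N (k + 1) * rv (P N M k C') = rv (P N M k C') * Dg N (k + 1) :=
      Dg_rvP_comm hM (Nat.le_succ k) hk.le C'
    rw [← mul_assoc, c1, mul_assoc, c2, ← mul_assoc]

end sym

end Pool.JM
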