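import Pool.Agent.Work.MP_46fa68_27.AnGap
import Pool.Agent.Work.MP_46fa68_86.Unif

/-!
# MP_46fa68_co, range (P): assembly of the pair triple for one `t` (helper82, after helper27's AnGap)

`t = m - 1`, `N = 2 t` boxes.  `a = ca + HI (wall t+1, lifts t-1)`, `b = cb + HI (wall t, lifts t)`,
`c = cc + HI (wall t+1, lifts t-1)`, `v = HI (wall t-1, lifts t+1)`.  Off the rare shapes `0 ≤ a`, `0 ≤ c`,
`b ^ 2 ≤ a c`, `|v| ≤ c1`.  One triple gives a gap for every scaling `l` of `a` against `c`.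
-/

set_option autoImplicit false

open Finset Equiv

namespace Pool.TW.H82

open Pool.JM Pool.JM.Rare Pool.OS Pool.OB Pool.TW Pool.TW.H27

/-- **The gap from families of size exactly `(n - t)!`.** -/
theorem gap_of_one {n t : ℕ} {β p : ℝ} (hβ0 : 0 ≤ β) (hp1 : p ≤ 1)
    (hg : 1 < (p - β) * ((n - t).factorial : ℝ))
    (h : ∀ A : Finset (Perm (Fin n)), EG.TInt t A → A.card = (n - t).factorial → ∀ x y : Fin n,
      β * ((n - t).factorial : ℝ) < ((EG.thr A x y).card : ℝ) →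
      ((EG.thr A x y).card : ℝ) < p * ((n - t).factorial : ℝ) → False) :
    EG.Gap n t 1 β p := by
  intro A hA hc x y
  by_contra hcon
  push Not at hcon
  obtain ⟨h1, h2⟩ := hcon
  rw [one_mul] at hc
  have hc' : (n - t).factorial ≤ A.card := by exact_mod_cast hc
  have hsub : EG.thr A x y ⊆ A := filter_subset _ _
  obtain ⟨X', Y', a1, a2, a3, a4, a5⟩ := EG.cut_nat hβ0 hp1 hg (A.card - (n - t).factorial) A.card
    (EG.thr A x y).card (by omega) (card_le_card hsub) h1 h2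
  obtain ⟨Q, hQ1, hQ2⟩ := exists_subset_card_eq a1
  have hY : Y' ≤ (A \ EG.thr A x y).card := by
    rw [card_sdiff_of_subset hsub]
    exact a2
  obtain ⟨V, hV1, hV2⟩ := exists_subset_card_eq hY
  have hdisj : Disjoint Q V := by
    rw [Finset.disjoint_left]
    intro σ h3 h4
    exact (mem_sdiff.1 (hV1 h4)).2 (hQ1 h3)
  have hA' : Q ∪ V ⊆ A := union_subset (hQ1.trans hsub) (hV1.trans sdiff_subset)
  have hcard : (Q ∪ V).card = (n - t).factorial := by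
    rw [card_union_of_disjoint hdisj, hQ2, hV2, a3]
  have hthr : EG.thr (Q ∪ V) x y = Q := by
    ext σ
    unfold EG.thr
    rw [mem_filter, mem_union]
    constructor
    · rintro ⟨h3 | h3, h4⟩
      · exact h3
      · exact absurd (mem_filter.2 ⟨(mem_sdiff.1 (hV1 h3)).1, h4⟩) (mem_sdiff.1 (hV1 h3)).2
    · intro h3
      exact ⟨Or.inl h3, (mem_filter.1 (hQ1 h3)).2⟩
  have hTI : EG.TInt t (Q ∪ V) := fun σ hσ τ hτ => hA σ (hA' hσ) τ (hA' hτ)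
  refine h (Q ∪ V) hTI hcard x y ?_ ?_
  · rw [hthr, hQ2]
    exact a4
  · rw [hthr, hQ2]
    exact a5

/-- the end inequality: `z` = density, `E` = loss of the fibres with many marks, `l` = scaling -/
noncomputable def psi (k : ℕ) (p0 s11 q0 s12 r0 s22 E l z : ℝ) : ℝ :=
  l * p0 * z + (l⁻¹ * r0 + 2 * q0) / k * (1 - z) - l * s11 * z ^ 2 -
    2 * (s12 * (k + 1) / k) * (z * (1 - z) - E) - l⁻¹ * s22 / k ^ 2 * (1 - z) ^ 2

variable {n k t : ℕ}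

/-- **The inequality of a pair certificate for the families of size exactly `(n - t)!`.** -/
theorem psi_nonneg {p0 s11 q0 s12 r0 s22 C l : ℝ} (hN : n + 1 = k + t) (hk : k + 1 ≤ n)
    (hk1 : 1 ≤ k) (hq0 : 0 ≤ q0) (hr0 : 0 ≤ r0) (hs : 0 ≤ s12) (h22 : s22 ≤ 0)
    (H : ∀ δ : ℝ, 0 < δ → PCert n k p0 s11 q0 s12 r0 s22 δ)
    (hC : CB (n + 1) (t + 1) (C * ((k + 1).factorial : ℝ) ^ 2)) (hl : 0 < l)
    (A : Finset (Perm (Fin (n + 1 + 1)))) (hA : EG.TInt t A)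
    (hc : A.card = (n + 1 + 1 - t).factorial) (x y : Fin (n + 1 + 1)) (z : ℝ)
    (hz : ((EG.thr A x y).card : ℝ) = z * ((n + 1 + 1 - t).factorial : ℝ)) :
    0 ≤ psi k p0 s11 q0 s12 r0 s22 (t * C) l z := by
  obtain ⟨A', hA1, hA2, hA3⟩ := exists_move A x y
  have hA4 : ∀ σ ∈ A', ∀ τ ∈ A', t ≤ ag σ τ := hA3 t hA
  rw [show n + 1 + 1 - t = k + 1 by omega] at hc hz
  have e0 : ((EG.thr A x y).card : ℝ) = ((Qs A').card : ℝ) := by
    rw [hA2]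
    rfl
  rw [e0] at hz
  rw [← hA1] at hc
  have hk0 : (0 : ℝ) < k := by exact_mod_cast (show 0 < k by omega)
  have hi : 0 < l⁻¹ := inv_pos.2 hl
  have u1 := card_off hN A'
  have u2 := off_le (k := k) A'
  have u3 := hC (Qs A') (Bp k (Ws A')) fun σ hσ τ hτ =>
    (fib A' hA4).cross_big hN hσ (mem_filter.1 hτ).2
  have hT := TC_lim hN hk hk1 hq0 (mul_nonneg hi.le hr0) (PCert_scale H hl) A' hA4
  have u1' : (A'.card : ℝ) ≤
      ((Qs A').card : ℝ) + ((TW.off k A' : ℝ) + t * ((Bp k (Ws A')).card : ℝ)) := by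
    exact_mod_cast u1
  have u2' : ((Qs A').card : ℝ) + (TW.off k A' : ℝ) ≤ (A'.card : ℝ) := by exact_mod_cast u2
  have hc' : (A'.card : ℝ) = ((k + 1).factorial : ℝ) := by exact_mod_cast hc
  have hB0 : (0 : ℝ) ≤ ((Bp k (Ws A')).card : ℝ) := Nat.cast_nonneg _
  have hY0 : (0 : ℝ) ≤ (TW.off k A' : ℝ) := Nat.cast_nonneg _
  have hX0 : (0 : ℝ) ≤ ((Qs A').card : ℝ) := Nat.cast_nonneg _
  obtain ⟨X, hX⟩ : ∃ X : ℝ, X = ((Qs A').card : ℝ) := ⟨_, rfl⟩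
  obtain ⟨Y, hY⟩ : ∃ Y : ℝ, Y = (TW.off k A' : ℝ) := ⟨_, rfl⟩
  obtain ⟨D, hD⟩ : ∃ D : ℝ, D = ((Bp k (Ws A')).card : ℝ) := ⟨_, rfl⟩
  obtain ⟨F, hF⟩ : ∃ F : ℝ, F = ((k + 1).factorial : ℝ) := ⟨_, rfl⟩
  have hF0 : 0 < F := by rw [hF]; exact_mod_cast (k + 1).factorial_pos
  rw [← hX, ← hY, ← hF] at hT
  rw [← hX, ← hY, ← hD] at u1'
  rw [← hX, ← hY] at u2'
  rw [← hX, ← hD, ← hF] at u3
  rw [← hX, ← hF] at hz
  rw [← hF] at hc'
  rw [hc'] at u1' u2'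
  rw [← hY] at hY0
  rw [← hX] at hX0
  rw [← hD] at hB0
  clear hX hY hD
  -- normalise
  obtain ⟨w, hw⟩ : ∃ w : ℝ, w = Y / F := ⟨_, rfl⟩
  have hYw : Y = w * F := by rw [hw, div_mul_cancel₀ _ hF0.ne']
  obtain ⟨e, he⟩ : ∃ e : ℝ, e = D / F := ⟨_, rfl⟩
  have hDe : D = e * F := by rw [he, div_mul_cancel₀ _ hF0.ne']
  have hz0 : 0 ≤ z := by
    rw [hz] at hX0
    exact nonneg_of_mul_nonneg_left hX0 hF0
  have hw0 : 0 ≤ w := by
    rw [hYw] at hY0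
    exact nonneg_of_mul_nonneg_left hY0 hF0
  have w1 : z + w ≤ 1 := by
    rw [hz, hYw] at u2'
    have : (z + w) * F ≤ 1 * F := by linarith
    exact le_of_mul_le_mul_right this hF0
  have w2 : 1 ≤ z + w + t * e := by
    rw [hz, hYw, hDe] at u1'
    have : 1 * F ≤ (z + w + t * e) * F := by linarith
    exact le_of_mul_le_mul_right this hF0
  have w3 : z * e ≤ C := by
    rw [hz, hDe] at u3
    have : z * e * F ^ 2 ≤ C * F ^ 2 := by
      calc z * e * F ^ 2 = z * F * (e * F) := by ring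
        _ ≤ _ := u3
    exact le_of_mul_le_mul_right this (by positivity)
  have w4 : z * (1 - z) - t * C ≤ z * w := by
    have h1 := mul_le_mul_of_nonneg_left w2 hz0
    have h2 : (t : ℝ) * (z * e) ≤ t * C := mul_le_mul_of_nonneg_left w3 (Nat.cast_nonneg t)
    nlinarith
  have hT2 : 0 ≤ (l * p0) * z + (l⁻¹ * r0 + 2 * q0) / k * w -
      ((l * s11) * z ^ 2 + 2 * (s12 * (k + 1) / k) * (z * w) + l⁻¹ * s22 / k ^ 2 * w ^ 2) := by
    rw [hz, hYw] at hT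
    have e1 : (l * p0 * (z * F) + (l⁻¹ * r0 + 2 * q0) / k * (w * F)) -
        (l * s11 * (z * F) ^ 2 + 2 * (s12 * (k + 1) / k) * (z * F) * (w * F) +
          l⁻¹ * s22 / k ^ 2 * (w * F) ^ 2) / F =
        F * ((l * p0) * z + (l⁻¹ * r0 + 2 * q0) / k * w -
      ((l * s11) * z ^ 2 + 2 * (s12 * (k + 1) / k) * (z * w) + l⁻¹ * s22 / k ^ 2 * w ^ 2)) := by
      field_simp
    rw [e1] at hT
    exact nonneg_of_mul_nonneg_right hT hF0
  have i1 : (l⁻¹ * r0 + 2 * q0) / k * w ≤ (l⁻¹ * r0 + 2 * q0) / k * (1 - z) := by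
    refine mul_le_mul_of_nonneg_left (by linarith) ?_
    have : 0 ≤ l⁻¹ * r0 := mul_nonneg hi.le hr0
    positivity
  have i2 : (s12 * (k + 1) / k) * (z * (1 - z) - t * C) ≤ (s12 * (k + 1) / k) * (z * w) :=
    mul_le_mul_of_nonneg_left w4 (by positivity)
  have i3 : l⁻¹ * s22 / k ^ 2 * (1 - z) ^ 2 ≤ l⁻¹ * s22 / k ^ 2 * w ^ 2 := by
    have h1 : l⁻¹ * s22 / k ^ 2 ≤ 0 :=
      div_nonpos_of_nonpos_of_nonneg (mul_nonpos_of_nonneg_of_nonpos hi.le h22) (by positivity)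
    have h2 : w ^ 2 ≤ (1 - z) ^ 2 := pow_le_pow_left₀ hw0 (by linarith) 2
    exact mul_le_mul_of_nonpos_left h2 h1
  unfold psi
  linarith

/-- convexity of the end inequality -/
theorem psi_lt {p0 s11 q0 s12 r0 s22 E l β p z : ℝ}
    (hconv : 0 < -(l * s11) + 2 * (s12 * (k + 1) / k) - l⁻¹ * s22 / k ^ 2)
    (h1 : psi k p0 s11 q0 s12 r0 s22 E l β ≤ 0) (h2 : psi k p0 s11 q0 s12 r0 s22 E l p ≤ 0)
    (hz1 : β < z) (hz2 : z < p) : psi k p0 s11 q0 s12 r0 s22 E l z < 0 := by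
  have e : (p - β) * psi k p0 s11 q0 s12 r0 s22 E l z =
      (p - z) * psi k p0 s11 q0 s12 r0 s22 E l β + (z - β) * psi k p0 s11 q0 s12 r0 s22 E l p -
      (-(l * s11) + 2 * (s12 * (k + 1) / k) - l⁻¹ * s22 / k ^ 2) *
        ((z - β) * (p - z) * (p - β)) := by
    unfold psi
    ring
  have h3 : (p - z) * psi k p0 s11 q0 s12 r0 s22 E l β ≤ 0 :=
    mul_nonpos_of_nonneg_of_nonpos (by linarith) h1
  have h4 : (z - β) * psi k p0 s11 q0 s12 r0 s22 E l p ≤ 0 :=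
    mul_nonpos_of_nonneg_of_nonpos (by linarith) h2
  have h5 : 0 < (-(l * s11) + 2 * (s12 * (k + 1) / k) - l⁻¹ * s22 / k ^ 2) *
      ((z - β) * (p - z) * (p - β)) := by
    refine mul_pos hconv (mul_pos (mul_pos ?_ ?_) ?_) <;> linarith
  have h6 : (p - β) * psi k p0 s11 q0 s12 r0 s22 E l z < 0 := by rw [e]; linarith
  by_contra hneg
  rw [not_lt] at hneg
  have : 0 ≤ (p - β) * psi k p0 s11 q0 s12 r0 s22 E l z := mul_nonneg (by linarith) hneg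
  linarith

/-- **The gap of a pair certificate**, two end inequalities. -/
theorem gap_of_PCert {p0 s11 q0 s12 r0 s22 C l β p : ℝ} (hN : n + 1 = k + t) (hk : k + 1 ≤ n)
    (hk1 : 1 ≤ k) (hq0 : 0 ≤ q0) (hr0 : 0 ≤ r0) (hs : 0 ≤ s12) (h22 : s22 ≤ 0)
    (H : ∀ δ : ℝ, 0 < δ → PCert n k p0 s11 q0 s12 r0 s22 δ)
    (hC : CB (n + 1) (t + 1) (C * ((k + 1).factorial : ℝ) ^ 2)) (hl : 0 < l)
    (hβ0 : 0 ≤ β) (hp1 : p ≤ 1) (hg : 1 < (p - β) * ((n + 1 + 1 - t).factorial : ℝ))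
    (hconv : 0 < -(l * s11) + 2 * (s12 * (k + 1) / k) - l⁻¹ * s22 / k ^ 2)
    (h1 : psi k p0 s11 q0 s12 r0 s22 (t * C) l β ≤ 0)
    (h2 : psi k p0 s11 q0 s12 r0 s22 (t * C) l p ≤ 0) : EG.Gap (n + 1 + 1) t 1 β p := by
  refine gap_of_one hβ0 hp1 hg fun A hA hc x y a1 a2 => ?_
  have hF0 : (0 : ℝ) < ((n + 1 + 1 - t).factorial : ℝ) := by exact_mod_cast Nat.factorial_pos _
  obtain ⟨z, hz⟩ : ∃ z : ℝ, z = ((EG.thr A x y).card : ℝ) / ((n + 1 + 1 - t).factorial : ℝ) :=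
    ⟨_, rfl⟩
  have hz' : ((EG.thr A x y).card : ℝ) = z * ((n + 1 + 1 - t).factorial : ℝ) := by
    rw [hz, div_mul_cancel₀ _ hF0.ne']
  have b0 := psi_nonneg hN hk hk1 hq0 hr0 hs h22 H hC hl A hA hc x y z hz'
  rw [hz'] at a1 a2
  have b1 : β < z := lt_of_mul_lt_mul_right a1 hF0.le
  have b2 : z < p := lt_of_mul_lt_mul_right a2 hF0.le
  have b3 := psi_lt (k := k) hconv h1 h2 b1 b2
  linarith

theorem PCert.weak {p0 s11 s11' q0 s12 s12' r0 s22 s22' δ : ℝ}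
    (h : PCert n k p0 s11 q0 s12 r0 s22 δ) (h1 : s11' ≤ s11) (h2 : s12' ≤ s12)
    (h3 : s22' ≤ s22) : PCert n k p0 s11' q0 s12' r0 s22' δ := by
  obtain ⟨M, a0, b0, c0, a, b, c, q1, q2, q3, l1, l2, l3, hM, h4, h5, h6, h7, ⟨i1, i2, i3⟩,
    hB⟩ := h
  exact ⟨M, a0, b0, c0, a, b, c, q1, q2, q3, l1, l2, l3, hM, h4, h5, h6, h7,
    ⟨by linarith, by linarith, by linarith⟩, hB⟩

/-- the loss on the rare shapes, per class -/
theorem loss_cut {t μ i K m' : ℕ} (hμ : t = μ + i) {R : Finset (ℕ × ℕ)} (hR : Adm μ R)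
    (ht : 1 ≤ t) (hK : 2 * t < K) (F : Finset ℕ → ℝ) (Kf : ℕ × ℕ → ℝ) (hKf : ∀ l ∈ R, 0 ≤ Kf l)
    (hF : ∀ l ∈ R, ∀ B ∈ Lv K (2 * t), Cl2 l i K B → |F B| ≤ Kf l) :
    loss K m' (2 * t) F (fun B => if Rar R i K B then 0 else F B) ≤
      (m'.factorial : ℝ) / ((t + 1).factorial : ℝ) * ∑ l ∈ R, Kf l * cst μ l.1 l.2 0 := by
  subst hμ
  have h1 := loss_rare (m := m') hR (i := i) (M := K) hK (by omega)
      (a := F) (b := fun B => if Rar R i K B then 0 else F B) Kf hKf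
      (fun B _ h => if_neg h) (fun l hl B hB h => by
        have h2 : Rar R i K B := ⟨l, hl, h⟩
        rw [if_pos h2, zero_sub, abs_neg]
        exact hF l hl B hB h)
  exact h1

/-- **The range (P), one `t`: the pair certificate from the four one-bead functions.** -/
theorem cert_of_abc {t μ i p1 Qa Qb Qc Qv : ℕ} (hμ : t = μ + i) (ht : 3 ≤ t)
    (hQa : 2 ≤ Qa) (hQb : 2 ≤ Qb) (hQc : 2 ≤ Qc) (hQv : 2 ≤ Qv)
    (va vb vc vv : ℕ → ℕ → ℝ) (τa τb τc τv ca cb cc c1 ηa ηb ηc ηv q s11 s12 s22 : ℝ)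
    (hc1 : 0 ≤ c1)
    (hva : ∀ q p, p1 ≤ p → va q p = 0) (hvb : ∀ q p, p1 ≤ p → vb q p = 0)
    (hvc : ∀ q p, p1 ≤ p → vc q p = 0) (hvv : ∀ q p, p1 ≤ p → vv q p = 0)
    (h0a : ∑ p ∈ range p1, va 0 p * r1 (t + 1) p = 0)
    (h0b : ∑ p ∈ range p1, vb 0 p * r1 t p = 0)
    (h0c : ∑ p ∈ range p1, vc 0 p * r1 (t + 1) p = 0)
    (h0v : ∑ p ∈ range p1, vv 0 p * r1 (t - 1) p = 0)
    (hs11 : s11 ≤ -sv (t + 1) p1 (va 1) - ηa) (hs12 : s12 ≤ -sv t p1 (vb 1) - ηb)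
    (hs22 : s22 ≤ -sv (t + 1) p1 (vc 1) - ηc)
    (hq : 0 < q) (hq1 : q < sv (t - 1) p1 (vv 1) - ηv)
    {R : Finset (ℕ × ℕ)} (hR : Adm μ R) (Ka Kb Kc Kv : ℕ × ℕ → ℝ)
    (hKa : ∀ l ∈ R, 0 ≤ Ka l) (hKb : ∀ l ∈ R, 0 ≤ Kb l) (hKc : ∀ l ∈ R, 0 ≤ Kc l)
    (hKv : ∀ l ∈ R, 0 ≤ Kv l) {K₁ : ℕ}
    (H : ∀ K, K₁ ≤ K → ∀ B ∈ Lv K (2 * t), ¬ Rar R i K B →
      0 ≤ ca + HI K (t + 1) (t - 1) Qa va τa B ∧ 0 ≤ cc + HI K (t + 1) (t - 1) Qc vc τc B ∧
      (cb + HI K t t Qb vb τb B) ^ 2 ≤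
        (ca + HI K (t + 1) (t - 1) Qa va τa B) * (cc + HI K (t + 1) (t - 1) Qc vc τc B) ∧
      |HI K (t - 1) (t + 1) Qv vv τv B| ≤ c1)
    (HR : ∀ K, K₁ ≤ K → ∀ l ∈ R, ∀ B ∈ Lv K (2 * t), Cl2 l i K B →
      |ca + HI K (t + 1) (t - 1) Qa va τa B| ≤ Ka l ∧ |cb + HI K t t Qb vb τb B| ≤ Kb l ∧
      |cc + HI K (t + 1) (t - 1) Qc vc τc B| ≤ Kc l ∧
      |HI K (t - 1) (t + 1) Qv vv τv B| ≤ Kv l)
    (hηa : ∑ l ∈ R, Ka l * cst μ l.1 l.2 0 ≤ ηa)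
    (hηb : ∑ l ∈ R, Kb l * cst μ l.1 l.2 0 ≤ (t + 1) * ηb)
    (hηc : ∑ l ∈ R, Kc l * cst μ l.1 l.2 0 ≤ ηc)
    (hηv : ∑ l ∈ R, Kv l * cst μ l.1 l.2 0 ≤ t * (t + 1) * ηv) :
    (∀ δ : ℝ, 0 < δ → PCert (2 * t - 1) t ca s11 cb s12 cc s22 δ) ∧
      CB (2 * t) (t + 1)
        ((c1 / q) ^ 2 / ((t : ℝ) * (t + 1)) ^ 2 * ((t + 1).factorial : ℝ) ^ 2) := by
  obtain ⟨u, rfl⟩ : ∃ u, t = u + 1 := ⟨t - 1, by omega⟩
  rw [Nat.add_sub_cancel] at *
  have eN : 2 * (u + 1) = 2 * u + 1 + 1 := by ring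
  have en : 2 * (u + 1) - 1 = 2 * u + 1 := by omega
  have f2 : (0 : ℝ) < ((u + 1 + 1).factorial : ℝ) := by exact_mod_cast Nat.factorial_pos _
  have f1 : (0 : ℝ) < ((u + 1).factorial : ℝ) := by exact_mod_cast Nat.factorial_pos _
  have f0 : (0 : ℝ) < ((u).factorial : ℝ) := by exact_mod_cast Nat.factorial_pos _
  have e2 : ((u + 1 + 1).factorial : ℝ) = (((u + 1 : ℕ) : ℝ) + 1) * ((u + 1).factorial : ℝ) := by
    rw [Nat.factorial_succ (u + 1)]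
    push_cast
    ring
  have e1 : ((u + 1).factorial : ℝ) = ((u + 1 : ℕ) : ℝ) * (u.factorial : ℝ) := by
    rw [Nat.factorial_succ u]
    push_cast
    ring
  have g2 : ((u + 1 + 1).factorial : ℝ) / ((u + 1 + 1).factorial : ℝ) = 1 := div_self f2.ne'
  have g1 : ((u + 1).factorial : ℝ) / ((u + 1 + 1).factorial : ℝ) * (((u + 1 : ℕ) : ℝ) + 1) = 1 := by
    rw [e2]
    field_simp
  have g0 : (u.factorial : ℝ) / ((u + 1 + 1).factorial : ℝ) *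
      (((u + 1 : ℕ) : ℝ) * (((u + 1 : ℕ) : ℝ) + 1)) = 1 := by
    rw [e2, e1]
    field_simp
  constructor
  · rw [en]
    have h := PCert_of_sources (n := 2 * u + 1) (k := u + 1) (u := u) (p1 := p1) (Qa := Qa)
      (Qb := Qb) (Qc := Qc) (by ring) (by omega) hQa hQb hQc va vb vc τa τb τc
      ca cb cc ηa ηb ηc hva hvb hvc h0a h0b h0c (K₁ := max K₁ (2 * u + 3)) (fun K hK => by
        have hK1 : K₁ ≤ K := (le_max_left _ _).trans hK
        have hK2 : 2 * u + 3 ≤ K := (le_max_right _ _).trans hK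
        refine ⟨fun B => if Rar R i K B then 0 else ca + HI K (u + 1 + 1) u Qa va τa B,
          fun B => if Rar R i K B then 0 else cb + HI K (u + 1) (u + 1) Qb vb τb B,
          fun B => if Rar R i K B then 0 else cc + HI K (u + 1 + 1) u Qc vc τc B, ?_, ?_, ?_, ?_⟩
        · intro B hB
          by_cases h : Rar R i K B
          · simp only [if_pos h]
            norm_num
          · simp only [if_neg h]
            rw [← eN] at hB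
            obtain ⟨h1, h2, h3, -⟩ := H K hK1 B hB h
            exact ⟨h1, h2, h3⟩
        · have h1 := loss_cut (m' := u + 1 + 1) hμ hR (by omega) (by omega : 2 * (u + 1) < K)
            (fun B => ca + HI K (u + 1 + 1) u Qa va τa B) Ka hKa
            (fun l hl B hB h => (HR K hK1 l hl B hB h).1)
          rw [g2, one_mul, eN] at h1
          exact h1.trans hηa
        · have h1 := loss_cut (m' := u + 1) hμ hR (by omega) (by omega : 2 * (u + 1) < K)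
            (fun B => cb + HI K (u + 1) (u + 1) Qb vb τb B) Kb hKb
            (fun l hl B hB h => (HR K hK1 l hl B hB h).2.1)
          rw [eN] at h1
          refine h1.trans ?_
          have h2 := mul_le_mul_of_nonneg_left hηb
            (div_nonneg f1.le f2.le : (0 : ℝ) ≤ ((u + 1).factorial : ℝ) / ((u + 1 + 1).factorial : ℝ))
          refine h2.trans (le_of_eq ?_)
          rw [← mul_assoc, g1, one_mul]
        · have h1 := loss_cut (m' := u + 1 + 1) hμ hR (by omega) (by omega : 2 * (u + 1) < K)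
            (fun B => cc + HI K (u + 1 + 1) u Qc vc τc B) Kc hKc
            (fun l hl B hB h => (HR K hK1 l hl B hB h).2.2.1)
          rw [g2, one_mul, eN] at h1
          exact h1.trans hηc)
    intro δ hδ
    exact PCert.weak (h δ hδ) hs11 hs12 hs22
  · have h := CB_of_source (n := 2 * u + 1) (m := u) (u := u + 1 + 1) (p1 := p1) (Q := Qv)
      (by ring) (by omega) (by omega) hQv (fun q p => -vv q p) (-τv) c1 ηv q
      (fun q p h => by rw [hvv q p h, neg_zero])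
      (by
        have e : ∑ p ∈ range p1, -vv 0 p * r1 u p = -∑ p ∈ range p1, vv 0 p * r1 u p := by
          rw [← sum_neg_distrib]
          exact sum_congr rfl fun p _ => by ring
        rw [e, h0v, neg_zero]) hq (by rw [sv_neg, neg_neg]; exact hq1)
      (K₁ := max K₁ (2 * u + 3)) (fun K hK => by
        have hK1 : K₁ ≤ K := (le_max_left _ _).trans hK
        have hK2 : 2 * u + 3 ≤ K := (le_max_right _ _).trans hK
        refine ⟨fun B => if Rar R i K B then 0 else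
          0 + HI K u (u + 1 + 1) Qv (fun q p => -vv q p) (-τv) B, ?_, ?_⟩
        · intro B hB
          by_cases h : Rar R i K B
          · simp only [if_pos h]
            rw [abs_zero]
            exact hc1
          · simp only [if_neg h]
            rw [zero_add, HI_neg, abs_neg]
            exact (H K hK1 B (by rw [eN]; exact hB) h).2.2.2
        · have h1 := loss_cut (m' := u) hμ hR (by omega) (by omega : 2 * (u + 1) < K)
            (fun B => 0 + HI K u (u + 1 + 1) Qv (fun q p => -vv q p) (-τv) B) Kv hKv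
            (fun l hl B hB h => by
              rw [zero_add, HI_neg, abs_neg]
              exact (HR K hK1 l hl B hB h).2.2.2)
          rw [eN] at h1
          refine h1.trans ?_
          have h2 := mul_le_mul_of_nonneg_left hηv
            (div_nonneg f0.le f2.le : (0 : ℝ) ≤ (u.factorial : ℝ) / ((u + 1 + 1).factorial : ℝ))
          refine h2.trans (le_of_eq ?_)
          rw [← mul_assoc, g0, one_mul])
    rw [eN]
    have e3 : (c1 / q) ^ 2 / (((u + 1 : ℕ) : ℝ) * (((u + 1 : ℕ) : ℝ) + 1)) ^ 2 *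
        (((u + 1 + 1).factorial : ℕ) : ℝ) ^ 2 = (c1 / q * u.factorial) ^ 2 := by
      rw [e2, e1]
      field_simp
    rw [e3]
    exact h

/-- **The range (P), one `t`: the gap.**  `H1 : cert_of_abc`. -/
theorem gap_of_abc {t : ℕ} (ht : 3 ≤ t) {ca s11 cb s12 cc s22 C : ℝ}
    (H1 : (∀ δ : ℝ, 0 < δ → PCert (2 * t - 1) t ca s11 cb s12 cc s22 δ) ∧
      CB (2 * t) (t + 1) (C * ((t + 1).factorial : ℝ) ^ 2))
    (hcb : 0 ≤ cb) (hcc : 0 ≤ cc) (hs : 0 ≤ s12) (h22 : s22 ≤ 0) {l β p : ℝ} (hl : 0 < l)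
    (hβ0 : 0 ≤ β) (hp1 : p ≤ 1) (hg : 1 < (p - β) * ((t + 1).factorial : ℝ))
    (hconv : 0 < -(l * s11) + 2 * (s12 * (t + 1) / t) - l⁻¹ * s22 / t ^ 2)
    (h1 : psi t ca s11 cb s12 cc s22 (t * C) l β ≤ 0)
    (h2 : psi t ca s11 cb s12 cc s22 (t * C) l p ≤ 0) : EG.Gap (2 * t + 1) t 1 β p := by
  obtain ⟨u, rfl⟩ : ∃ u, t = u + 1 := ⟨t - 1, by omega⟩
  obtain ⟨H2, H3⟩ := H1
  rw [show 2 * (u + 1) - 1 = 2 * u + 1 by omega] at H2
  rw [show 2 * (u + 1) = 2 * u + 1 + 1 by ring] at H3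
  have h := gap_of_PCert (n := 2 * u + 1) (k := u + 1) (t := u + 1) (by ring) (by omega)
    (by omega) hcb hcc hs h22 H2 H3 hl hβ0 hp1
    (by rw [show 2 * u + 1 + 1 + 1 - (u + 1) = u + 1 + 1 by omega]; exact hg) hconv h1 h2
  rw [show 2 * (u + 1) + 1 = 2 * u + 1 + 1 + 1 by ring]
  exact h

/-- the same with the opposite sign of `b`: `b = HI - cb`, value of `b` at the row `+ sv` -/
theorem cert_of_abc_neg {t μ i p1 Qa Qb Qc Qv : ℕ} (hμ : t = μ + i) (ht : 3 ≤ t)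
    (hQa : 2 ≤ Qa) (hQb : 2 ≤ Qb) (hQc : 2 ≤ Qc) (hQv : 2 ≤ Qv)
    (va vb vc vv : ℕ → ℕ → ℝ) (τa τb τc τv ca cb cc c1 ηa ηb ηc ηv q s11 s12 s22 : ℝ)
    (hc1 : 0 ≤ c1)
    (hva : ∀ q p, p1 ≤ p → va q p = 0) (hvb : ∀ q p, p1 ≤ p → vb q p = 0)
    (hvc : ∀ q p, p1 ≤ p → vc q p = 0) (hvv : ∀ q p, p1 ≤ p → vv q p = 0)
    (h0a : ∑ p ∈ range p1, va 0 p * r1 (t + 1) p = 0)
    (h0b : ∑ p ∈ range p1, vb 0 p * r1 t p = 0)
    (h0c : ∑ p ∈ range p1, vc 0 p * r1 (t + 1) p = 0)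
    (h0v : ∑ p ∈ range p1, vv 0 p * r1 (t - 1) p = 0)
    (hs11 : s11 ≤ -sv (t + 1) p1 (va 1) - ηa) (hs12 : s12 ≤ sv t p1 (vb 1) - ηb)
    (hs22 : s22 ≤ -sv (t + 1) p1 (vc 1) - ηc)
    (hq : 0 < q) (hq1 : q < sv (t - 1) p1 (vv 1) - ηv)
    {R : Finset (ℕ × ℕ)} (hR : Adm μ R) (Ka Kb Kc Kv : ℕ × ℕ → ℝ)
    (hKa : ∀ l ∈ R, 0 ≤ Ka l) (hKb : ∀ l ∈ R, 0 ≤ Kb l) (hKc : ∀ l ∈ R, 0 ≤ Kc l)
    (hKv : ∀ l ∈ R, 0 ≤ Kv l) {K₁ : ℕ}
    (H : ∀ K, K₁ ≤ K → ∀ B ∈ Lv K (2 * t), ¬ Rar R i K B →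
      0 ≤ ca + HI K (t + 1) (t - 1) Qa va τa B ∧ 0 ≤ cc + HI K (t + 1) (t - 1) Qc vc τc B ∧
      (HI K t t Qb vb τb B - cb) ^ 2 ≤
        (ca + HI K (t + 1) (t - 1) Qa va τa B) * (cc + HI K (t + 1) (t - 1) Qc vc τc B) ∧
      |HI K (t - 1) (t + 1) Qv vv τv B| ≤ c1)
    (HR : ∀ K, K₁ ≤ K → ∀ l ∈ R, ∀ B ∈ Lv K (2 * t), Cl2 l i K B →
      |ca + HI K (t + 1) (t - 1) Qa va τa B| ≤ Ka l ∧ |HI K t t Qb vb τb B - cb| ≤ Kb l ∧
      |cc + HI K (t + 1) (t - 1) Qc vc τc B| ≤ Kc l ∧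
      |HI K (t - 1) (t + 1) Qv vv τv B| ≤ Kv l)
    (hηa : ∑ l ∈ R, Ka l * cst μ l.1 l.2 0 ≤ ηa)
    (hηb : ∑ l ∈ R, Kb l * cst μ l.1 l.2 0 ≤ (t + 1) * ηb)
    (hηc : ∑ l ∈ R, Kc l * cst μ l.1 l.2 0 ≤ ηc)
    (hηv : ∑ l ∈ R, Kv l * cst μ l.1 l.2 0 ≤ t * (t + 1) * ηv) :
    (∀ δ : ℝ, 0 < δ → PCert (2 * t - 1) t ca s11 cb s12 cc s22 δ) ∧
      CB (2 * t) (t + 1)
        ((c1 / q) ^ 2 / ((t : ℝ) * (t + 1)) ^ 2 * ((t + 1).factorial : ℝ) ^ 2) := by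
  have e : ∀ K B, cb + HI K t t Qb (fun q p => -vb q p) (-τb) B =
      -(HI K t t Qb vb τb B - cb) := by
    intro K B
    rw [HI_neg]
    ring
  refine cert_of_abc hμ ht hQa hQb hQc hQv va (fun q p => -vb q p) vc vv τa (-τb) τc τv ca cb cc
    c1 ηa ηb ηc ηv q s11 s12 s22 hc1 hva (fun q p h => by rw [hvb q p h, neg_zero]) hvc hvv h0a ?_
    h0c h0v hs11 ?_ hs22 hq hq1 hR Ka Kb Kc Kv hKa hKb hKc hKv ?_ ?_ hηa hηb hηc hηv (K₁ := K₁)
  · have e1 : ∑ p ∈ range p1, -vb 0 p * r1 t p = -∑ p ∈ range p1, vb 0 p * r1 t p := by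
      rw [← sum_neg_distrib]
      exact sum_congr rfl fun p _ => by ring
    rw [e1, h0b, neg_zero]
  · rw [sv_neg, neg_neg]
    exact hs12
  · intro K hK B hB h
    rw [e, neg_sq]
    exact H K hK B hB h
  · intro K hK l hl B hB h
    rw [e, abs_neg]
    exact HR K hK l hl B hB h

end Pool.TW.H82
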