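import Pool.Agent.Work.MP_46fa68_82.Rst

/-! # The full marked kernel and its restriction

`GK N M k b g` is a kernel on `S_(k+1)` with marked point `k`, invariant under `S_k` from both sides. -/

set_option autoImplicit false

open Finset Equiv

namespace Pool.JM

variable {N M : ℕ}

section sums

theorem sum4 {α β γ δ V : Type*} [AddCommMonoid V] (s : Finset α) (t : Finset β) (u : Finset γ)
    (v : Finset δ) (f : α → β → γ → δ → V) :
    ∑ i ∈ s, ∑ j ∈ t, ∑ k ∈ u, ∑ l ∈ v, f i j k l =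
      ∑ k ∈ u, ∑ l ∈ v, ∑ i ∈ s, ∑ j ∈ t, f i j k l := by
  have e1 : ∀ i ∈ s, ∑ j ∈ t, ∑ k ∈ u, ∑ l ∈ v, f i j k l =
      ∑ k ∈ u, ∑ j ∈ t, ∑ l ∈ v, f i j k l := fun i _ => Finset.sum_comm
  rw [Finset.sum_congr rfl e1, Finset.sum_comm]
  refine Finset.sum_congr rfl fun k _ => ?_
  have e2 : ∀ i ∈ s, ∑ j ∈ t, ∑ l ∈ v, f i j k l = ∑ l ∈ v, ∑ j ∈ t, f i j k l :=
    fun i _ => Finset.sum_comm
  rw [Finset.sum_congr rfl e2, Finset.sum_comm]

theorem swap22 {α β γ δ V : Type*} [AddCommGroup V] [Module ℝ V] (s : Finset α) (t : Finset β)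
    (u : Finset γ) (v : Finset δ) (b : α → β → ℝ) (c : α → β → γ → δ → ℝ) (X : γ → δ → V) :
    ∑ i ∈ s, ∑ j ∈ t, b i j • ∑ k ∈ u, ∑ l ∈ v, c i j k l • X k l =
      ∑ k ∈ u, ∑ l ∈ v, (∑ i ∈ s, ∑ j ∈ t, b i j * c i j k l) • X k l := by
  simp only [Finset.smul_sum, smul_smul, Finset.sum_smul]
  exact sum4 s t u v _

theorem sum3 {α β γ V : Type*} [AddCommMonoid V] (s : Finset α) (t : Finset β) (u : Finset γ)
    (f : α → β → γ → V) :
    ∑ i ∈ s, ∑ j ∈ t, ∑ k ∈ u, f i j k = ∑ k ∈ u, ∑ i ∈ s, ∑ j ∈ t, f i j k := by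
  have e1 : ∀ i ∈ s, ∑ j ∈ t, ∑ k ∈ u, f i j k = ∑ k ∈ u, ∑ j ∈ t, f i j k :=
    fun i _ => Finset.sum_comm
  rw [Finset.sum_congr rfl e1, Finset.sum_comm]

end sums

open Classical in
/-- `L` covers the two different shapes `A`, `B` -/
noncomputable def cv (A B L : Finset ℕ) : ℝ := if A ≠ B ∧ Ab A L ∧ Ab B L then 1 else 0

open Classical in
/-- `ec` for different shapes -/
noncomputable def eo (A B L C : Finset ℕ) : ℝ := if A ≠ B then ec A B L C else 0

/-- rank one pieces -/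
noncomputable def Yb (N M k : ℕ) (K B C : Finset ℕ) : Mat N :=
  P N M (k + 1) B * P N M k K * Dg N k * (P N M k K * P N M (k + 1) C)

/-- block pieces -/
noncomputable def Yg (N M k : ℕ) (B K K' : Finset ℕ) : Mat N :=
  P N M (k + 1) B * P N M k K * rv (P N M k K') * Dg N (k + 1)

/-- first part of the kernel -/
noncomputable def GB (N M k : ℕ) (b : Finset ℕ → Finset ℕ → Finset ℕ → ℝ) : Mat N :=
  ∑ K ∈ Lv M k, ∑ B ∈ Lv M (k + 1), ∑ C ∈ Lv M (k + 1), b K B C • Yb N M k K B C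

/-- second part of the kernel -/
noncomputable def GG (N M k : ℕ) (g : Finset ℕ → Finset ℕ → Finset ℕ → ℝ) : Mat N :=
  ∑ B ∈ Lv M (k + 1), ∑ K ∈ Lv M k, ∑ K' ∈ Lv M k, g B K K' • Yg N M k B K K'

section res

variable {k : ℕ}

theorem GB_add (b b' : Finset ℕ → Finset ℕ → Finset ℕ → ℝ) :
    GB N M k (fun K B C => b K B C + b' K B C) = GB N M k b + GB N M k b' := by
  unfold GB
  simp only [add_smul, Finset.sum_add_distrib]

theorem GG_add (g g' : Finset ℕ → Finset ℕ → Finset ℕ → ℝ) :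
    GG N M k (fun K B C => g K B C + g' K B C) = GG N M k g + GG N M k g' := by
  unfold GG
  simp only [add_smul, Finset.sum_add_distrib]

theorem cj_transpose (hn : k + 1 < N) :
    (U (s k hn) * rv (U (s k hn))).transpose = U (s k hn) * rv (U (s k hn)) := by
  rw [Matrix.transpose_mul, rv_transpose, U_transpose, s_inv, cj_comm]

/-- the restricted column -/
noncomputable def Qm (N M k : ℕ) (hn : k + 1 < N) (A L : Finset ℕ) : Mat N :=
  Dg N (k + 1) * (U (s k hn) * rv (U (s k hn))) * (P N M (k + 2) L * P N M (k + 1) A) *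
    Dg N (k + 1)

theorem Qm_eq (hM : N < M) (hn : k + 1 < N) {A L : Finset ℕ} (hA : A ∈ Lv M (k + 1))
    (hL : L ∈ Lv M (k + 2)) :
    Qm N M k hn A L =
      wt A L • (Th82 N M k A L * rv (Th82 N M k A L) * (P N M (k + 1) A * Dg N (k + 1))) +
      ∑ B ∈ Lv M (k + 1), cv B A L • (P N M (k + 1) B * Dg N k * P N M (k + 1) A) := by
  classical
  unfold Qm
  rw [R1 hM hn hA hL]
  congr 1
  refine Finset.sum_congr rfl fun B _ => ?_
  unfold cv
  by_cases h : B ≠ A ∧ Ab B L ∧ Ab A L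
  · rw [if_pos h, if_pos h, one_smul]
  · rw [if_neg h, if_neg h, zero_smul]

theorem Th_symm (hM : N < M) (hk : k ≤ N) (A L : Finset ℕ) :
    (Th82 N M k A L).transpose = Th82 N M k A L := by
  unfold Th82
  rw [Matrix.transpose_sum]
  refine Finset.sum_congr rfl fun K _ => ?_
  rw [Matrix.transpose_smul, (good (N := N) hM k hk).symm]

theorem Th_Th (hM : N < M) (hk : k ≤ N) (A L L' : Finset ℕ) :
    Th82 N M k A L * Th82 N M k A L' = ∑ K ∈ Lv M k, (ri K A L * ri K A L') • P N M k K := by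
  have hg := good (N := N) hM k hk
  unfold Th82
  rw [Finset.sum_mul]
  refine Finset.sum_congr rfl fun K hK => ?_
  rw [Finset.mul_sum, Finset.sum_eq_single K]
  · rw [Matrix.smul_mul, Matrix.mul_smul, hg.idem, smul_smul]
  · intro K' _ hne
    rw [Matrix.smul_mul, Matrix.mul_smul, hg.orth _ _ (Ne.symm hne), smul_zero, smul_zero]
  · intro h
    exact absurd hK h

/-- `P_B P_K D P_C = P_B P_K D P_K P_C` -/
theorem Yb_eq (hM : N < M) (hk : k < N) (K B C : Finset ℕ) :
    P N M (k + 1) B * P N M k K * Dg N k * P N M (k + 1) C = Yb N M k K B C := by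
  have hg := good (N := N) hM k hk.le
  have c : Dg N k * P N M k K = P N M k K * Dg N k := Dg_P_comm hM le_rfl hk.le K
  unfold Yb
  calc P N M (k + 1) B * P N M k K * Dg N k * P N M (k + 1) C =
      P N M (k + 1) B * (P N M k K * P N M k K) * Dg N k * P N M (k + 1) C := by rw [hg.idem]
    _ = P N M (k + 1) B * P N M k K * (P N M k K * Dg N k) * P N M (k + 1) C := by noncomm_ring
    _ = _ := by rw [← c]; noncomm_ring

theorem E_Pwt (hM : N < M) (hk : k < N) (A : Finset ℕ) :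
    E k (P N M (k + 1) A) = ∑ K ∈ Lv M k, wt K A • P N M k K := by
  rw [E_P hk hM, Finset.sum_sigma]
  refine Finset.sum_congr rfl fun K _ => ?_
  unfold wt
  rw [Finset.sum_smul]
  refine Finset.sum_congr rfl fun x _ => ?_
  split_ifs
  · rfl
  · rw [zero_smul]

/-- **restriction of the rank one pieces** -/
theorem R5 (hM : N < M) (hn : k + 1 < N) {A L L' : Finset ℕ} (hA : A ∈ Lv M (k + 1))
    (hL : L ∈ Lv M (k + 2)) (hL' : L' ∈ Lv M (k + 2)) :
    Dg N (k + 1) * (U (s k hn) * rv (U (s k hn))) * Yb N M (k + 1) A L L' *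
      (U (s k hn) * rv (U (s k hn))) * Dg N (k + 1) =
    ∑ K ∈ Lv M k, ∑ K' ∈ Lv M k, (wt A L * wt A L' * (ri K A L * ri K A L' *
      (ri K' A L * ri K' A L'))) • Yg N M k A K K' +
    ∑ C ∈ Lv M (k + 1), ∑ K ∈ Lv M k, (wt A L * ri K A L ^ 2 * cv C A L') • Yb N M k K A C +
    ∑ B ∈ Lv M (k + 1), ∑ K ∈ Lv M k, (cv B A L * (wt A L' * ri K A L' ^ 2)) • Yb N M k K B A +
    ∑ B ∈ Lv M (k + 1), ∑ C ∈ Lv M (k + 1), ∑ K ∈ Lv M k,
      (cv B A L * cv C A L' * wt K A) • Yb N M k K B C := by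
  have hg1 := good (N := N) hM (k + 1) hn.le
  have hg0 := good (N := N) hM k (by omega)
  set D1 : Mat N := Dg N (k + 1) with hD1
  set D0 : Mat N := Dg N k with hD0
  set PA : Mat N := P N M (k + 1) A with hPA
  set cj : Mat N := U (s k hn) * rv (U (s k hn)) with hcj
  have hcjT : cj.transpose = cj := cj_transpose hn
  have hD1T : D1.transpose = D1 := Dg_transpose _
  have hD0T : D0.transpose = D0 := Dg_transpose _
  have hD1i : D1 * D1 = D1 := Dg_idem _
  have hD10 : D1 * D0 = D0 := Dg_mul_Dg (by omega)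
  have hD01 : D0 * D1 = D0 := Dg_mul_Dg' (by omega)
  have hAi : PA * PA = PA := hg1.idem A
  have hAinv : Inv PA := (hg1.al A).2
  -- product form
  have e0 : D1 * cj * Yb N M (k + 1) A L L' * cj * D1 =
      Qm N M k hn A L * (Qm N M k hn A L').transpose := by
    unfold Qm Yb
    rw [Matrix.transpose_mul, Matrix.transpose_mul, Matrix.transpose_mul, Matrix.transpose_mul,
      ← hD1, hD1T, ← hcj, hcjT, hg1.symm, (good (N := N) hM (k + 2) (by omega)).symm]
    have : D1 * cj * (P N M (k + 2) L * P N M (k + 1) A) * D1 *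
        (D1 * (P N M (k + 1) A * P N M (k + 2) L' * (cj * D1))) =
        D1 * cj * (P N M (k + 2) L * P N M (k + 1) A) * (D1 * D1) *
        (P N M (k + 1) A * P N M (k + 2) L' * (cj * D1)) := by noncomm_ring
    rw [this, hD1i]
    noncomm_ring
  -- commutations
  have cTA : ∀ Z : Mat N, Al k Z → Z * PA = PA * Z := fun Z hZ =>
    P_comm_Al hM (by omega) hA (hZ.mono (by omega))
  have cT1 : ∀ Z : Mat N, Al k Z → Z * D1 = D1 * Z := fun Z hZ =>
    (Dg_comm (by omega) hZ.1).symm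
  have cRA : ∀ Z : Mat N, Al k Z → rv Z * PA = PA * rv Z := fun Z hZ =>
    (rv_comm hAinv hZ.2).symm
  have cR1 : ∀ Z : Mat N, Al k Z → rv Z * D1 = D1 * rv Z := fun Z hZ =>
    (Dg_comm_rv (by omega) hZ.1).symm
  have cA1 : D1 * PA = PA * D1 := Dg_P_comm hM le_rfl (by omega) A
  have cTR : ∀ Z Z' : Mat N, Al k Z → Al k Z' → Z * rv Z' = rv Z' * Z := fun Z Z' hZ hZ' =>
    rv_comm hZ.2 hZ'.2
  have hT : Al k (Th82 N M k A L) := Th_al hM (by omega) A L
  have hT' : Al k (Th82 N M k A L') := Th_al hM (by omega) A L'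
  set T : Mat N := Th82 N M k A L with hTdef
  set T' : Mat N := Th82 N M k A L' with hTdef'
  have hTs : T.transpose = T := Th_symm hM (by omega) A L
  have hTs' : T'.transpose = T' := Th_symm hM (by omega) A L'
  have hTD : rv T * D0 = T * D0 := rv_Th_Dg hM (by omega) A L
  have hTD' : D0 * rv T' = D0 * T' := by
    have h1 : rv T' * D0 = T' * D0 := rv_Th_Dg hM (by omega) A L'
    have h2 : D0 * rv T' = rv T' * D0 := Dg_comm_rv le_rfl hT'.1
    have h3 : D0 * T' = T' * D0 := Dg_comm le_rfl hT'.1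
    rw [h2, h1, h3]
  -- transposed column
  have eQT : (Qm N M k hn A L').transpose = wt A L' • (D1 * PA * (rv T' * T')) +
      ∑ C ∈ Lv M (k + 1), cv C A L' • (PA * D0 * P N M (k + 1) C) := by
    rw [Qm_eq hM hn hA hL', Matrix.transpose_add, Matrix.transpose_smul, Matrix.transpose_sum]
    congr 1
    · rw [Matrix.transpose_mul, Matrix.transpose_mul, Matrix.transpose_mul, ← hTdef', ← hD1,
        ← hPA, rv_transpose, hTs', hD1T, hg1.symm]
    · refine Finset.sum_congr rfl fun C _ => ?_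
      rw [Matrix.transpose_smul, Matrix.transpose_mul, Matrix.transpose_mul, hg1.symm, hg1.symm,
        ← hD0, hD0T, mul_assoc]
  rw [e0, eQT, Qm_eq hM hn hA hL, ← hTdef, ← hD1, ← hD0, ← hPA]
  -- the four products
  have f1 : (T * rv T * (PA * D1)) * (D1 * PA * (rv T' * T')) =
      ∑ K ∈ Lv M k, ∑ K' ∈ Lv M k, (ri K A L * ri K A L' * (ri K' A L * ri K' A L')) •
        Yg N M k A K K' := by
    have a1 : (T * rv T * (PA * D1)) * (D1 * PA * (rv T' * T')) =
        PA * (T * T') * (rv (T * T')) * D1 := by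
      rw [rv_mul]
      calc (T * rv T * (PA * D1)) * (D1 * PA * (rv T' * T')) =
          T * rv T * PA * (D1 * D1) * PA * (rv T' * T') := by noncomm_ring
        _ = T * rv T * PA * (D1 * PA) * (rv T' * T') := by rw [hD1i]; noncomm_ring
        _ = T * rv T * (PA * PA) * D1 * (rv T' * T') := by rw [cA1]; noncomm_ring
        _ = T * (rv T * PA) * (D1 * rv T') * T' := by rw [hAi]; noncomm_ring
        _ = (T * PA) * rv T * rv T' * (D1 * T') := by rw [cRA T hT, ← cR1 T' hT']; noncomm_ring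
        _ = PA * T * rv T * (rv T' * T') * D1 := by rw [cTA T hT, ← cT1 T' hT']; noncomm_ring
        _ = PA * T * (rv T * T') * rv T' * D1 := by
            rw [← cTR T' T' hT' hT']; noncomm_ring
        _ = _ := by rw [← cTR T' T hT' hT]; noncomm_ring
    rw [a1, hTdef, hTdef', Th_Th hM (by omega), rv_sum, Finset.mul_sum, Finset.sum_mul]
    conv_rhs => rw [Finset.sum_comm]
    refine Finset.sum_congr rfl fun K' _ => ?_
    rw [Finset.mul_sum, Finset.sum_mul, Finset.sum_mul]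
    refine Finset.sum_congr rfl fun K _ => ?_
    unfold Yg
    simp only [rv_smul, Matrix.mul_smul, Matrix.smul_mul, smul_smul]
    rw [mul_comm (ri K' A L * ri K' A L')]
  have f2 : ∀ C, (T * rv T * (PA * D1)) * (PA * D0 * P N M (k + 1) C) =
      ∑ K ∈ Lv M k, (ri K A L ^ 2) • Yb N M k K A C := by
    intro C
    have a1 : (T * rv T * (PA * D1)) * (PA * D0 * P N M (k + 1) C) =
        PA * (T * T) * D0 * P N M (k + 1) C := by
      calc (T * rv T * (PA * D1)) * (PA * D0 * P N M (k + 1) C) =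
          T * rv T * PA * (D1 * PA) * D0 * P N M (k + 1) C := by noncomm_ring
        _ = T * rv T * (PA * PA) * (D1 * D0) * P N M (k + 1) C := by rw [cA1]; noncomm_ring
        _ = T * (rv T * PA) * D0 * P N M (k + 1) C := by rw [hAi, hD10]; noncomm_ring
        _ = (T * PA) * (rv T * D0) * P N M (k + 1) C := by rw [cRA T hT]; noncomm_ring
        _ = _ := by rw [cTA T hT, hTD]; noncomm_ring
    rw [a1, hTdef, Th_Th hM (by omega), Finset.mul_sum, Finset.sum_mul, Finset.sum_mul]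
    refine Finset.sum_congr rfl fun K _ => ?_
    rw [Matrix.mul_smul, Matrix.smul_mul, Matrix.smul_mul, hPA, hD0, Yb_eq hM (by omega), sq]
  have f3 : ∀ B, (P N M (k + 1) B * D0 * PA) * (D1 * PA * (rv T' * T')) =
      ∑ K ∈ Lv M k, (ri K A L' ^ 2) • Yb N M k K B A := by
    intro B
    have a1 : (P N M (k + 1) B * D0 * PA) * (D1 * PA * (rv T' * T')) =
        P N M (k + 1) B * (T' * T') * D0 * PA := by
      have c3 : D0 * T' = T' * D0 := Dg_comm le_rfl hT'.1
      calc (P N M (k + 1) B * D0 * PA) * (D1 * PA * (rv T' * T')) =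
          P N M (k + 1) B * D0 * PA * (D1 * PA) * rv T' * T' := by noncomm_ring
        _ = P N M (k + 1) B * D0 * (PA * PA) * D1 * rv T' * T' := by rw [cA1]; noncomm_ring
        _ = P N M (k + 1) B * D0 * (PA * D1) * rv T' * T' := by rw [hAi]; noncomm_ring
        _ = P N M (k + 1) B * (D0 * D1) * (PA * rv T') * T' := by rw [← cA1]; noncomm_ring
        _ = P N M (k + 1) B * (D0 * rv T') * (PA * T') := by
            rw [hD01, ← cRA T' hT']; noncomm_ring
        _ = P N M (k + 1) B * (D0 * T') * T' * PA := by rw [hTD', ← cTA T' hT']; noncomm_ring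
        _ = P N M (k + 1) B * (T' * D0) * T' * PA := by rw [c3]
        _ = P N M (k + 1) B * T' * (D0 * T') * PA := by noncomm_ring
        _ = _ := by rw [c3]; noncomm_ring
    rw [a1, hTdef', Th_Th hM (by omega), Finset.mul_sum, Finset.sum_mul, Finset.sum_mul]
    refine Finset.sum_congr rfl fun K _ => ?_
    rw [Matrix.mul_smul, Matrix.smul_mul, Matrix.smul_mul, hPA, hD0, Yb_eq hM (by omega), sq]
  have f4 : ∀ B C, (P N M (k + 1) B * D0 * PA) * (PA * D0 * P N M (k + 1) C) =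
      ∑ K ∈ Lv M k, wt K A • Yb N M k K B C := by
    intro B C
    have a1 : (P N M (k + 1) B * D0 * PA) * (PA * D0 * P N M (k + 1) C) =
        P N M (k + 1) B * (D0 * PA * D0) * P N M (k + 1) C := by
      calc (P N M (k + 1) B * D0 * PA) * (PA * D0 * P N M (k + 1) C) =
          P N M (k + 1) B * D0 * (PA * PA) * D0 * P N M (k + 1) C := by noncomm_ring
        _ = _ := by rw [hAi]; noncomm_ring
    rw [a1, hD0, Dg_T_Dg, hPA, E_Pwt hM (by omega), Finset.sum_mul, Finset.mul_sum,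
      Finset.sum_mul]
    refine Finset.sum_congr rfl fun K _ => ?_
    rw [Matrix.smul_mul, Matrix.mul_smul, Matrix.smul_mul, ← mul_assoc, Yb_eq hM (by omega)]
  rw [add_mul, mul_add, mul_add, Matrix.smul_mul, Matrix.mul_smul, f1, smul_smul,
    Finset.mul_sum, Finset.sum_mul, Finset.sum_mul]
  rw [← add_assoc]
  congr 1
  · congr 1
    · congr 1
      · rw [Finset.smul_sum]
        refine Finset.sum_congr rfl fun K _ => ?_
        rw [Finset.smul_sum]
        refine Finset.sum_congr rfl fun K' _ => ?_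
        rw [smul_smul]
      · refine Finset.sum_congr rfl fun C _ => ?_
        rw [Matrix.mul_smul, Matrix.smul_mul, f2, smul_smul, Finset.smul_sum]
        refine Finset.sum_congr rfl fun K _ => ?_
        rw [smul_smul]
        congr 1
        ring
    · refine Finset.sum_congr rfl fun B _ => ?_
      rw [Matrix.mul_smul, Matrix.smul_mul, f3, smul_smul, Finset.smul_sum]
      refine Finset.sum_congr rfl fun K _ => ?_
      rw [smul_smul]
      congr 1
      ring
  · refine Finset.sum_congr rfl fun B _ => ?_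
    rw [Finset.mul_sum]
    refine Finset.sum_congr rfl fun C _ => ?_
    rw [Matrix.mul_smul, Matrix.smul_mul, f4, smul_smul, Finset.smul_sum]
    refine Finset.sum_congr rfl fun K _ => ?_
    rw [smul_smul]
    congr 1
    ring

/-- **restriction of the two-sided pieces**, with `D = ∑ P_K D P_K` inserted -/
theorem R2' (hM : N < M) (hn : k + 1 < N) {A A' L : Finset ℕ} (hA : A ∈ Lv M (k + 1))
    (hA' : A' ∈ Lv M (k + 1)) (hL : L ∈ Lv M (k + 2)) :
    Dg N (k + 1) * (U (s k hn) * rv (U (s k hn))) * Yg N M (k + 1) L A A' *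
        (U (s k hn) * rv (U (s k hn))) * Dg N (k + 1) =
      ∑ B ∈ Lv M (k + 1), ∑ K ∈ Lv M k, ∑ K' ∈ Lv M k,
        (wt B L * (Oc K B L A * Oc K' B L A')) • Yg N M k B K K' +
      ∑ B ∈ Lv M (k + 1), ∑ C ∈ Lv M (k + 1), ∑ K ∈ Lv M k,
        (eo B C L A * eo B C L A') • Yb N M k K B C := by
  have hg0 := good (N := N) hM k (by omega)
  have hg1 := good (N := N) hM (k + 1) (by omega)
  unfold Yg
  rw [R2 hM hn hA hA' hL]
  congr 1
  · refine Finset.sum_congr rfl fun B hB => ?_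
    unfold ThO
    rw [rv_sum]
    simp only [Finset.sum_mul, Finset.mul_sum, Finset.smul_sum]
    conv_rhs => rw [Finset.sum_comm]
    refine Finset.sum_congr rfl fun K' _ => Finset.sum_congr rfl fun K _ => ?_
    rw [rv_smul, Matrix.smul_mul, Matrix.mul_smul, Matrix.smul_mul, Matrix.smul_mul, smul_smul,
      smul_smul]
    have c1 : P N M k K * rv (P N M k K') * (P N M (k + 1) B * Dg N (k + 1)) =
        P N M (k + 1) B * P N M k K * rv (P N M k K') * Dg N (k + 1) := by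
      have c2 : P N M (k + 1) B * rv (P N M k K') = rv (P N M k K') * P N M (k + 1) B :=
        rv_comm (hg1.al B).2 (hg0.al K').2
      have c3 : P N M k K * P N M (k + 1) B = P N M (k + 1) B * P N M k K :=
        P_comm hM (by omega) (by omega) K hB
      calc P N M k K * rv (P N M k K') * (P N M (k + 1) B * Dg N (k + 1)) =
          P N M k K * (rv (P N M k K') * P N M (k + 1) B) * Dg N (k + 1) := by noncomm_ring
        _ = (P N M k K * P N M (k + 1) B) * rv (P N M k K') * Dg N (k + 1) := by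
            rw [← c2]; noncomm_ring
        _ = _ := by rw [c3]
    rw [c1]
    congr 1
    ring
  · refine Finset.sum_congr rfl fun B _ => Finset.sum_congr rfl fun C _ => ?_
    unfold eo
    by_cases h : B ≠ C
    · rw [if_pos h, if_pos h, if_pos h]
      have e1 : P N M (k + 1) B * Dg N k * P N M (k + 1) C = ∑ K ∈ Lv M k, Yb N M k K B C := by
        have e2 : ∀ K ∈ Lv M k, Yb N M k K B C =
            P N M (k + 1) B * P N M k K * (Dg N k * P N M (k + 1) C) := by
          intro K _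
          rw [← Yb_eq hM (by omega)]
          noncomm_ring
        rw [Finset.sum_congr rfl e2, ← Finset.sum_mul, ← Finset.mul_sum, hg0.tot, mul_one,
          mul_assoc]
      rw [e1, Finset.smul_sum]
    · rw [if_neg h, if_neg h, if_neg h]
      simp

/-- new coefficients of the rank one pieces -/
noncomputable def rb (M k : ℕ) (b g : Finset ℕ → Finset ℕ → Finset ℕ → ℝ)
    (K B C : Finset ℕ) : ℝ :=
  (∑ L ∈ Lv M (k + 2), ∑ A ∈ Lv M (k + 1), ∑ A' ∈ Lv M (k + 1),
      g L A A' * (eo B C L A * eo B C L A')) +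
  (∑ L ∈ Lv M (k + 2), ∑ L' ∈ Lv M (k + 2), b B L L' * (wt B L * ri K B L ^ 2 * cv C B L')) +
  (∑ L ∈ Lv M (k + 2), ∑ L' ∈ Lv M (k + 2),
      b C L L' * (cv B C L * (wt C L' * ri K C L' ^ 2))) +
  ∑ A ∈ Lv M (k + 1), ∑ L ∈ Lv M (k + 2), ∑ L' ∈ Lv M (k + 2),
      b A L L' * (cv B A L * cv C A L' * wt K A)

/-- new coefficients of the block pieces -/
noncomputable def rg (M k : ℕ) (b g : Finset ℕ → Finset ℕ → Finset ℕ → ℝ)
    (B K K' : Finset ℕ) : ℝ :=
  (∑ L ∈ Lv M (k + 2), ∑ A ∈ Lv M (k + 1), ∑ A' ∈ Lv M (k + 1),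
      g L A A' * (wt B L * (Oc K B L A * Oc K' B L A'))) +
  ∑ L ∈ Lv M (k + 2), ∑ L' ∈ Lv M (k + 2), b B L L' * (wt B L * wt B L' *
      (ri K B L * ri K B L' * (ri K' B L * ri K' B L')))

/-- **the restriction of a full marked kernel** -/
theorem GK_res (hM : N < M) (hn : k + 1 < N) (b g : Finset ℕ → Finset ℕ → Finset ℕ → ℝ) :
    Dg N (k + 1) * (U (s k hn) * rv (U (s k hn))) * (GB N M (k + 1) b + GG N M (k + 1) g) *
        (U (s k hn) * rv (U (s k hn))) * Dg N (k + 1) =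
      GB N M k (rb M k b g) + GG N M k (rg M k b g) := by
  set D1 : Mat N := Dg N (k + 1) with hD1
  set cj : Mat N := U (s k hn) * rv (U (s k hn)) with hcj
  have hlin : ∀ (T : Mat N), D1 * cj * T * cj * D1 = (D1 * cj) * T * (cj * D1) := by
    intro T; noncomm_ring
  have e1 : D1 * cj * (GB N M (k + 1) b + GG N M (k + 1) g) * cj * D1 =
      D1 * cj * GB N M (k + 1) b * cj * D1 + D1 * cj * GG N M (k + 1) g * cj * D1 := by
    noncomm_ring
  -- the b part
  have eb : D1 * cj * GB N M (k + 1) b * cj * D1 =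
      ∑ A ∈ Lv M (k + 1), ∑ L ∈ Lv M (k + 2), ∑ L' ∈ Lv M (k + 2),
        b A L L' • (D1 * cj * Yb N M (k + 1) A L L' * cj * D1) := by
    rw [hlin]
    unfold GB
    simp only [Finset.mul_sum, Finset.sum_mul]
    refine Finset.sum_congr rfl fun A _ => Finset.sum_congr rfl fun L _ =>
      Finset.sum_congr rfl fun L' _ => ?_
    rw [Matrix.mul_smul, Matrix.smul_mul, hlin]
  have eg : D1 * cj * GG N M (k + 1) g * cj * D1 =
      ∑ L ∈ Lv M (k + 2), ∑ A ∈ Lv M (k + 1), ∑ A' ∈ Lv M (k + 1),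
        g L A A' • (D1 * cj * Yg N M (k + 1) L A A' * cj * D1) := by
    rw [hlin]
    unfold GG
    simp only [Finset.mul_sum, Finset.sum_mul]
    refine Finset.sum_congr rfl fun L _ => Finset.sum_congr rfl fun A _ =>
      Finset.sum_congr rfl fun A' _ => ?_
    rw [Matrix.mul_smul, Matrix.smul_mul, hlin]
  -- right sides
  have h1 : GB N M k (rb M k b g) =
      GB N M k (fun _ B C => ∑ L ∈ Lv M (k + 2), ∑ A ∈ Lv M (k + 1), ∑ A' ∈ Lv M (k + 1),
        g L A A' * (eo B C L A * eo B C L A')) +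
      GB N M k (fun K B C => ∑ L ∈ Lv M (k + 2), ∑ L' ∈ Lv M (k + 2),
        b B L L' * (wt B L * ri K B L ^ 2 * cv C B L')) +
      GB N M k (fun K B C => ∑ L ∈ Lv M (k + 2), ∑ L' ∈ Lv M (k + 2),
        b C L L' * (cv B C L * (wt C L' * ri K C L' ^ 2))) +
      GB N M k (fun K B C => ∑ A ∈ Lv M (k + 1), ∑ L ∈ Lv M (k + 2), ∑ L' ∈ Lv M (k + 2),
        b A L L' * (cv B A L * cv C A L' * wt K A)) := by
    rw [← GB_add, ← GB_add, ← GB_add]
    rfl
  have h2 : GG N M k (rg M k b g) =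
      GG N M k (fun B K K' => ∑ L ∈ Lv M (k + 2), ∑ A ∈ Lv M (k + 1), ∑ A' ∈ Lv M (k + 1),
        g L A A' * (wt B L * (Oc K B L A * Oc K' B L A'))) +
      GG N M k (fun B K K' => ∑ L ∈ Lv M (k + 2), ∑ L' ∈ Lv M (k + 2), b B L L' *
        (wt B L * wt B L' * (ri K B L * ri K B L' * (ri K' B L * ri K' B L')))) := by
    rw [← GG_add]
    rfl
  -- parts
  have p1 : (∑ L ∈ Lv M (k + 2), ∑ A ∈ Lv M (k + 1), ∑ A' ∈ Lv M (k + 1),
      g L A A' • (∑ B ∈ Lv M (k + 1), ∑ K ∈ Lv M k, ∑ K' ∈ Lv M k,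
        (wt B L * (Oc K B L A * Oc K' B L A')) • Yg N M k B K K')) =
      GG N M k (fun B K K' => ∑ L ∈ Lv M (k + 2), ∑ A ∈ Lv M (k + 1), ∑ A' ∈ Lv M (k + 1),
        g L A A' * (wt B L * (Oc K B L A * Oc K' B L A'))) := by
    unfold GG
    simp only [Finset.smul_sum, smul_smul, Finset.sum_smul]
    have q1 : ∀ L ∈ Lv M (k + 2), (∑ A ∈ Lv M (k + 1), ∑ A' ∈ Lv M (k + 1),
        ∑ B ∈ Lv M (k + 1), ∑ K ∈ Lv M k, ∑ K' ∈ Lv M k,
        (g L A A' * (wt B L * (Oc K B L A * Oc K' B L A'))) • Yg N M k B K K') =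
        ∑ B ∈ Lv M (k + 1), ∑ K ∈ Lv M k, ∑ K' ∈ Lv M k, ∑ A ∈ Lv M (k + 1),
          ∑ A' ∈ Lv M (k + 1),
        (g L A A' * (wt B L * (Oc K B L A * Oc K' B L A'))) • Yg N M k B K K' := by
      intro L _
      rw [sum4]
      refine Finset.sum_congr rfl fun B _ => Finset.sum_congr rfl fun K _ => ?_
      exact sum3 _ _ _ _
    rw [Finset.sum_congr rfl q1, Finset.sum_comm]
    refine Finset.sum_congr rfl fun B _ => ?_
    rw [Finset.sum_comm]
    refine Finset.sum_congr rfl fun K _ => ?_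
    rw [Finset.sum_comm]
  have p2 : (∑ L ∈ Lv M (k + 2), ∑ A ∈ Lv M (k + 1), ∑ A' ∈ Lv M (k + 1),
      g L A A' • (∑ B ∈ Lv M (k + 1), ∑ C ∈ Lv M (k + 1), ∑ K ∈ Lv M k,
        (eo B C L A * eo B C L A') • Yb N M k K B C)) =
      GB N M k (fun _ B C => ∑ L ∈ Lv M (k + 2), ∑ A ∈ Lv M (k + 1), ∑ A' ∈ Lv M (k + 1),
        g L A A' * (eo B C L A * eo B C L A')) := by
    unfold GB
    simp only [Finset.smul_sum, smul_smul, Finset.sum_smul]
    have q1 : ∀ L ∈ Lv M (k + 2), (∑ A ∈ Lv M (k + 1), ∑ A' ∈ Lv M (k + 1),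
        ∑ B ∈ Lv M (k + 1), ∑ C ∈ Lv M (k + 1), ∑ K ∈ Lv M k,
        (g L A A' * (eo B C L A * eo B C L A')) • Yb N M k K B C) =
        ∑ K ∈ Lv M k, ∑ B ∈ Lv M (k + 1), ∑ C ∈ Lv M (k + 1), ∑ A ∈ Lv M (k + 1),
          ∑ A' ∈ Lv M (k + 1),
        (g L A A' * (eo B C L A * eo B C L A')) • Yb N M k K B C := by
      intro L _
      rw [sum4]
      conv_rhs => rw [← sum3]
      refine Finset.sum_congr rfl fun B _ => Finset.sum_congr rfl fun C _ => ?_
      exact sum3 _ _ _ _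
    rw [Finset.sum_congr rfl q1, Finset.sum_comm]
    refine Finset.sum_congr rfl fun K _ => ?_
    rw [Finset.sum_comm]
    refine Finset.sum_congr rfl fun B _ => ?_
    rw [Finset.sum_comm]
  have p3 : (∑ A ∈ Lv M (k + 1), ∑ L ∈ Lv M (k + 2), ∑ L' ∈ Lv M (k + 2),
      b A L L' • (∑ K ∈ Lv M k, ∑ K' ∈ Lv M k, (wt A L * wt A L' * (ri K A L * ri K A L' *
        (ri K' A L * ri K' A L'))) • Yg N M k A K K')) =
      GG N M k (fun B K K' => ∑ L ∈ Lv M (k + 2), ∑ L' ∈ Lv M (k + 2), b B L L' *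
        (wt B L * wt B L' * (ri K B L * ri K B L' * (ri K' B L * ri K' B L')))) := by
    unfold GG
    refine Finset.sum_congr rfl fun A _ => ?_
    exact swap22 _ _ _ _ _ _ _
  have p4 : (∑ A ∈ Lv M (k + 1), ∑ L ∈ Lv M (k + 2), ∑ L' ∈ Lv M (k + 2),
      b A L L' • (∑ C ∈ Lv M (k + 1), ∑ K ∈ Lv M k,
        (wt A L * ri K A L ^ 2 * cv C A L') • Yb N M k K A C)) =
      GB N M k (fun K B C => ∑ L ∈ Lv M (k + 2), ∑ L' ∈ Lv M (k + 2),
        b B L L' * (wt B L * ri K B L ^ 2 * cv C B L')) := by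
    unfold GB
    conv_rhs => rw [← sum3]
    refine Finset.sum_congr rfl fun A _ => ?_
    exact swap22 _ _ _ _ _ (fun L L' C K => wt A L * ri K A L ^ 2 * cv C A L')
      (fun C K => Yb N M k K A C)
  have p5 : (∑ A ∈ Lv M (k + 1), ∑ L ∈ Lv M (k + 2), ∑ L' ∈ Lv M (k + 2),
      b A L L' • (∑ B ∈ Lv M (k + 1), ∑ K ∈ Lv M k,
        (cv B A L * (wt A L' * ri K A L' ^ 2)) • Yb N M k K B A)) =
      GB N M k (fun K B C => ∑ L ∈ Lv M (k + 2), ∑ L' ∈ Lv M (k + 2),
        b C L L' * (cv B C L * (wt C L' * ri K C L' ^ 2))) := by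
    unfold GB
    conv_rhs => rw [← sum3, Finset.sum_comm]
    refine Finset.sum_congr rfl fun A _ => ?_
    exact swap22 _ _ _ _ _ (fun L L' B K => cv B A L * (wt A L' * ri K A L' ^ 2))
      (fun B K => Yb N M k K B A)
  have p6 : (∑ A ∈ Lv M (k + 1), ∑ L ∈ Lv M (k + 2), ∑ L' ∈ Lv M (k + 2),
      b A L L' • (∑ B ∈ Lv M (k + 1), ∑ C ∈ Lv M (k + 1), ∑ K ∈ Lv M k,
      (cv B A L * cv C A L' * wt K A) • Yb N M k K B C)) =
      GB N M k (fun K B C => ∑ A ∈ Lv M (k + 1), ∑ L ∈ Lv M (k + 2), ∑ L' ∈ Lv M (k + 2),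
        b A L L' * (cv B A L * cv C A L' * wt K A)) := by
    unfold GB
    simp only [Finset.smul_sum, smul_smul, Finset.sum_smul]
    have q1 : ∀ A ∈ Lv M (k + 1), (∑ L ∈ Lv M (k + 2), ∑ L' ∈ Lv M (k + 2),
        ∑ B ∈ Lv M (k + 1), ∑ C ∈ Lv M (k + 1), ∑ K ∈ Lv M k,
        (b A L L' * (cv B A L * cv C A L' * wt K A)) • Yb N M k K B C) =
        ∑ K ∈ Lv M k, ∑ B ∈ Lv M (k + 1), ∑ C ∈ Lv M (k + 1), ∑ L ∈ Lv M (k + 2),
          ∑ L' ∈ Lv M (k + 2),
        (b A L L' * (cv B A L * cv C A L' * wt K A)) • Yb N M k K B C := by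
      intro A _
      rw [sum4]
      conv_rhs => rw [← sum3]
      refine Finset.sum_congr rfl fun B _ => Finset.sum_congr rfl fun C _ => ?_
      exact sum3 _ _ _ _
    rw [Finset.sum_congr rfl q1, Finset.sum_comm]
    refine Finset.sum_congr rfl fun K _ => ?_
    rw [Finset.sum_comm]
    refine Finset.sum_congr rfl fun B _ => ?_
    rw [Finset.sum_comm]
  rw [e1, eb, eg, h1, h2, ← p1, ← p2, ← p3, ← p4, ← p5, ← p6]
  have eb2 : (∑ A ∈ Lv M (k + 1), ∑ L ∈ Lv M (k + 2), ∑ L' ∈ Lv M (k + 2),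
        b A L L' • (D1 * cj * Yb N M (k + 1) A L L' * cj * D1)) =
      ∑ A ∈ Lv M (k + 1), ∑ L ∈ Lv M (k + 2), ∑ L' ∈ Lv M (k + 2),
        (b A L L' • (∑ K ∈ Lv M k, ∑ K' ∈ Lv M k, (wt A L * wt A L' * (ri K A L * ri K A L' *
          (ri K' A L * ri K' A L'))) • Yg N M k A K K') +
        b A L L' • (∑ C ∈ Lv M (k + 1), ∑ K ∈ Lv M k,
          (wt A L * ri K A L ^ 2 * cv C A L') • Yb N M k K A C) +
        b A L L' • (∑ B ∈ Lv M (k + 1), ∑ K ∈ Lv M k,
          (cv B A L * (wt A L' * ri K A L' ^ 2)) • Yb N M k K B A) +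
        b A L L' • (∑ B ∈ Lv M (k + 1), ∑ C ∈ Lv M (k + 1), ∑ K ∈ Lv M k,
          (cv B A L * cv C A L' * wt K A) • Yb N M k K B C)) := by
    refine Finset.sum_congr rfl fun A hA => Finset.sum_congr rfl fun L hL =>
      Finset.sum_congr rfl fun L' hL' => ?_
    rw [hD1, hcj, R5 hM hn hA hL hL', smul_add, smul_add, smul_add]
  have eg2 : (∑ L ∈ Lv M (k + 2), ∑ A ∈ Lv M (k + 1), ∑ A' ∈ Lv M (k + 1),
        g L A A' • (D1 * cj * Yg N M (k + 1) L A A' * cj * D1)) =
      ∑ L ∈ Lv M (k + 2), ∑ A ∈ Lv M (k + 1), ∑ A' ∈ Lv M (k + 1),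
        (g L A A' • (∑ B ∈ Lv M (k + 1), ∑ K ∈ Lv M k, ∑ K' ∈ Lv M k,
          (wt B L * (Oc K B L A * Oc K' B L A')) • Yg N M k B K K') +
        g L A A' • (∑ B ∈ Lv M (k + 1), ∑ C ∈ Lv M (k + 1), ∑ K ∈ Lv M k,
          (eo B C L A * eo B C L A') • Yb N M k K B C)) := by
    refine Finset.sum_congr rfl fun L hL => Finset.sum_congr rfl fun A hA =>
      Finset.sum_congr rfl fun A' hA' => ?_
    rw [hD1, hcj, R2' hM hn hA hA' hL, smul_add]
  rw [eb2, eg2]
  simp only [Finset.sum_add_distrib]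
  abel

end res

end Pool.JM
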