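import Pool.Agent.Work.MP_46fa68_82.KK
import Pool.Agent.Work.MP_46fa68_95.RowZ

/-! # The recursion in normalised variables

`NB b C x y = ex C * w C x * w C y * b C x y`, `ND d L C C' = ex L * d C C'` (`L` the common cover of
`C`, `C'`): all the coefficients of the restriction are products of `1 / r ^ 2`, `1 - 1 / r ^ 2` (and
`1 / r`), `r` a difference of beads. -/

set_option autoImplicit false

open Finset Equiv

namespace Pool.JM

variable {N M k : ℕ}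

noncomputable def NB (b : Finset ℕ → ℕ → ℕ → ℝ) (C : Finset ℕ) (x y : ℕ) : ℝ :=
  ex C * w C x * w C y * b C x y

noncomputable def ND (d : Finset ℕ → Finset ℕ → ℝ) (L C C' : Finset ℕ) : ℝ := ex L * d C C'

/-- inverse square of the difference of two beads -/
noncomputable def qq (x y : ℕ) : ℝ := (((x : ℝ) - y)⁻¹) ^ 2

theorem qq_comm (x y : ℕ) : qq x y = qq y x := by
  unfold qq
  rw [← neg_sub, inv_neg, neg_sq]

theorem w_qq {C : Finset ℕ} {v x : ℕ} (hv : v ∈ ad C) (hx : x ∈ ad C) (hne : x ≠ v) :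
    w C x = (1 - qq x v) * w (mv C v) x := by
  rw [← wsum4 hv (mem_erase.2 ⟨hne, hx⟩)]
  unfold qq
  ring

/-- normalised restriction, rank one part, off the diagonal -/
noncomputable def nBne (B : Finset ℕ → ℕ → ℕ → ℝ) (D : Finset ℕ → Finset ℕ → Finset ℕ → ℝ)
    (C : Finset ℕ) (x y : ℕ) : ℝ :=
  (∑ v ∈ ((ad C).erase x).erase y, (1 - qq x v) * (1 - qq y v) * B (mv C v) x y) +
  (1 - qq x y) * ((∑ z ∈ ad (mv C x), qq z x * B (mv C x) z y) +
    (∑ z ∈ ad (mv C y), qq z y * B (mv C y) x z) -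
    qq x y * (D (mv (mv C x) y) (mv C x) (mv C y) + D (mv (mv C x) y) (mv C y) (mv C x)))

/-- normalised restriction, rank one part, on the diagonal -/
noncomputable def nBdi (B : Finset ℕ → ℕ → ℕ → ℝ) (D : Finset ℕ → Finset ℕ → Finset ℕ → ℝ)
    (C : Finset ℕ) (x : ℕ) : ℝ :=
  (∑ v ∈ (ad C).erase x, (1 - qq x v) ^ 2 * B (mv C v) x x) +
  (∑ z ∈ ad (mv C x), ∑ z' ∈ ad (mv C x), qq z x * qq z' x * B (mv C x) z z') +
  ∑ z ∈ (ad C).erase x, qq z x * (1 - qq z x) *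
    (D (mv (mv C x) z) (mv C x) (mv C z) + D (mv (mv C x) z) (mv C z) (mv C x))

/-- normalised restriction, block part, on the cover `A = mv K u = mv K' v` -/
noncomputable def nD (B : Finset ℕ → ℕ → ℕ → ℝ) (D : Finset ℕ → Finset ℕ → Finset ℕ → ℝ)
    (A K K' : Finset ℕ) (u v : ℕ) : ℝ :=
  (∑ x ∈ ad A, ∑ y ∈ ad A, (((x : ℝ) - u)⁻¹ * ((x : ℝ) - v)⁻¹) *
    (((y : ℝ) - u)⁻¹ * ((y : ℝ) - v)⁻¹) * B A x y) +
  ∑ x ∈ ad A, (qq x u * (1 - qq x v) * D (mv A x) A (mv K' x) +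
      (1 - qq x u) * qq x v * D (mv A x) (mv K x) A +
      (1 - qq x u) * (1 - qq x v) * D (mv A x) (mv K x) (mv K' x))

theorem NB_rB_ne (b : Finset ℕ → ℕ → ℕ → ℝ) (d : Finset ℕ → Finset ℕ → ℝ) {C : Finset ℕ}
    {x y : ℕ} (hx : x ∈ ad C) (hy : y ∈ ad C) (hxy : x ≠ y) :
    NB (rB b d) C x y = nBne (NB b) (ND d) C x y := by
  unfold NB nBne rB
  rw [if_neg hxy]
  have t1 : ex C * w C x * w C y * ∑ v ∈ ((ad C).erase x).erase y, w C v * b (mv C v) x y =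
      ∑ v ∈ ((ad C).erase x).erase y, (1 - qq x v) * (1 - qq y v) *
        (ex (mv C v) * w (mv C v) x * w (mv C v) y * b (mv C v) x y) := by
    rw [Finset.mul_sum]
    refine Finset.sum_congr rfl fun v hv => ?_
    obtain ⟨h1, h2⟩ := mem_erase.1 hv
    obtain ⟨h3, h4⟩ := mem_erase.1 h2
    rw [ex_mv h4, w_qq h4 hx (Ne.symm h3), w_qq h4 hy (Ne.symm h1)]
    ring
  have t2 : ex C * w C x * w C y * (∑ z ∈ ad (mv C x), w (mv C x) z *
      (((z : ℝ) - x)⁻¹) ^ 2 * b (mv C x) z y) =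
      (1 - qq x y) * ∑ z ∈ ad (mv C x), qq z x *
        (ex (mv C x) * w (mv C x) z * w (mv C x) y * b (mv C x) z y) := by
    rw [Finset.mul_sum, Finset.mul_sum]
    refine Finset.sum_congr rfl fun z _ => ?_
    rw [ex_mv hx, w_qq hx hy (Ne.symm hxy), qq_comm x y]
    unfold qq
    ring
  have t3 : ex C * w C x * w C y * (∑ z ∈ ad (mv C y), w (mv C y) z *
      (((z : ℝ) - y)⁻¹) ^ 2 * b (mv C y) x z) =
      (1 - qq x y) * ∑ z ∈ ad (mv C y), qq z y *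
        (ex (mv C y) * w (mv C y) x * w (mv C y) z * b (mv C y) x z) := by
    rw [Finset.mul_sum, Finset.mul_sum]
    refine Finset.sum_congr rfl fun z _ => ?_
    rw [ex_mv hy, w_qq hy hx hxy]
    unfold qq
    ring
  have t4 : ex C * w C x * w C y * ((((x : ℝ) - y)⁻¹) ^ 2 *
      (d (mv C x) (mv C y) + d (mv C y) (mv C x))) =
      (1 - qq x y) * (qq x y * (ND d (mv (mv C x) y) (mv C x) (mv C y) +
        ND d (mv (mv C x) y) (mv C y) (mv C x))) := by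
    unfold ND
    rw [ex_mv (ad_swap hy hx (Ne.symm hxy)), ex_mv hx, w_qq hx hy (Ne.symm hxy), qq_comm x y]
    unfold qq
    rw [show ((x : ℝ) - y)⁻¹ ^ 2 = ((y : ℝ) - x)⁻¹ ^ 2 by rw [← neg_sub, inv_neg, neg_sq]]
    ring
  rw [mul_sub, mul_add, mul_add, t1, t2, t3, t4]
  ring

theorem NB_rB_diag (b : Finset ℕ → ℕ → ℕ → ℝ) (d : Finset ℕ → Finset ℕ → ℝ) {C : Finset ℕ}
    {x : ℕ} (hx : x ∈ ad C) : NB (rB b d) C x x = nBdi (NB b) (ND d) C x := by
  unfold NB nBdi rB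
  rw [if_pos rfl]
  have hw : w C x ≠ 0 := (ad_w_pos hx).ne'
  have t1 : ex C * w C x * w C x * ∑ v ∈ (ad C).erase x, w C v * b (mv C v) x x =
      ∑ v ∈ (ad C).erase x, (1 - qq x v) ^ 2 *
        (ex (mv C v) * w (mv C v) x * w (mv C v) x * b (mv C v) x x) := by
    rw [Finset.mul_sum]
    refine Finset.sum_congr rfl fun v hv => ?_
    obtain ⟨h1, h2⟩ := mem_erase.1 hv
    rw [ex_mv h2, w_qq h2 hx (Ne.symm h1)]
    ring
  have t0 : ∀ S : ℝ, ex C * w C x * w C x * ((w C x)⁻¹ * S) = ex (mv C x) * S := by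
    intro S
    rw [ex_mv hx]
    field_simp
  have t2 : ex (mv C x) * (∑ z ∈ ad (mv C x), ∑ z' ∈ ad (mv C x), w (mv C x) z * w (mv C x) z' *
        ((((z : ℝ) - x)⁻¹) ^ 2 * (((z' : ℝ) - x)⁻¹) ^ 2) * b (mv C x) z z') =
      ∑ z ∈ ad (mv C x), ∑ z' ∈ ad (mv C x), qq z x * qq z' x *
        (ex (mv C x) * w (mv C x) z * w (mv C x) z' * b (mv C x) z z') := by
    rw [Finset.mul_sum]
    refine Finset.sum_congr rfl fun z _ => ?_
    rw [Finset.mul_sum]
    refine Finset.sum_congr rfl fun z' _ => ?_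
    unfold qq
    ring
  have t3 : ex (mv C x) * (∑ z ∈ (ad C).erase x, w (mv C x) z *
        ((((z : ℝ) - x)⁻¹) ^ 2 * (1 - (((z : ℝ) - x)⁻¹) ^ 2)) *
          (d (mv C x) (mv C z) + d (mv C z) (mv C x))) =
      ∑ z ∈ (ad C).erase x, qq z x * (1 - qq z x) *
        (ND d (mv (mv C x) z) (mv C x) (mv C z) + ND d (mv (mv C x) z) (mv C z) (mv C x)) := by
    rw [Finset.mul_sum]
    refine Finset.sum_congr rfl fun z hz => ?_
    obtain ⟨h1, h2⟩ := mem_erase.1 hz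
    unfold ND qq
    rw [ex_mv (ad_sub hx h2 h1)]
    ring
  rw [mul_add, t0, mul_add, t1, t2, t3]
  ring

theorem ND_rDA (b : Finset ℕ → ℕ → ℕ → ℝ) (d : Finset ℕ → Finset ℕ → ℝ) (A K K' : Finset ℕ)
    (u v : ℕ) : ex A * rDA b d A K K' u v = nD (NB b) (ND d) A K K' u v := by
  unfold nD rDA NB
  rw [mul_add]
  congr 1
  · rw [Finset.mul_sum]
    refine Finset.sum_congr rfl fun x _ => ?_
    rw [Finset.mul_sum]
    refine Finset.sum_congr rfl fun y _ => ?_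
    ring
  · rw [Finset.mul_sum]
    refine Finset.sum_congr rfl fun x hx => ?_
    unfold ND qq
    rw [ex_mv hx]
    ring

theorem ND_rD {K K' : Finset ℕ} {u v : ℕ} (hu : u ∈ ad K) (hv : v ∈ ad K')
    (h : mv K u = mv K' v) (b : Finset ℕ → ℕ → ℕ → ℝ) (d : Finset ℕ → Finset ℕ → ℝ)
    (hne : K ≠ K') :
    ND (rD b d) (mv K u) K K' = nD (NB b) (ND d) (mv K u) K K' u v := by
  rw [← ND_rDA]
  unfold ND
  rw [rD_eq hu hv h b d hne]

/-! ## with the dimensions `F C = k! * ex C`, `C` of `k` boxes -/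

/-- normalised with the dimension -/
noncomputable def FB (k : ℕ) (b : Finset ℕ → ℕ → ℕ → ℝ) (C : Finset ℕ) (x y : ℕ) : ℝ :=
  (k.factorial * ex C) * w C x * w C y * b C x y

/-- `F L / (k + 1) * d C C'`, `L` of `k + 1` boxes -/
noncomputable def FD (k : ℕ) (d : Finset ℕ → Finset ℕ → ℝ) (L C C' : Finset ℕ) : ℝ :=
  ((k + 1).factorial * ex L) / (k + 1) * d C C'

theorem FB_eq (k : ℕ) (b : Finset ℕ → ℕ → ℕ → ℝ) : FB k b = fun C x y =>
    (k.factorial : ℝ) * NB b C x y := by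
  funext C x y
  unfold FB NB
  ring

theorem FD_eq (k : ℕ) (d : Finset ℕ → Finset ℕ → ℝ) : FD k d = fun L C C' =>
    (k.factorial : ℝ) * ND d L C C' := by
  funext L C C'
  unfold FD ND
  rw [Nat.factorial_succ]
  have : (k : ℝ) + 1 ≠ 0 := by positivity
  push_cast
  field_simp

theorem nBne_smul (c : ℝ) (B : Finset ℕ → ℕ → ℕ → ℝ) (D : Finset ℕ → Finset ℕ → Finset ℕ → ℝ)
    (C : Finset ℕ) (x y : ℕ) : nBne (fun C x y => c * B C x y) (fun L C C' => c * D L C C') C x y =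
      c * nBne B D C x y := by
  unfold nBne
  have h1 : ∀ (s : Finset ℕ) (f g : ℕ → ℝ), ∑ v ∈ s, f v * (c * g v) = c * ∑ v ∈ s, f v * g v := by
    intro s f g
    rw [Finset.mul_sum]
    exact Finset.sum_congr rfl fun _ _ => by ring
  rw [h1, h1, h1]
  ring

theorem nBdi_smul (c : ℝ) (B : Finset ℕ → ℕ → ℕ → ℝ) (D : Finset ℕ → Finset ℕ → Finset ℕ → ℝ)
    (C : Finset ℕ) (x : ℕ) : nBdi (fun C x y => c * B C x y) (fun L C C' => c * D L C C') C x =
      c * nBdi B D C x := by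
  unfold nBdi
  rw [mul_add, mul_add, Finset.mul_sum, Finset.mul_sum, Finset.mul_sum]
  congr 1
  · congr 1
    · exact Finset.sum_congr rfl fun _ _ => by ring
    · refine Finset.sum_congr rfl fun _ _ => ?_
      rw [Finset.mul_sum]
      exact Finset.sum_congr rfl fun _ _ => by ring
  · exact Finset.sum_congr rfl fun _ _ => by ring

theorem nD_smul (c : ℝ) (B : Finset ℕ → ℕ → ℕ → ℝ) (D : Finset ℕ → Finset ℕ → Finset ℕ → ℝ)
    (A K K' : Finset ℕ) (u v : ℕ) :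
    nD (fun C x y => c * B C x y) (fun L C C' => c * D L C C') A K K' u v =
      c * nD B D A K K' u v := by
  unfold nD
  rw [mul_add, Finset.mul_sum, Finset.mul_sum]
  congr 1
  · refine Finset.sum_congr rfl fun _ _ => ?_
    rw [Finset.mul_sum]
    exact Finset.sum_congr rfl fun _ _ => by ring
  · exact Finset.sum_congr rfl fun _ _ => by ring

theorem FB_rB_ne (k : ℕ) (b : Finset ℕ → ℕ → ℕ → ℝ) (d : Finset ℕ → Finset ℕ → ℝ) {C : Finset ℕ}
    {x y : ℕ} (hx : x ∈ ad C) (hy : y ∈ ad C) (hxy : x ≠ y) :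
    ((k : ℝ) + 1) * FB k (rB b d) C x y = nBne (FB (k + 1) b) (FD (k + 1) d) C x y := by
  rw [FB_eq, FB_eq, FD_eq, nBne_smul]
  simp only
  rw [NB_rB_ne b d hx hy hxy, Nat.factorial_succ]
  push_cast
  ring

theorem FB_rB_diag (k : ℕ) (b : Finset ℕ → ℕ → ℕ → ℝ) (d : Finset ℕ → Finset ℕ → ℝ)
    {C : Finset ℕ} {x : ℕ} (hx : x ∈ ad C) :
    ((k : ℝ) + 1) * FB k (rB b d) C x x = nBdi (FB (k + 1) b) (FD (k + 1) d) C x := by
  rw [FB_eq, FB_eq, FD_eq, nBdi_smul]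
  simp only
  rw [NB_rB_diag b d hx, Nat.factorial_succ]
  push_cast
  ring

theorem FD_rD (k : ℕ) {K K' : Finset ℕ} {u v : ℕ} (hu : u ∈ ad K) (hv : v ∈ ad K')
    (h : mv K u = mv K' v) (b : Finset ℕ → ℕ → ℕ → ℝ) (d : Finset ℕ → Finset ℕ → ℝ)
    (hne : K ≠ K') :
    ((k : ℝ) + 1) * FD k (rD b d) (mv K u) K K' =
      nD (FB (k + 1) b) (FD (k + 1) d) (mv K u) K K' u v := by
  rw [FD_eq, FB_eq, FD_eq, nD_smul]
  simp only
  rw [ND_rD hu hv h b d hne, Nat.factorial_succ]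
  push_cast
  ring

end Pool.JM
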