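import Pool.Agent.Work.MP_46fa68_82.Srel
import Pool.Agent.Work.MP_46fa68_62.Mark0

/-! # Restriction formulas for the pieces of a full marked kernel -/

set_option autoImplicit false

open Finset Equiv

namespace Pool.JM

variable {N M : ℕ}

section rst

variable {k : ℕ}

/-- `∑ ri K A L P_K` -/
noncomputable def Th82 (N M k : ℕ) (A L : Finset ℕ) : Mat N :=
  ∑ K ∈ Lv M k, ri K A L • P N M k K

/-- `∑ Oc K B L A P_K` -/
noncomputable def ThO (N M k : ℕ) (B L A : Finset ℕ) : Mat N :=
  ∑ K ∈ Lv M k, Oc K B L A • P N M k K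

theorem Th_al (hM : N < M) (hk : k ≤ N) (A L : Finset ℕ) : Al k (Th82 N M k A L) :=
  Al.sum _ _ fun K _ => ((good (N := N) hM k hk).al K).smul _

theorem ThO_al (hM : N < M) (hk : k ≤ N) (B L A : Finset ℕ) : Al k (ThO N M k B L A) :=
  Al.sum _ _ fun K _ => ((good (N := N) hM k hk).al K).smul _

theorem cj_comm (hn : k + 1 < N) :
    U (s k hn) * rv (U (s k hn)) = rv (U (s k hn)) * U (s k hn) :=
  rv_comm (Inv_U _) (Inv_U _)

theorem LA_sum (hM : N < M) (hn : k + 1 < N) {A L : Finset ℕ} (hA : A ∈ Lv M (k + 1))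
    (hL : L ∈ Lv M (k + 2)) :
    P N M (k + 2) L * P N M (k + 1) A = ∑ K ∈ Lv M k, Ch N M k K A L := by
  unfold Ch
  rw [← Finset.mul_sum, (good (N := N) hM k (by omega)).tot, mul_one]

theorem P_mul_LA (hM : N < M) (hn : k + 1 < N) (K : Finset ℕ) {A L : Finset ℕ}
    (hA : A ∈ Lv M (k + 1)) (hL : L ∈ Lv M (k + 2)) :
    P N M k K * (P N M (k + 2) L * P N M (k + 1) A) = Ch N M k K A L := by
  unfold Ch
  rw [← mul_assoc, P_comm hM (by omega) (by omega) K hL, mul_assoc,
    P_comm hM (by omega) (by omega) K hA, ← mul_assoc]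

theorem PsLA_same (hM : N < M) (hn : k + 1 < N) {A L : Finset ℕ} (hA : A ∈ Lv M (k + 1))
    (hL : L ∈ Lv M (k + 2)) :
    P N M (k + 1) A * (U (s k hn) * (P N M (k + 2) L * P N M (k + 1) A)) =
      Th82 N M k A L * (P N M (k + 2) L * P N M (k + 1) A) := by
  rw [LA_sum hM hn hA hL, Finset.mul_sum, Finset.mul_sum]
  rw [← LA_sum hM hn hA hL]
  unfold Th82
  rw [Finset.sum_mul]
  refine Finset.sum_congr rfl fun K hK => ?_
  rw [PsCh_same hM hn hK hA hL, Matrix.smul_mul, P_mul_LA hM hn K hA hL]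

theorem PsPsLA_same (hM : N < M) (hn : k + 1 < N) {B L : Finset ℕ} (A : Finset ℕ)
    (hB : B ∈ Lv M (k + 1)) (hL : L ∈ Lv M (k + 2)) :
    P N M (k + 1) B * (U (s k hn) * (P N M (k + 1) A *
      (U (s k hn) * (P N M (k + 2) L * P N M (k + 1) B)))) =
      ThO N M k B L A * (P N M (k + 2) L * P N M (k + 1) B) := by
  rw [LA_sum hM hn hB hL, Finset.mul_sum, Finset.mul_sum, Finset.mul_sum, Finset.mul_sum]
  rw [← LA_sum hM hn hB hL]
  unfold ThO
  rw [Finset.sum_mul]
  refine Finset.sum_congr rfl fun K hK => ?_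
  rw [PsPsCh_same hM hn hK hB hL, Matrix.smul_mul, P_mul_LA hM hn K hB hL]

theorem ec_not {A B L C : Finset ℕ} (h : ¬ (Ab A L ∧ Ab B L)) : ec A B L C = 0 := by
  unfold ec
  rw [rr_not h, zero_mul]

theorem PsPsLA_ne (hM : N < M) (hn : k + 1 < N) {A B L : Finset ℕ} (C : Finset ℕ) (hAB : A ≠ B)
    (hB : B ∈ Lv M (k + 1)) (hL : L ∈ Lv M (k + 2)) :
    P N M (k + 1) A * (U (s k hn) * (P N M (k + 1) C *
      (U (s k hn) * (P N M (k + 2) L * P N M (k + 1) B)))) =
      ec A B L C • (P N M (k + 1) A * (U (s k hn) * P N M (k + 1) B)) := by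
  have e1 : P N M (k + 1) A * (U (s k hn) * (P N M (k + 1) C *
      (U (s k hn) * (P N M (k + 2) L * P N M (k + 1) B)))) =
      ec A B L C • (P N M (k + 1) A * (U (s k hn) * (P N M (k + 2) L * P N M (k + 1) B))) := by
    rw [LA_sum hM hn hB hL]
    simp only [Finset.mul_sum, Finset.smul_sum]
    refine Finset.sum_congr rfl fun K hK => ?_
    rw [PsPsCh_ne hM hn hAB hK hB hL]
  rw [e1, PsPP hM hn hAB hL]
  by_cases h : Ab A L ∧ Ab B L
  · rw [if_pos h]
  · rw [if_neg h, smul_zero, ec_not h, zero_smul]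

/-- conditional expectation of the product of two idempotents -/
theorem E_LA (hM : N < M) (hn : k < N) {A L : Finset ℕ} (hA : A ∈ Lv M k)
    (hL : L ∈ Lv M (k + 1)) :
    E k (P N M (k + 1) L * P N M k A) = wt A L • P N M k A := by
  have hg := good (N := N) hM k hn.le
  rw [← P_comm hM (by omega) (by omega) A hL]
  by_cases h : Ab A L
  · obtain ⟨x, hx, rfl⟩ := h
    rw [P_P hM hn hA hx, hg.pc_E hn hA hx, wt_mv hx]
  · rw [P_P_not hM hn h, E_zero, wt_not h, zero_smul]

theorem Dg_LA_Dg (hM : N < M) (hn : k < N) {A L : Finset ℕ} (hA : A ∈ Lv M k)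
    (hL : L ∈ Lv M (k + 1)) :
    Dg N k * (P N M (k + 1) L * P N M k A) * Dg N k = wt A L • (P N M k A * Dg N k) := by
  rw [Dg_T_Dg, E_LA hM hn hA hL, Matrix.smul_mul]

theorem Dg_P_comm (hM : N < M) {j n : ℕ} (hj : j ≤ n) (hn : j ≤ N) (C : Finset ℕ) :
    Dg N n * P N M j C = P N M j C * Dg N n :=
  Dg_comm hj ((good (N := N) hM j hn).al C).1

theorem Dg_rvP_comm (hM : N < M) {j n : ℕ} (hj : j ≤ n) (hn : j ≤ N) (C : Finset ℕ) :
    Dg N n * rv (P N M j C) = rv (P N M j C) * Dg N n :=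
  Dg_comm_rv hj ((good (N := N) hM j hn).al C).1

theorem Dg_s_Dg (hn : k + 1 < N) : Dg N (k + 1) * U (s k hn) * Dg N (k + 1) = 0 := by
  rw [Dg_T_Dg, E_s, zero_mul]

theorem rvP_comm (hM : N < M) {j : ℕ} (hj : j ≤ N) (C : Finset ℕ) {T : Mat N} (hT : Inv T) :
    T * rv (P N M j C) = rv (P N M j C) * T :=
  rv_comm hT ((good (N := N) hM j hj).al C).2

/-- from the left to the right action -/
theorem to_rv (hM : N < M) (hn : k + 1 < N) {B L : Finset ℕ} (hB : B ∈ Lv M (k + 1))
    (hL : L ∈ Lv M (k + 2)) {W : Mat N} (hW : Al (k + 2) W) :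
    Dg N (k + 1) * (P N M (k + 2) L * P N M (k + 1) B) * rv W * Dg N (k + 1) =
      rv (Dg N (k + 1) * (P N M (k + 1) B * (W * (P N M (k + 2) L * P N M (k + 1) B))) *
        Dg N (k + 1)) := by
  have hg1 := good (N := N) hM (k + 1) hn.le
  have hg2 := good (N := N) hM (k + 2) (by omega)
  set D1 : Mat N := Dg N (k + 1) with hD1
  set D2 : Mat N := Dg N (k + 2) with hD2
  set PL : Mat N := P N M (k + 2) L with hPL
  set PB : Mat N := P N M (k + 1) B with hPB
  have hBi : Inv PB := (hg1.al B).2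
  have hLi : Inv PL := (hg2.al L).2
  have c1 : PB * PL = PL * PB := P_comm hM (by omega) (by omega) B hL
  have c2 : D1 * D2 = D1 := Dg_mul_Dg' (by omega)
  have c2' : D2 * D1 = D1 := Dg_mul_Dg (by omega)
  have c3 : D1 * PB = D1 * rv PB := by
    rw [hD1, hPB, Dg_P_comm hM le_rfl (by omega), Dg_rvP hM (by omega) hB]
  have c4 : PB * D1 = rv PB * D1 := (rvP_Dg hM (by omega) hB).symm
  have c5 : D2 * PL = D2 * rv PL := by
    rw [hD2, hPL, Dg_P_comm hM le_rfl (by omega), Dg_rvP hM (by omega) hL]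
  have c6 : D2 * rv PB = rv PB * D2 := Dg_rvP_comm hM (by omega) (by omega) B
  have c7 : D2 * PB = PB * D2 := Dg_P_comm hM (by omega) (by omega) B
  have hrW : PB * rv W = rv W * PB := rv_comm hBi hW.2
  have hrL : PL * rv PB = rv PB * PL := rv_comm hLi hBi
  have hWL : W * PL = PL * W := P_comm_Al hM (by omega) hL hW
  have e1 : D1 * (PL * PB) * rv W * D1 = D1 * rv PB * (PL * (rv W * (rv PB * D1))) := by
    calc D1 * (PL * PB) * rv W * D1 = D1 * (PL * (PB * PB)) * rv W * D1 := by rw [hg1.idem]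
      _ = D1 * (PB * PL * PB) * rv W * D1 := by rw [c1]; noncomm_ring
      _ = (D1 * PB) * (PL * ((PB * rv W) * D1)) := by noncomm_ring
      _ = (D1 * rv PB) * (PL * ((rv W * PB) * D1)) := by rw [c3, hrW]
      _ = D1 * rv PB * (PL * (rv W * (PB * D1))) := by noncomm_ring
      _ = _ := by rw [c4]
  have e2 : D1 * rv PB * PL = D1 * rv PB * rv PL := by
    calc D1 * rv PB * PL = (D1 * D2) * rv PB * PL := by rw [c2]
      _ = D1 * (D2 * rv PB) * PL := by noncomm_ring
      _ = D1 * rv PB * (D2 * PL) := by rw [c6]; noncomm_ring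
      _ = D1 * (rv PB * D2) * rv PL := by rw [c5]; noncomm_ring
      _ = (D1 * D2) * rv PB * rv PL := by rw [← c6]; noncomm_ring
      _ = _ := by rw [c2]
  rw [e1, ← mul_assoc (D1 * rv PB), e2]
  have hrd : rv D1 = D1 := rv_Dg _
  rw [rv_mul, rv_mul, rv_mul, rv_mul, rv_mul, hrd]
  have e3 : rv W * rv PL = rv PL * rv W := by rw [← rv_mul, hWL, rv_mul]
  calc D1 * rv PB * rv PL * (rv W * (rv PB * D1)) =
      D1 * rv PB * (rv PL * rv W) * (rv PB * D1) := by noncomm_ring
    _ = _ := by rw [← e3]; noncomm_ring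

theorem Al_s (hn : k + 1 < N) : Al (k + 2) (U (s k hn)) := Al_U (s_Sn k hn)

theorem rv_Th_Dg (hM : N < M) (hk : k ≤ N) (A L : Finset ℕ) :
    rv (Th82 N M k A L) * Dg N k = Th82 N M k A L * Dg N k := by
  unfold Th82
  rw [rv_sum, Finset.sum_mul, Finset.sum_mul]
  refine Finset.sum_congr rfl fun K hK => ?_
  rw [rv_smul, Matrix.smul_mul, Matrix.smul_mul, rvP_Dg hM hk hK]

/-- **restriction of a column** -/
theorem R1 (hM : N < M) (hn : k + 1 < N) {A L : Finset ℕ} (hA : A ∈ Lv M (k + 1))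
    (hL : L ∈ Lv M (k + 2)) [DecidablePred fun B : Finset ℕ => B ≠ A ∧ Ab B L ∧ Ab A L] :
    Dg N (k + 1) * (U (s k hn) * rv (U (s k hn))) *
        (P N M (k + 2) L * P N M (k + 1) A) * Dg N (k + 1) =
      wt A L • (Th82 N M k A L * rv (Th82 N M k A L) * (P N M (k + 1) A * Dg N (k + 1))) +
      ∑ B ∈ Lv M (k + 1), if B ≠ A ∧ Ab B L ∧ Ab A L then
        P N M (k + 1) B * Dg N k * P N M (k + 1) A else 0 := by
  have hg1 := good (N := N) hM (k + 1) hn.le
  have hg2 := good (N := N) hM (k + 2) (by omega)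
  set D1 : Mat N := Dg N (k + 1) with hD1
  set s' : Mat N := U (s k hn) with hs'
  set PL : Mat N := P N M (k + 2) L with hPL
  have key : ∀ B ∈ Lv M (k + 1), D1 * P N M (k + 1) B * (s' * rv s') * (PL * P N M (k + 1) A) * D1 =
      D1 * (P N M (k + 1) B * (s' * (PL * P N M (k + 1) A))) * rv s' * D1 := by
    intro B _
    have c : (PL * P N M (k + 1) A) * rv s' = rv s' * (PL * P N M (k + 1) A) :=
      rv_comm ((hg2.al L).2.mul (hg1.al A).2) (Inv_U _)
    calc D1 * P N M (k + 1) B * (s' * rv s') * (PL * P N M (k + 1) A) * D1 =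
        D1 * P N M (k + 1) B * s' * (rv s' * (PL * P N M (k + 1) A)) * D1 := by noncomm_ring
      _ = _ := by rw [← c]; noncomm_ring
  have e0 : D1 * (s' * rv s') * (PL * P N M (k + 1) A) * D1 =
      ∑ B ∈ Lv M (k + 1), D1 * (P N M (k + 1) B * (s' * (PL * P N M (k + 1) A))) * rv s' * D1 := by
    rw [← Finset.sum_congr rfl key, ← Finset.sum_mul, ← Finset.sum_mul, ← Finset.sum_mul,
      ← Finset.mul_sum, hg1.tot, mul_one]
  have hThc : D1 * Th82 N M k A L = Th82 N M k A L * D1 :=
    Dg_comm (by omega) (Th_al hM (by omega) A L).1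
  have eA : D1 * (P N M (k + 1) A * (s' * (PL * P N M (k + 1) A))) * rv s' * D1 =
      wt A L • (Th82 N M k A L * rv (Th82 N M k A L) * (P N M (k + 1) A * D1)) := by
    rw [PsLA_same hM hn hA hL]
    have e1 : D1 * (Th82 N M k A L * (PL * P N M (k + 1) A)) * rv s' * D1 =
        Th82 N M k A L * (D1 * (PL * P N M (k + 1) A) * rv s' * D1) := by
      rw [← mul_assoc D1 (Th82 N M k A L), hThc]
      noncomm_ring
    rw [e1, to_rv hM hn hA hL (Al_s hn), PsLA_same hM hn hA hL]
    have e2 : D1 * (Th82 N M k A L * (PL * P N M (k + 1) A)) * D1 =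
        wt A L • (Th82 N M k A L * (P N M (k + 1) A * D1)) := by
      rw [← mul_assoc D1 (Th82 N M k A L), hThc, mul_assoc (Th82 N M k A L), mul_assoc (Th82 N M k A L),
        Dg_LA_Dg hM hn hA hL, Matrix.mul_smul]
    rw [e2, rv_smul, Matrix.mul_smul, rv_mul, rv_mul, hD1, rv_Dg, rvP_Dg hM (by omega) hA]
    congr 1
    rw [mul_assoc]
  rw [e0, ← Finset.add_sum_erase _ _ hA, eA,
    ← Finset.add_sum_erase (Lv M (k + 1)) (fun B => if B ≠ A ∧ Ab B L ∧ Ab A L then
      P N M (k + 1) B * Dg N k * P N M (k + 1) A else 0) hA]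
  rw [if_neg (fun h => h.1 rfl), zero_add]
  congr 1
  refine Finset.sum_congr rfl fun B hB => ?_
  obtain ⟨hBA, hB'⟩ := mem_erase.1 hB
  rw [PsPP hM hn hBA hL]
  by_cases h : Ab B L ∧ Ab A L
  · rw [if_pos h, if_pos ⟨hBA, h⟩]
    have c1 : D1 * P N M (k + 1) B = P N M (k + 1) B * D1 := Dg_P_comm hM le_rfl (by omega) B
    have c2 : D1 * P N M (k + 1) A = P N M (k + 1) A * D1 := Dg_P_comm hM le_rfl (by omega) A
    have c3 : P N M (k + 1) A * rv s' = rv s' * P N M (k + 1) A :=
      rv_comm (hg1.al A).2 (Inv_U _)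
    calc D1 * (P N M (k + 1) B * (s' * P N M (k + 1) A)) * rv s' * D1 =
        (D1 * P N M (k + 1) B) * s' * (P N M (k + 1) A * rv s') * D1 := by noncomm_ring
      _ = P N M (k + 1) B * (D1 * (s' * rv s')) * (P N M (k + 1) A * D1) := by
          rw [c1, c3]; noncomm_ring
      _ = P N M (k + 1) B * (D1 * (s' * rv s') * D1) * P N M (k + 1) A := by
          rw [← c2]; noncomm_ring
      _ = _ := by rw [hD1, Dg_cj_Dg]
  · rw [if_neg h, if_neg fun h' => h h'.2, mul_zero, zero_mul, zero_mul]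

/-- **restriction of a two-sided piece** -/
theorem R2 (hM : N < M) (hn : k + 1 < N) {A A' L : Finset ℕ} (hA : A ∈ Lv M (k + 1))
    (hA' : A' ∈ Lv M (k + 1)) (hL : L ∈ Lv M (k + 2)) :
    Dg N (k + 1) * (U (s k hn) * rv (U (s k hn))) *
        (P N M (k + 2) L * P N M (k + 1) A * rv (P N M (k + 1) A') * Dg N (k + 2)) *
        (U (s k hn) * rv (U (s k hn))) * Dg N (k + 1) =
      ∑ B ∈ Lv M (k + 1), wt B L •
        (ThO N M k B L A * rv (ThO N M k B L A') * (P N M (k + 1) B * Dg N (k + 1))) +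
      ∑ B ∈ Lv M (k + 1), ∑ C ∈ Lv M (k + 1), if B ≠ C then
        (ec B C L A * ec B C L A') • (P N M (k + 1) B * Dg N k * P N M (k + 1) C) else 0 := by
  have hg1 := good (N := N) hM (k + 1) hn.le
  have hg2 := good (N := N) hM (k + 2) (by omega)
  set D1 : Mat N := Dg N (k + 1) with hD1
  set D2 : Mat N := Dg N (k + 2) with hD2
  set s' : Mat N := U (s k hn) with hs'
  set PL : Mat N := P N M (k + 2) L with hPL
  set PA : Mat N := P N M (k + 1) A with hPA
  set PA' : Mat N := P N M (k + 1) A' with hPA'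
  have hsi : Inv s' := Inv_U _
  have hAi : Inv PA := (hg1.al A).2
  have hA'i : Inv PA' := (hg1.al A').2
  have hLi : Inv PL := (hg2.al L).2
  have c2 : D1 * D2 = D1 := Dg_mul_Dg' (by omega)
  have c2' : D2 * D1 = D1 := Dg_mul_Dg (by omega)
  have d1 : D2 * s' = s' * D2 := Dg_comm le_rfl (Al_s hn).1
  have d2 : D2 * rv s' = rv s' * D2 := Dg_comm_rv le_rfl (Al_s hn).1
  set XR : Mat N := s' * PA' * s' with hXR
  have hXRal : Al (k + 2) XR :=
    ((Al_s hn).mul ((hg1.al A').mono (by omega))).mul (Al_s hn)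
  have e0 : D1 * (s' * rv s') * (PL * PA * rv PA' * D2) * (s' * rv s') * D1 =
      D1 * (s' * (PA * (s' * PL))) * rv XR * D1 := by
    have a1 : D2 * (s' * rv s') * D1 = (s' * rv s') * D1 := by
      calc D2 * (s' * rv s') * D1 = (D2 * s') * rv s' * D1 := by noncomm_ring
        _ = s' * (D2 * rv s') * D1 := by rw [d1]; noncomm_ring
        _ = s' * rv s' * (D2 * D1) := by rw [d2]; noncomm_ring
        _ = _ := by rw [c2']
    have a2 : PL * PA = PA * PL := (P_comm hM (by omega) (by omega) A hL).symm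
    have a3 : rv PA' * s' = s' * rv PA' := (rv_comm hsi hA'i).symm
    have a4 : PL * s' = s' * PL := (P_comm_Al hM (by omega) hL (Al_s hn)).symm
    have a5 : rv s' * (PA * (PL * s')) = (PA * (PL * s')) * rv s' :=
      (rv_comm (hAi.mul (hLi.mul hsi)) hsi).symm
    calc D1 * (s' * rv s') * (PL * PA * rv PA' * D2) * (s' * rv s') * D1 =
        D1 * (s' * rv s') * (PL * PA * rv PA') * (D2 * (s' * rv s') * D1) := by noncomm_ring
      _ = D1 * (s' * rv s') * (PL * PA) * (rv PA' * s') * rv s' * D1 := by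
          rw [a1]; noncomm_ring
      _ = D1 * s' * (rv s' * (PA * (PL * s'))) * rv PA' * rv s' * D1 := by
          rw [a2, a3]; noncomm_ring
      _ = D1 * s' * (PA * (PL * s')) * (rv s' * rv PA' * rv s') * D1 := by
          rw [a5]; noncomm_ring
      _ = _ := by
          rw [a4, hXR, rv_mul, rv_mul]; noncomm_ring
  have e1 : D1 * (s' * (PA * (s' * PL))) * rv XR * D1 =
      ∑ B ∈ Lv M (k + 1), ∑ C ∈ Lv M (k + 1),
        D1 * (P N M (k + 1) B * (s' * (PA * (s' * (PL * P N M (k + 1) C))))) * rv XR * D1 := by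
    have f1 : ∀ B ∈ Lv M (k + 1), (∑ C ∈ Lv M (k + 1),
        D1 * (P N M (k + 1) B * (s' * (PA * (s' * (PL * P N M (k + 1) C))))) * rv XR * D1) =
        D1 * P N M (k + 1) B * ((s' * (PA * (s' * PL))) * rv XR * D1) := by
      intro B _
      have f2 : ∀ C, D1 * (P N M (k + 1) B * (s' * (PA * (s' * (PL * P N M (k + 1) C))))) * rv XR *
          D1 = (D1 * P N M (k + 1) B * (s' * (PA * (s' * PL)))) * P N M (k + 1) C *
            (rv XR * D1) := by
        intro C
        noncomm_ring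
      simp_rw [f2]
      rw [← Finset.sum_mul, ← Finset.mul_sum, hg1.tot, mul_one]
      noncomm_ring
    rw [Finset.sum_congr rfl f1, ← Finset.sum_mul, ← Finset.mul_sum, hg1.tot, mul_one]
    noncomm_ring
  rw [e0, e1, ← Finset.sum_add_distrib]
  refine Finset.sum_congr rfl fun B hB => ?_
  rw [← Finset.add_sum_erase _ _ hB,
    ← Finset.add_sum_erase (Lv M (k + 1)) (fun C => if B ≠ C then
        (ec B C L A * ec B C L A') • (P N M (k + 1) B * Dg N k * P N M (k + 1) C) else 0) hB]
  rw [if_neg (fun h => h rfl), zero_add]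
  congr 1
  · -- diagonal term
    rw [PsPsLA_same hM hn A hB hL]
    have hThc : D1 * ThO N M k B L A = ThO N M k B L A * D1 :=
      Dg_comm (by omega) (ThO_al hM (by omega) B L A).1
    have hThc' : D1 * ThO N M k B L A' = ThO N M k B L A' * D1 :=
      Dg_comm (by omega) (ThO_al hM (by omega) B L A').1
    have e1 : D1 * (ThO N M k B L A * (PL * P N M (k + 1) B)) * rv XR * D1 =
        ThO N M k B L A * (D1 * (PL * P N M (k + 1) B) * rv XR * D1) := by
      rw [← mul_assoc D1 (ThO N M k B L A), hThc]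
      noncomm_ring
    have e3 : P N M (k + 1) B * (XR * (PL * P N M (k + 1) B)) =
        P N M (k + 1) B * (s' * (PA' * (s' * (PL * P N M (k + 1) B)))) := by
      rw [hXR]; noncomm_ring
    rw [e1, to_rv hM hn hB hL hXRal, e3, PsPsLA_same hM hn A' hB hL]
    have e2 : D1 * (ThO N M k B L A' * (PL * P N M (k + 1) B)) * D1 =
        wt B L • (ThO N M k B L A' * (P N M (k + 1) B * D1)) := by
      rw [← mul_assoc D1 (ThO N M k B L A'), hThc', mul_assoc (ThO N M k B L A'),
        mul_assoc (ThO N M k B L A'), Dg_LA_Dg hM hn hB hL, Matrix.mul_smul]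
    rw [e2, rv_smul, Matrix.mul_smul, rv_mul, rv_mul, hD1, rv_Dg, rvP_Dg hM (by omega) hB]
    congr 1
    rw [mul_assoc]
  · refine Finset.sum_congr rfl fun C hC => ?_
    obtain ⟨hCB, hC'⟩ := mem_erase.1 hC
    have hBC : B ≠ C := Ne.symm hCB
    rw [if_pos hBC, PsPsLA_ne hM hn A hBC hC' hL]
    by_cases h : Ab B L ∧ Ab C L
    · set PB : Mat N := P N M (k + 1) B with hPB
      set PC : Mat N := P N M (k + 1) C with hPC
      have hBi : Inv PB := (hg1.al B).2
      have hCi : Inv PC := (hg1.al C).2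
      have t1 : PB * (s' * PC) = PB * (s' * (PL * PC)) := by
        rw [hPB, hPC, hPL, hs', PsPP hM hn hBC hL, if_pos h]
      have t2 : D1 * (PB * (s' * PC)) * rv XR * D1 =
          ec B C L A' • (PB * Dg N k * PC) := by
        -- convert
        have c3 : D1 * PB = D1 * rv PB := by
          rw [hD1, hPB, Dg_P_comm hM le_rfl (by omega), Dg_rvP hM (by omega) hB]
        have c4 : PC * D1 = rv PC * D1 := (rvP_Dg hM (by omega) hC').symm
        have c5 : D2 * PL = D2 * rv PL := by
          rw [hD2, hPL, Dg_P_comm hM le_rfl (by omega), Dg_rvP hM (by omega) hL]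
        have c6 : D2 * rv PB = rv PB * D2 := Dg_rvP_comm hM (by omega) (by omega) B
        have c7 : D2 * PB = PB * D2 := Dg_P_comm hM (by omega) (by omega) B
        have c8 : PL * PC = PC * PL := (P_comm hM (by omega) (by omega) C hL).symm
        have c9 : PL * s' = s' * PL := (P_comm_Al hM (by omega) hL (Al_s hn)).symm
        have c10 : PL * PB = PB * PL := (P_comm hM (by omega) (by omega) B hL).symm
        have iB : PB * PB = PB := hg1.idem B
        have iC : PC * PC = PC := hg1.idem C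
        have g1 : D1 * (PB * (s' * (PL * PC))) * rv XR * D1 =
            D1 * (PB * (s' * PC)) * rv (PB * (XR * (PL * PC))) * D1 := by
          have h1 : PB * (s' * (PL * PC)) = PL * (PB * (s' * (PC * PC))) := by
            rw [iC, ← mul_assoc PL, c10, mul_assoc PB, ← mul_assoc PL, c9, mul_assoc s']
          have h2 : D1 * PL = D1 * rv PL := by
            calc D1 * PL = D1 * D2 * PL := by rw [c2]
              _ = D1 * (D2 * PL) := by noncomm_ring
              _ = (D1 * D2) * rv PL := by rw [c5]; noncomm_ring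
              _ = _ := by rw [c2]
          have h3 : PC * rv XR = rv XR * PC := rv_comm hCi hXRal.2
          have h4 : PB * (s' * PC) * rv (PB * (XR * (PL * PC))) =
              rv (PB * (XR * (PL * PC))) * (PB * (s' * PC)) :=
            rv_comm (hBi.mul (hsi.mul hCi)) (hBi.mul (hXRal.2.mul (hLi.mul hCi)))
          have h5 : (PB * (s' * PC)) * rv XR = rv XR * (PB * (s' * PC)) :=
            rv_comm (hBi.mul (hsi.mul hCi)) hXRal.2
          have h6 : (PB * (s' * PC)) * rv PC = rv PC * (PB * (s' * PC)) :=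
            rv_comm (hBi.mul (hsi.mul hCi)) hCi
          have h7 : XR * PL = PL * XR := P_comm_Al hM (by omega) hL hXRal
          calc D1 * (PB * (s' * (PL * PC))) * rv XR * D1 =
              (D1 * PL) * (PB * (s' * PC)) * (PC * rv XR) * D1 := by
                rw [h1]; noncomm_ring
            _ = (D1 * rv PL) * (PB * (s' * PC)) * rv XR * (PC * D1) := by
                rw [h2, h3]; noncomm_ring
            _ = (D1 * rv PL) * (PB * (s' * PC)) * rv XR * (rv PC * D1) := by rw [c4]
            _ = D1 * rv PL * (PB * PB * (s' * PC)) * rv XR * rv PC * D1 := by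
                rw [iB]; noncomm_ring
            _ = D1 * (rv PL * PB) * (PB * (s' * PC)) * rv XR * rv PC * D1 := by noncomm_ring
            _ = (D1 * PB) * rv PL * (PB * (s' * PC)) * rv XR * rv PC * D1 := by
                rw [← rv_comm hBi hLi]; noncomm_ring
            _ = D1 * (rv PB * rv PL * ((PB * (s' * PC)) * rv XR) * rv PC) * D1 := by
                rw [c3]; noncomm_ring
            _ = D1 * (rv PB * (rv PL * rv XR) * ((PB * (s' * PC)) * rv PC)) * D1 := by
                rw [h5]; noncomm_ring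
            _ = D1 * (rv PB * (rv PL * rv XR) * rv PC * (PB * (s' * PC))) * D1 := by
                rw [h6]; noncomm_ring
            _ = D1 * (rv (PB * (XR * (PL * PC))) * (PB * (s' * PC))) * D1 := by
                rw [rv_mul PB, rv_mul XR, rv_mul PL]
                have : rv PL * rv XR = rv XR * rv PL := by
                  rw [← rv_mul, ← h7, rv_mul XR]
                rw [this]
                noncomm_ring
            _ = _ := by rw [← h4]; noncomm_ring
        have g2 : PB * (XR * (PL * PC)) = ec B C L A' • (PB * (s' * PC)) := by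
          have : PB * (XR * (PL * PC)) = PB * (s' * (PA' * (s' * (PL * PC)))) := by
            rw [hXR]; noncomm_ring
          rw [this]
          exact PsPsLA_ne hM hn A' hBC hC' hL
        have g3 : D1 * (PB * (s' * PC)) * rv (PB * (s' * PC)) * D1 = PB * Dg N k * PC := by
          have q1 : (PB * (s' * PC)) * rv PB = rv PB * (PB * (s' * PC)) :=
            rv_comm (hBi.mul (hsi.mul hCi)) hBi
          have q2 : PC * rv s' = rv s' * PC := rv_comm hCi hsi
          have q3 : D1 * PB = PB * D1 := Dg_P_comm hM le_rfl (by omega) B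
          have q4 : D1 * PC = PC * D1 := Dg_P_comm hM le_rfl (by omega) C
          calc D1 * (PB * (s' * PC)) * rv (PB * (s' * PC)) * D1 =
              D1 * ((PB * (s' * PC)) * rv PB) * rv s' * (rv PC * D1) := by
                rw [rv_mul, rv_mul]; noncomm_ring
            _ = (D1 * rv PB) * (PB * (s' * (PC * rv s'))) * (PC * D1) := by
                rw [q1, c4]; noncomm_ring
            _ = D1 * (PB * PB) * (s' * rv s') * (PC * PC) * D1 := by
                rw [← c3, q2]; noncomm_ring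
            _ = (D1 * PB) * (s' * rv s') * (PC * D1) := by rw [iB, iC]; noncomm_ring
            _ = PB * (D1 * (s' * rv s') * D1) * PC := by rw [q3, ← q4]; noncomm_ring
            _ = _ := by rw [hD1, Dg_cj_Dg]
        rw [t1, g1, g2, rv_smul, Matrix.mul_smul, Matrix.smul_mul, g3]
      rw [Matrix.mul_smul, Matrix.smul_mul, Matrix.smul_mul, t2, smul_smul]
    · rw [ec_not h, zero_mul, zero_smul, zero_smul, mul_zero, zero_mul, zero_mul]

/-- **row restriction of a column** -/
theorem R3 (hM : N < M) (hn : k + 1 < N) {A L : Finset ℕ} (hA : A ∈ Lv M (k + 1))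
    (hL : L ∈ Lv M (k + 2)) :
    Dg N (k + 1) * U (s k hn) * (P N M (k + 2) L * P N M (k + 1) A) * Dg N (k + 1) =
      wt A L • (Th82 N M k A L * (P N M (k + 1) A * Dg N (k + 1))) := by
  have hg1 := good (N := N) hM (k + 1) hn.le
  set D1 : Mat N := Dg N (k + 1) with hD1
  set s' : Mat N := U (s k hn) with hs'
  set PL : Mat N := P N M (k + 2) L with hPL
  have e0 : D1 * s' * (PL * P N M (k + 1) A) * D1 =
      ∑ B ∈ Lv M (k + 1), D1 * (P N M (k + 1) B * (s' * (PL * P N M (k + 1) A))) * D1 := by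
    rw [← Finset.sum_mul, ← Finset.mul_sum, ← Finset.sum_mul, hg1.tot, one_mul]
    noncomm_ring
  rw [e0, Finset.sum_eq_single A]
  · rw [PsLA_same hM hn hA hL]
    have hThc : D1 * Th82 N M k A L = Th82 N M k A L * D1 :=
      Dg_comm (by omega) (Th_al hM (by omega) A L).1
    rw [← mul_assoc D1 (Th82 N M k A L), hThc, mul_assoc (Th82 N M k A L), mul_assoc (Th82 N M k A L),
      Dg_LA_Dg hM hn hA hL, Matrix.mul_smul]
  · intro B hB hBA
    rw [PsPP hM hn hBA hL]
    split_ifs
    · have c1 : D1 * P N M (k + 1) B = P N M (k + 1) B * D1 := Dg_P_comm hM le_rfl (by omega) B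
      have c2 : D1 * P N M (k + 1) A = P N M (k + 1) A * D1 := Dg_P_comm hM le_rfl (by omega) A
      calc D1 * (P N M (k + 1) B * (s' * P N M (k + 1) A)) * D1 =
          (D1 * P N M (k + 1) B) * s' * (P N M (k + 1) A * D1) := by noncomm_ring
        _ = P N M (k + 1) B * (D1 * s' * D1) * P N M (k + 1) A := by
            rw [c1, ← c2]; noncomm_ring
        _ = 0 := by rw [hD1, hs', Dg_s_Dg, mul_zero, zero_mul]
    · rw [mul_zero, zero_mul]
  · intro h
    exact absurd hA h

/-- **row restriction of a one-sided piece** -/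
theorem R4 (hM : N < M) (hn : k + 1 < N) {A L : Finset ℕ} (hA : A ∈ Lv M (k + 1))
    (hL : L ∈ Lv M (k + 2)) :
    Dg N (k + 1) * U (s k hn) * (P N M (k + 2) L * P N M (k + 1) A) * U (s k hn) *
        Dg N (k + 1) =
      ∑ B ∈ Lv M (k + 1), wt B L • (ThO N M k B L A * (P N M (k + 1) B * Dg N (k + 1))) := by
  have hg1 := good (N := N) hM (k + 1) hn.le
  set D1 : Mat N := Dg N (k + 1) with hD1
  set s' : Mat N := U (s k hn) with hs'
  set PL : Mat N := P N M (k + 2) L with hPL
  have a2 : PL * P N M (k + 1) A = P N M (k + 1) A * PL :=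
    (P_comm hM (by omega) (by omega) A hL).symm
  have a4 : PL * s' = s' * PL := (P_comm_Al hM (by omega) hL (Al_s hn)).symm
  have e0 : D1 * s' * (PL * P N M (k + 1) A) * s' * D1 =
      ∑ B ∈ Lv M (k + 1), ∑ C ∈ Lv M (k + 1), D1 * (P N M (k + 1) B * (s' *
        (P N M (k + 1) A * (s' * (PL * P N M (k + 1) C))))) * D1 := by
    have f1 : ∀ B ∈ Lv M (k + 1), (∑ C ∈ Lv M (k + 1),
        D1 * (P N M (k + 1) B * (s' * (P N M (k + 1) A * (s' * (PL * P N M (k + 1) C))))) * D1) =
        D1 * P N M (k + 1) B * ((s' * (P N M (k + 1) A * (s' * PL))) * D1) := by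
      intro B _
      have f2 : ∀ C, D1 * (P N M (k + 1) B * (s' * (P N M (k + 1) A *
          (s' * (PL * P N M (k + 1) C))))) * D1 = (D1 * P N M (k + 1) B * (s' *
            (P N M (k + 1) A * (s' * PL)))) * P N M (k + 1) C * D1 := by
        intro C
        noncomm_ring
      simp_rw [f2]
      rw [← Finset.sum_mul, ← Finset.mul_sum, hg1.tot, mul_one]
      noncomm_ring
    rw [Finset.sum_congr rfl f1, ← Finset.sum_mul, ← Finset.mul_sum, hg1.tot, mul_one]
    calc D1 * s' * (PL * P N M (k + 1) A) * s' * D1 =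
        D1 * s' * P N M (k + 1) A * (PL * s') * D1 := by rw [a2]; noncomm_ring
      _ = _ := by rw [a4]; noncomm_ring
  rw [e0]
  refine Finset.sum_congr rfl fun B hB => ?_
  rw [Finset.sum_eq_single B]
  · rw [PsPsLA_same hM hn A hB hL]
    have hThc : D1 * ThO N M k B L A = ThO N M k B L A * D1 :=
      Dg_comm (by omega) (ThO_al hM (by omega) B L A).1
    rw [← mul_assoc D1 (ThO N M k B L A), hThc, mul_assoc (ThO N M k B L A),
      mul_assoc (ThO N M k B L A), Dg_LA_Dg hM hn hB hL, Matrix.mul_smul]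
  · intro C hC hCB
    rw [PsPsLA_ne hM hn A (Ne.symm hCB) hC hL]
    have c1 : D1 * P N M (k + 1) B = P N M (k + 1) B * D1 := Dg_P_comm hM le_rfl (by omega) B
    have c2 : D1 * P N M (k + 1) C = P N M (k + 1) C * D1 := Dg_P_comm hM le_rfl (by omega) C
    rw [Matrix.mul_smul, Matrix.smul_mul]
    have : D1 * (P N M (k + 1) B * (s' * P N M (k + 1) C)) * D1 = 0 := by
      calc D1 * (P N M (k + 1) B * (s' * P N M (k + 1) C)) * D1 =
          (D1 * P N M (k + 1) B) * s' * (P N M (k + 1) C * D1) := by noncomm_ring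
        _ = P N M (k + 1) B * (D1 * s' * D1) * P N M (k + 1) C := by
            rw [c1, ← c2]; noncomm_ring
        _ = 0 := by rw [hD1, hs', Dg_s_Dg, mul_zero, zero_mul]
    rw [this, smul_zero]
  · intro h
    exact absurd hB h

end rst

end Pool.JM
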