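import Pool.Agent.Work.MP_46fa68_95.Star2
import Pool.Agent.Work.MP_46fa68_82.KKdef

/-! # Transfer between different ambient symmetric groups; the rank one identity at every level -/

set_option autoImplicit false

open Finset Equiv

namespace Pool.JM

variable {N M : ℕ}

section emb

variable {m : ℕ} (hm : m ≤ N)

/-- embedding of the permutations of `m` points -/
noncomputable def emb : Perm (Fin m) →* Perm (Fin N) :=
  Perm.extendDomainHom (Fin.castLEOrderIso hm).toEquiv

theorem emb_apply_lt (σ : Perm (Fin m)) (i : Fin m) :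
    emb hm σ (Fin.castLE hm i) = Fin.castLE hm (σ i) := by
  have := Perm.extendDomain_apply_image σ (Fin.castLEOrderIso hm).toEquiv i
  exact this

theorem emb_apply_ge (σ : Perm (Fin m)) (k : Fin N) (hk : m ≤ (k : ℕ)) : emb hm σ k = k := by
  refine Perm.extendDomain_apply_not_subtype σ (Fin.castLEOrderIso hm).toEquiv ?_
  rw [not_lt]
  exact hk

theorem emb_inj : Function.Injective (emb hm) := Perm.extendDomainHom_injective _

theorem emb_Sn (σ : Perm (Fin m)) : Sn m (emb hm σ) := fun k hk => emb_apply_ge hm σ k hk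

theorem emb_Sn_iff {j : ℕ} (hj : j ≤ m) (σ : Perm (Fin m)) : Sn j (emb hm σ) ↔ Sn j σ := by
  constructor
  · intro h k hk
    have h1 := h (Fin.castLE hm k) (by simpa using hk)
    rw [emb_apply_lt] at h1
    exact Fin.castLE_injective hm h1
  · intro h k hk
    by_cases hkm : (k : ℕ) < m
    · have e : k = Fin.castLE hm ⟨k, hkm⟩ := by ext; simp
      rw [e, emb_apply_lt, h ⟨k, hkm⟩ hk]
    · exact emb_apply_ge hm σ k (not_lt.1 hkm)

theorem exists_emb {g : Perm (Fin N)} (hg : Sn m g) : ∃ σ, emb hm σ = g := by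
  have h1 : ∀ x : Fin N, (x : ℕ) < m ↔ ((g x : Fin N) : ℕ) < m := by
    intro x
    constructor
    · intro hx
      exact Sn_lt hg hx
    · intro hx
      by_contra h
      rw [hg x (not_lt.1 h)] at hx
      exact h hx
  let e : {x : Fin N // (x : ℕ) < m} ≃ Fin m := (Fin.castLEOrderIso hm).toEquiv.symm
  let τ : Perm {x : Fin N // (x : ℕ) < m} := g.subtypePerm (fun x => (h1 x).symm)
  refine ⟨e.symm.trans (τ.trans e), ?_⟩
  ext k
  by_cases hkm : (k : ℕ) < m
  · have e1 : k = Fin.castLE hm ⟨k, hkm⟩ := by ext; simp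
    rw [e1, emb_apply_lt]
    have e2 : e.symm ⟨(k : ℕ), hkm⟩ = ⟨k, hkm⟩ := rfl
    have e3 : (e.symm.trans (τ.trans e)) ⟨(k : ℕ), hkm⟩ = e (τ ⟨k, hkm⟩) := by
      simp only [Equiv.trans_apply, e2]
    rw [e3]
    rfl
  · rw [emb_apply_ge hm _ k (not_lt.1 hkm), hg k (not_lt.1 hkm)]

theorem emb_swap (i j : Fin m) :
    emb hm (swap i j) = swap (Fin.castLE hm i) (Fin.castLE hm j) := by
  ext k
  by_cases hkm : (k : ℕ) < m
  · have e1 : k = Fin.castLE hm ⟨k, hkm⟩ := by ext; simp
    rw [e1, emb_apply_lt, (Fin.castLE_injective hm).swap_apply]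
  · rw [emb_apply_ge hm _ k (not_lt.1 hkm), swap_apply_of_ne_of_ne]
    · rintro rfl
      exact hkm (by simp)
    · rintro rfl
      exact hkm (by simp)

/-- restriction of a matrix to the small group -/
noncomputable def rho (T : Mat N) : Mat m := fun g h => T (emb hm g) (emb hm h)

/-- functions on the small group are preserved -/
def Pres (m : ℕ) (T : Mat N) : Prop := ∀ g x, Sn m g → ¬ Sn m x → T g x = 0

theorem Pres_Bd {T : Mat N} (hT : Bd m T) : Pres m T := by
  intro g x hg hx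
  refine hT g x fun h => hx ?_
  have := (Sn_mul_iff hg).1 h
  exact Sn_inv_iff.1 this

theorem Pres_rv {T : Mat N} (hT : Bd m T) : Pres m (rv T) := by
  intro g x hg hx
  change T g⁻¹ x⁻¹ = 0
  refine hT _ _ fun h => hx ?_
  rw [inv_inv] at h
  exact (Sn_mul_iff (Sn_inv hg)).1 h

theorem Pres_Dg (n : ℕ) : Pres m (Dg N n) := by
  classical
  intro g x hg hx
  rw [Dg_apply, if_neg]
  rintro ⟨rfl, -⟩
  exact hx hg

theorem Pres_mul {S T : Mat N} (hS : Pres m S) (hT : Pres m T) : Pres m (S * T) := by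
  intro g x hg hx
  rw [Matrix.mul_apply]
  refine Finset.sum_eq_zero fun y _ => ?_
  by_cases hy : Sn m y
  · rw [hT y x hy hx, mul_zero]
  · rw [hS g y hg hy, zero_mul]

theorem rho_mul {S : Mat N} (hS : Pres m S) (T : Mat N) :
    rho hm (S * T) = rho hm S * rho hm T := by
  ext g h
  rw [Matrix.mul_apply]
  change (S * T) (emb hm g) (emb hm h) = _
  rw [Matrix.mul_apply]
  symm
  refine Fintype.sum_of_injective (emb hm) (emb_inj hm) _ _ ?_ fun _ => rfl
  intro x hx
  rw [hS (emb hm g) x (emb_Sn hm g), zero_mul]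
  intro h'
  obtain ⟨σ, rfl⟩ := exists_emb hm h'
  exact hx ⟨σ, rfl⟩

theorem rho_add (S T : Mat N) : rho hm (S + T) = rho hm S + rho hm T := rfl

theorem rho_smul (c : ℝ) (T : Mat N) : rho hm (c • T) = c • rho hm T := rfl

theorem rho_zero : rho hm (0 : Mat N) = 0 := rfl

theorem rho_one : rho hm (1 : Mat N) = 1 := by
  ext g h
  unfold rho
  rw [Matrix.one_apply, Matrix.one_apply]
  exact if_congr (emb_inj hm).eq_iff rfl rfl

theorem rho_sum {ι : Type*} (s : Finset ι) (f : ι → Mat N) :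
    rho hm (∑ i ∈ s, f i) = ∑ i ∈ s, rho hm (f i) := by
  ext g h
  rw [Matrix.sum_apply]
  change (∑ i ∈ s, f i) (emb hm g) (emb hm h) = _
  rw [Matrix.sum_apply]
  rfl

theorem rho_U (σ : Perm (Fin m)) : rho hm (U (emb hm σ)) = U σ := by
  ext g h
  unfold rho U
  rw [← map_mul]
  exact if_congr (emb_inj hm).eq_iff rfl rfl

theorem rho_rv (T : Mat N) : rho hm (rv T) = rv (rho hm T) := by
  ext g h
  change T (emb hm g)⁻¹ (emb hm h)⁻¹ = T (emb hm g⁻¹) (emb hm h⁻¹)
  rw [map_inv, map_inv]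

theorem rho_Dg {j : ℕ} (hj : j ≤ m) : rho hm (Dg N j) = Dg m j := by
  classical
  ext g h
  unfold rho
  rw [Dg_apply, Dg_apply]
  exact if_congr (and_congr (emb_inj hm).eq_iff (emb_Sn_iff hm hj g)) rfl rfl

theorem rho_X (c : ℝ) {j : ℕ} (hj : j < m) : rho hm (X c j) = X c j := by
  rw [X_eq c (hj.trans_le hm), X_eq c hj, rho_add, rho_smul, rho_one, rho_sum]
  congr 1
  symm
  refine Fintype.sum_of_injective (Fin.castLE hm) (Fin.castLE_injective hm) _ _ ?_ ?_
  · intro i hi
    rw [if_neg, rho_zero]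
    intro h
    exact hi ⟨⟨i, h.trans hj⟩, by ext; simp⟩
  · intro i
    by_cases h : (i : ℕ) < j
    · have h' : ((Fin.castLE hm i : Fin N) : ℕ) < j := by simpa using h
      have e : (⟨j, hj.trans_le hm⟩ : Fin N) = Fin.castLE hm ⟨j, hj⟩ := by ext; simp
      rw [if_pos h, if_pos h', e, ← emb_swap, rho_U]
    · have h' : ¬ ((Fin.castLE hm i : Fin N) : ℕ) < j := by simpa using h
      rw [if_neg h, if_neg h', rho_zero]

theorem rho_pow {Z : Mat N} (hZ : Bd m Z) (i : ℕ) (hpow : ∀ i : ℕ, Bd m (Z ^ i)) :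
    rho hm (Z ^ i) = rho hm Z ^ i := by
  induction i with
  | zero => rw [pow_zero, pow_zero, rho_one]
  | succ i ih => rw [pow_succ, rho_mul hm (Pres_Bd (hpow i)), ih, pow_succ]

theorem rho_aeval {Z : Mat N} (hZ : Al m Z) (p : Polynomial ℝ) :
    rho hm (Polynomial.aeval Z p) = Polynomial.aeval (rho hm Z) p := by
  rw [Polynomial.aeval_eq_sum_range, Polynomial.aeval_eq_sum_range, rho_sum]
  refine Finset.sum_congr rfl fun i _ => ?_
  rw [rho_smul, rho_pow hm hZ.1 i fun i => (hZ.pow i).1]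

theorem rho_P (hM : N < M) : ∀ {j : ℕ} (_ : j ≤ m) (C : Finset ℕ),
    rho hm (P N M j C) = P m M j C
  | 0, _, C => by
    change rho hm (if C = range M then 1 else 0) = (if C = range M then 1 else 0 : Mat m)
    split_ifs
    · exact rho_one hm
    · exact rho_zero hm
  | j + 1, hj, C => by
    rw [P_succ, P_succ, rho_sum]
    refine Finset.sum_congr rfl fun q _ => ?_
    split_ifs
    · unfold Pc
      have hb : Bd m (P N M j q.1) :=
        (((good (N := N) hM j (by omega)).al q.1).mono (by omega : j ≤ m)).1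
      have hx : Al m (X ((M : ℝ) - 1) j : Mat N) := (X_Al _ j).mono (by omega : j + 1 ≤ m)
      rw [rho_mul hm (Pres_Bd hb), rho_P hM (by omega), rho_aeval hm hx, rho_X hm _ (by omega)]
    · exact rho_zero hm

theorem rho_Pc (hM : N < M) {j : ℕ} (hj : j < m) (C : Finset ℕ) (x : ℕ) :
    rho hm (Pc N M j C x) = Pc m M j C x := by
  unfold Pc
  have hb : Bd m (P N M j C) :=
    (((good (N := N) hM j (by omega)).al C).mono (by omega : j ≤ m)).1
  have hx : Al m (X ((M : ℝ) - 1) j : Mat N) := (X_Al _ j).mono (by omega : j + 1 ≤ m)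
  rw [rho_mul hm (Pres_Bd hb), rho_P hm hM hj.le, rho_aeval hm hx, rho_X hm _ hj]

/-- equality from the small group -/
theorem eq_of_rho {S T : Mat N} (hS : Dg N m * S * Dg N m = S) (hT : Dg N m * T * Dg N m = T)
    (h : rho hm S = rho hm T) : S = T := by
  classical
  ext g g'
  by_cases hg : Sn m g
  · by_cases hg' : Sn m g'
    · obtain ⟨σ, rfl⟩ := exists_emb hm hg
      obtain ⟨τ, rfl⟩ := exists_emb hm hg'
      exact congrFun (congrFun h σ) τ
    · rw [← hS, ← hT, mul_Dg_apply, if_neg hg', mul_Dg_apply, if_neg hg']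
  · rw [← hS, ← hT, mul_assoc, mul_assoc, Dg_mul_apply, if_neg hg, Dg_mul_apply, if_neg hg]

end emb

/-- **the rank one identity at every level** -/
theorem star_k (hM : N < M) {k : ℕ} (hk : k + 2 ≤ N) {C : Finset ℕ} (hC : C ∈ Lv M (k + 1))
    {x : ℕ} (hx : x ∈ ad C) :
    Pc N M (k + 1) C x * Dg N (k + 1) * Pc N M (k + 1) C x =
      w C x • (Pc N M (k + 1) C x * rv (P N M (k + 1) C) * Dg N (k + 2)) := by
  have hg := good (N := N) hM (k + 1) (by omega)
  have hpc : Al (k + 2) (Pc N M (k + 1) C x) := hg.pc_al C x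
  have c1 : Dg N (k + 2) * Pc N M (k + 1) C x = Pc N M (k + 1) C x * Dg N (k + 2) :=
    Dg_comm le_rfl hpc.1
  have c2 : Dg N (k + 2) * rv (P N M (k + 1) C) = rv (P N M (k + 1) C) * Dg N (k + 2) :=
    Dg_comm_rv (by omega) (hg.al C).1
  have d1 : Dg N (k + 2) * Dg N (k + 1) = Dg N (k + 1) := Dg_mul_Dg (by omega)
  have d2 : Dg N (k + 1) * Dg N (k + 2) = Dg N (k + 1) := Dg_mul_Dg' (by omega)
  refine eq_of_rho hk ?_ ?_ ?_
  · calc Dg N (k + 2) * (Pc N M (k + 1) C x * Dg N (k + 1) * Pc N M (k + 1) C x) * Dg N (k + 2) =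
        (Dg N (k + 2) * Pc N M (k + 1) C x) * Dg N (k + 1) *
          (Pc N M (k + 1) C x * Dg N (k + 2)) := by noncomm_ring
      _ = (Dg N (k + 2) * Pc N M (k + 1) C x) * (Dg N (k + 1) * Dg N (k + 2)) *
          Pc N M (k + 1) C x := by
          rw [← c1]; noncomm_ring
      _ = Pc N M (k + 1) C x * (Dg N (k + 2) * Dg N (k + 1)) * Pc N M (k + 1) C x := by
          rw [d2, c1]; noncomm_ring
      _ = _ := by rw [d1]
  · rw [Matrix.mul_smul, Matrix.smul_mul]
    congr 1
    calc Dg N (k + 2) * (Pc N M (k + 1) C x * rv (P N M (k + 1) C) * Dg N (k + 2)) *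
          Dg N (k + 2) =
        (Dg N (k + 2) * Pc N M (k + 1) C x) * rv (P N M (k + 1) C) *
          (Dg N (k + 2) * Dg N (k + 2)) := by noncomm_ring
      _ = Pc N M (k + 1) C x * (Dg N (k + 2) * rv (P N M (k + 1) C)) * Dg N (k + 2) := by
          rw [c1, Dg_idem]; noncomm_ring
      _ = Pc N M (k + 1) C x * rv (P N M (k + 1) C) * (Dg N (k + 2) * Dg N (k + 2)) := by
          rw [c2]; noncomm_ring
      _ = _ := by rw [Dg_idem]
  · have hb : Bd (k + 2) (Pc N M (k + 1) C x) := hpc.1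
    have hbP : Bd (k + 2) (P N M (k + 1) C) := ((hg.al C).mono (by omega : k + 1 ≤ k + 2)).1
    rw [rho_mul hk (Pres_mul (Pres_Bd hb) (Pres_Dg _)), rho_mul hk (Pres_Bd hb), rho_smul,
      rho_mul hk (Pres_mul (Pres_Bd hb) (Pres_rv hbP)), rho_mul hk (Pres_Bd hb), rho_rv,
      rho_Pc hk hM (by omega), rho_P hk hM (by omega), rho_Dg hk (by omega), rho_Dg hk le_rfl,
      Dg_top (k + 2) le_rfl, mul_one, star95 (by omega) hC hx]

end Pool.JM
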